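import Pool.Agent.ThO.Defs
import Pool.Agent.ThQ.Frm

/-! # Module OMid: existence of the middle block -/

namespace ThO
open Matrix Module ThQ

variable {K V : Type*} [Field K] [AddCommGroup V] [Module K V] (q : QF K V)

/-- For `x ∈ V` let `c x = - a⁻¹ *ᵥ (fun i => h (w' i) (G x))`, `y x = ∑ c x i • w i` (linear), so `h (w' i) (G (x + y x)) = 0`, and
`s x = G (x + y x) - ∑ h (w i) (G (x + y x)) • w' i`.  For `x ∈ Dp U w w'`: `s x ∈ U`, `h (w' i) (s x) = 0`, `h (w i) (s x) = 0`. -/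
theorem mid_ex {U : Submodule K V} {G : V →ₗ[K] V} (hG : ∀ x ∈ U, G x ∈ U) {ι : Type*} [Fintype ι]
    [DecidableEq ι] {w w' : ι → V} (h : q.Hyp U w w') {a : Matrix ι ι K}
    (ha : ∀ i j, q.h (w' i) (G (w j)) = a i j) (hu : IsUnit a.det) :
    ∃ s : V →ₗ[K] V, q.Mid U G w w' s := by
  let cL : V →ₗ[K] (ι → K) := -((Matrix.mulVecLin a⁻¹).comp
    (LinearMap.pi fun i => (q.h (w' i)).comp G))
  let yL : V →ₗ[K] V := (Fintype.linearCombination K w).comp cL
  let gL : V →ₗ[K] V := G.comp (LinearMap.id + yL)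
  let s : V →ₗ[K] V := gL - ∑ i, ((q.h (w i)).comp gL).smulRight (w' i)
  have hc : ∀ x, cL x = -(a⁻¹ *ᵥ fun i => q.h (w' i) (G x)) := fun x => rfl
  have hy : ∀ x, yL x = ∑ i, cL x i • w i := fun x => by
    show Fintype.linearCombination K w (cL x) = _
    rw [Fintype.linearCombination_apply]
  have hg : ∀ x, gL x = G (x + yL x) := fun x => rfl
  have hs : ∀ x, s x = gL x - ∑ i, q.h (w i) (gL x) • w' i := fun x => by
    show (gL - ∑ i, ((q.h (w i)).comp gL).smulRight (w' i)) x = _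
    rw [LinearMap.sub_apply, LinearMap.sum_apply]
    rfl
  have key : ∀ x i, q.h (w' i) (gL x) = 0 := by
    intro x i
    have h1 : q.h (w' i) (G (yL x)) = (a *ᵥ cL x) i := by
      rw [hy, map_sum, map_sum, Matrix.mulVec, dotProduct]
      refine Finset.sum_congr rfl fun j _ => ?_
      rw [map_smul, map_smul, ha, smul_eq_mul, mul_comm]
    have h2 : a *ᵥ cL x = -fun i => q.h (w' i) (G x) := by
      rw [hc, Matrix.mulVec_neg, Matrix.mulVec_mulVec, Matrix.mul_nonsing_inv _ hu,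
        Matrix.one_mulVec]
    rw [hg, map_add, map_add, h1, h2, Pi.neg_apply, add_neg_cancel]
  refine ⟨s, fun x hx => ⟨?_, yL x, ?_, ∑ i, q.h (w i) (gL x) • w' i, ?_, ?_⟩⟩
  · rw [q.mem_Dp]
    have hxU := (q.mem_Dp.1 hx).1
    have hyU : yL x ∈ U := by
      rw [hy]
      exact U.sum_mem fun i _ => U.smul_mem _ (h.mem i)
    have hgU : gL x ∈ U := hG _ (U.add_mem hxU hyU)
    refine ⟨?_, fun j => ⟨?_, ?_⟩⟩
    · rw [hs]
      exact U.sub_mem hgU (U.sum_mem fun i _ => U.smul_mem _ (h.mem' i))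
    · rw [hs, map_sub, map_sum, Finset.sum_eq_single j]
      · rw [map_smul, q.symm (w' j) (w j), h.dual, if_pos rfl, smul_eq_mul, mul_one, sub_self]
      · intro b _ hb
        rw [map_smul, q.symm (w' b) (w j), h.dual, if_neg hb, smul_zero]
      · intro hj
        exact absurd (Finset.mem_univ j) hj
    · rw [hs, map_sub, key, map_sum, zero_sub, neg_eq_zero]
      refine Finset.sum_eq_zero fun i _ => ?_
      rw [map_smul, h.iso', smul_zero]
  · rw [hy]
    exact Submodule.sum_mem _ fun i _ => Submodule.smul_mem _ _ (Submodule.subset_span ⟨i, rfl⟩)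
  · exact Submodule.sum_mem _ fun i _ => Submodule.smul_mem _ _ (Submodule.subset_span ⟨i, rfl⟩)
  · rw [hs, ← hg, sub_add_cancel]

/-- `mid_ex` and `ThQ.frame` -/
theorem std_of_sysB {D : Type*} [AddCommGroup D] [Module K D] [FiniteDimensional K D] {k : ℕ}
    (qD : QF K D) (hD : qD.ND ⊤) (g : IG (q0 qD k)) {a : Matrix (Fin k) (Fin k) K}
    (h : SysB (q0 qD k) ⊤ ((g : V0 K D k ≃ₗ[K] V0 K D k) : V0 K D k →ₗ[K] V0 K D k) a)
    (hu : IsUnit a.det) : ∃ (P : IG (q0 qD k)) (s : IG qD), Std qD (P⁻¹ * g * P) a s := by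
  obtain ⟨w, w', hw, ha⟩ := h
  obtain ⟨s, hs⟩ := mid_ex (q0 qD k) (fun _ _ => Submodule.mem_top) hw ha hu
  obtain ⟨P, s', h1, -⟩ := frame qD hD g hw hs ha
  exact ⟨P, s', h1⟩

end ThO
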