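import Pool.Agent.ThO.OStep

/-! # Module OTri: triangular systems -/

namespace ThO
open Matrix Module ThQ

variable {K V : Type*} [Field K] [AddCommGroup V] [Module K V] (q : QF K V)

private theorem otri_cons {n : ℕ} {c : K} {l : Fin n → K} (hc : c ≠ 0) (hl : ∀ i, l i ≠ 0) :
    ∀ i, (Fin.cons c l : Fin (n + 1) → K) i ≠ 0 := by
  intro i
  refine Fin.cases ?_ (fun i => ?_) i
  · rw [Fin.cons_zero]
    exact hc
  · rw [Fin.cons_succ]
    exact hl i

/-- Induction on `n`.  `n = 0`: the empty system.  `n + 1`: if there is a singular `w ∈ U` with `h w (G w) ≠ 0`: induction hypothesis for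
`perp2 U w (G w)`, `g1 G w` (`perp2_ND`, `perp2_finrank`, `iso_g1`), `stepB` with `c = 1`.  Otherwise `Exc U G c` (`sym_exc5`), `c = 2 ε`
(`exc_odd`), a singular eigenvector `w` (`exc_eig`), a partner `w'`, induction hypothesis for `perp2 U w w'`, `g2 G w w'`
(`iso_g2`), `stepB2`. -/
theorem triB_ex [Finite K] [FiniteDimensional K V] (h2 : (2 : K) ≠ 0) (n : ℕ) (U : Submodule K V)
    (G : V →ₗ[K] V) (hU : q.ND U) (hf : finrank K U = 2 * n + 3) (hG : q.Iso U G) :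
    ∃ l : Fin n → K, (∀ i, l i ≠ 0) ∧ TriB q U G n l := by
  induction n generalizing U G with
  | zero =>
    exact ⟨Fin.elim0, fun i => i.elim0, Fin.elim0, Fin.elim0, ⟨fun i => i.elim0, fun i => i.elim0,
      fun i => i.elim0, fun i => i.elim0, fun i => i.elim0, fun i => i.elim0, fun i => i.elim0⟩,
      fun i => i.elim0, fun i => i.elim0⟩
  | succ n ih =>
    by_cases c1 : ∃ w ∈ U, q.Q w = 0 ∧ q.h w (G w) ≠ 0
    · obtain ⟨w, hw, h0, hz⟩ := c1
      have hQ : q.Q (G w) = 0 := by rw [hG.2 w hw, h0]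
      have hND := perp2_ND q hU hw (hG.1 w hw) h0 hQ hz
      have hfr := perp2_finrank q hw (hG.1 w hw) h0 hQ hz
      obtain ⟨l, hl, ht⟩ := ih (q.perp2 U w (G w)) (q.g1 G w) hND (by omega) (iso_g1 q hG hw h0 hz)
      exact ⟨Fin.cons 1 l, otri_cons one_ne_zero hl, stepB q hU hG hw h0 hz hf ht one_ne_zero⟩
    · have hz : ∀ w ∈ U, q.Q w = 0 → q.h w (G w) = 0 := by
        intro w hw h0
        by_contra h
        exact c1 ⟨w, hw, h0, h⟩
      obtain ⟨c, hE⟩ := sym_exc5 q hU (by omega) hG hz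
      obtain ⟨ε, hε, rfl⟩ := exc_odd q h2 hU (n := n + 2) (by omega) hG hE
      obtain ⟨w, hw, hn, h0, he⟩ := exc_eig q hU (by omega) hG hε hE
      have hε0 : ε ≠ 0 := by
        rintro rfl
        rw [zero_pow two_ne_zero] at hε
        exact zero_ne_one hε
      obtain ⟨w', hw', h0', h1⟩ := partner q hU hw h0 hn
      have hab : q.h w w' ≠ 0 := by
        rw [← q.symm w w', h1]
        exact one_ne_zero
      have hND := perp2_ND q hU hw hw' h0 h0' hab
      have hfr := perp2_finrank q hw hw' h0 h0' hab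
      obtain ⟨l, hl, ht⟩ := ih (q.perp2 U w w') (q.g2 G w w') hND (by omega)
        (iso_g2 q hG hw hw' h0 h0' h1 hε0 he)
      exact ⟨Fin.cons ε l, otri_cons hε0 hl, stepB2 q hG hw hw' h0 h0' h1 hε0 he ht⟩

/-- `triB_ex` for `perp2 U w (G w)` gives `l'`, choose `c ≠ 0`, `c ≠ l' 0` (`1` or `-1`), `stepB`. -/
theorem triB_ne [Finite K] [FiniteDimensional K V] (h2 : (2 : K) ≠ 0) {m : ℕ} {U : Submodule K V}
    {G : V →ₗ[K] V} (hU : q.ND U) (hf : finrank K U = 2 * (m + 2) + 3) (hG : q.Iso U G)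
    (hne : ∃ w ∈ U, q.Q w = 0 ∧ q.h w (G w) ≠ 0) :
    ∃ l : Fin (m + 2) → K, (∀ i, l i ≠ 0) ∧ (∃ i j, l i ≠ l j) ∧ TriB q U G (m + 2) l := by
  obtain ⟨w, hw, h0, hz⟩ := hne
  have hQ : q.Q (G w) = 0 := by rw [hG.2 w hw, h0]
  have hND := perp2_ND q hU hw (hG.1 w hw) h0 hQ hz
  have hfr := perp2_finrank q hw (hG.1 w hw) h0 hQ hz
  obtain ⟨l, hl, ht⟩ := triB_ex q h2 (m + 1) (q.perp2 U w (G w)) (q.g1 G w) hND (by omega)
    (iso_g1 q hG hw h0 hz)
  obtain ⟨c, hc0, hc1⟩ : ∃ c : K, c ≠ 0 ∧ c ≠ l 0 := by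
    by_cases h : (1 : K) = l 0
    · refine ⟨-1, neg_ne_zero.2 one_ne_zero, ?_⟩
      rw [← h]
      intro h3
      apply h2
      linear_combination -h3
    · exact ⟨1, one_ne_zero, h⟩
  refine ⟨Fin.cons c l, otri_cons hc0 hl, ⟨0, 1, ?_⟩, stepB q hU hG hw h0 hz hf ht hc0⟩
  have e1 : (Fin.cons c l : Fin (m + 2) → K) 0 = c := Fin.cons_zero _ _
  have e2 : (Fin.cons c l : Fin (m + 2) → K) 1 = l 0 := rfl
  rw [e1, e2]
  exact hc1

end ThO
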