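import Pool.Agent.ThO.Defs
import Pool.Agent.ThQ.RkH
import Pool.Agent.ThQ.Par

/-! # Module OPar: the parity is a homomorphism in odd dimension -/

namespace ThO
open Matrix Module ThQ

variable {K V : Type*} [Field K] [AddCommGroup V] [Module K V] (q : QF K V)

private theorem OPar_sign [FiniteDimensional K V] {U : Submodule K V} {G : V →ₗ[K] V}
    (h2 : (2 : K) ≠ 0) (hU : q.ND U) (h1 : finrank K U = 1) (hG : q.Iso U G) :
    ((∀ y ∈ U, G y = y) ∧ rk U G = 0) ∨ ((∀ y ∈ U, G y = -y) ∧ rk U G = 1) := by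
  obtain ⟨x, hx0, hx⟩ := finrank_eq_one_iff'.1 h1
  have hxs : ∀ y ∈ U, ∃ c : K, y = c • x.1 := by
    intro y hy
    obtain ⟨c, hc⟩ := hx ⟨y, hy⟩
    exact ⟨c, (congrArg Subtype.val hc).symm⟩
  have hx1 : x.1 ≠ 0 := fun h => hx0 (Subtype.ext h)
  have hQ : q.Q x.1 ≠ 0 := by
    intro hQ
    refine hx1 (hU x.1 x.2 fun y hy => ?_)
    obtain ⟨c, rfl⟩ := hxs y hy
    rw [map_smul, q.h_self_zero hQ, smul_zero]
  obtain ⟨c, hc⟩ := hxs (G x.1) (hG.1 _ x.2)
  have hc2 : c ^ 2 = 1 := by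
    have h3 := hG.2 x.1 x.2
    rw [hc, q.smul] at h3
    have h4 : (c ^ 2 - 1) * q.Q x.1 = 0 := by linear_combination h3
    rcases mul_eq_zero.1 h4 with h5 | h5
    · linear_combination h5
    · exact absurd h5 hQ
  have hGy : ∀ y ∈ U, G y = c • y := by
    intro y hy
    obtain ⟨d, rfl⟩ := hxs y hy
    rw [map_smul, hc, smul_comm]
  rcases sq_eq_one_iff.1 hc2 with h3 | h3
  · left
    have h4 : ∀ y ∈ U, G y = y := fun y hy => by rw [hGy y hy, h3, one_smul]
    refine ⟨h4, ?_⟩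
    have h5 : U.map (G - LinearMap.id) = ⊥ := by
      rw [Submodule.eq_bot_iff]
      rintro _ ⟨y, hy, rfl⟩
      rw [LinearMap.sub_apply, LinearMap.id_apply, h4 y hy, sub_self]
    rw [rk, h5, finrank_bot]
  · right
    have h4 : ∀ y ∈ U, G y = -y := fun y hy => by rw [hGy y hy, h3, neg_one_smul]
    refine ⟨h4, ?_⟩
    have h5 : U.map (G - LinearMap.id) = U := by
      refine le_antisymm ?_ ?_
      · rintro _ ⟨y, hy, rfl⟩
        rw [LinearMap.sub_apply, LinearMap.id_apply, h4 y hy]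
        exact U.sub_mem (U.neg_mem hy) hy
      · intro y hy
        refine ⟨(-(2 : K)⁻¹) • y, U.smul_mem _ hy, ?_⟩
        rw [LinearMap.sub_apply, LinearMap.id_apply, h4 _ (U.smul_mem _ hy), ← neg_smul, ← sub_smul]
        have h6 : -(-(2 : K)⁻¹) - -(2 : K)⁻¹ = 1 := by
          field_simp
          norm_num
        rw [h6, one_smul]
    rw [rk, h5, h1]

private theorem OPar_base [FiniteDimensional K V] {U : Submodule K V} {G G' : V →ₗ[K] V}
    (h2 : (2 : K) ≠ 0) (hU : q.ND U) (h1 : finrank K U = 1) (hG : q.Iso U G) (hG' : q.Iso U G') :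
    rk U (G ∘ₗ G') % 2 = (rk U G + rk U G') % 2 := by
  rcases OPar_sign q h2 hU h1 hG with ⟨a1, a2⟩ | ⟨a1, a2⟩
  · rw [a2, zero_add]
    congr 1
    exact rk_congr fun x hx => a1 _ (hG'.1 x hx)
  · rcases OPar_sign q h2 hU h1 hG' with ⟨b1, b2⟩ | ⟨b1, b2⟩
    · rw [b2, add_zero]
      congr 1
      refine rk_congr fun x hx => ?_
      rw [LinearMap.comp_apply, b1 x hx]
    · rw [a2, b2]
      rcases OPar_sign q h2 hU h1 (iso_comp q hG hG') with ⟨c1, c2⟩ | ⟨c1, c2⟩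
      · rw [c2]
      · exfalso
        have hne : U ≠ ⊥ := by
          intro h
          rw [h, finrank_bot] at h1
          exact zero_ne_one h1
        obtain ⟨x, hx, hx0⟩ := Submodule.exists_mem_ne_zero_of_ne_bot hne
        have h3 := c1 x hx
        rw [LinearMap.comp_apply, b1 x hx, map_neg, a1 x hx, neg_neg] at h3
        have h4 : (2 : K) • x = 0 := by
          rw [two_smul]
          nth_rewrite 1 [h3]
          exact neg_add_cancel x
        rcases smul_eq_zero.1 h4 with h5 | h5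
        · exact h2 h5
        · exact hx0 h5

/-- change an isometry to one which fixes `w` -/
private theorem OPar_red {U : Submodule K V} {G : V →ₗ[K] V} [FiniteDimensional K V] (hU : q.ND U) (hG : q.Iso U G) {w : V} (hw : w ∈ U)
    (h0 : q.Q w = 0) (hn : w ≠ 0) :
    ∃ (G0 : V →ₗ[K] V) (j : ℕ), q.Iso U G0 ∧ G0 w = w ∧ rk U G0 % 2 = (rk U G + j) % 2 ∧
      (∀ H, q.Iso U H → rk U (G0 ∘ₗ H) % 2 = (rk U (G ∘ₗ H) + j) % 2) ∧
      ∀ H, q.Iso U H → rk U (H ∘ₗ G0) % 2 = (rk U (H ∘ₗ G) + j) % 2 := by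
  have key : ∀ (G : V →ₗ[K] V), q.Iso U G → ∀ f ∈ U, q.Q f ≠ 0 →
      q.Iso U (q.refl f ∘ₗ G) ∧ rk U (q.refl f ∘ₗ G) % 2 = (rk U G + 1) % 2 ∧
      (∀ H, q.Iso U H → rk U ((q.refl f ∘ₗ G) ∘ₗ H) % 2 = (rk U (G ∘ₗ H) + 1) % 2) ∧
      ∀ H, q.Iso U H → rk U (H ∘ₗ (q.refl f ∘ₗ G)) % 2 = (rk U (H ∘ₗ G) + 1) % 2 := by
    intro G hG f hf hQ
    have hi := iso_comp q (refl_iso q hf hQ) hG
    refine ⟨hi, par_refl' q hU hG hf hQ, ?_, ?_⟩
    · intro H hH
      exact par_refl' q hU (iso_comp q hG hH) hf hQ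
    · intro H hH
      rw [rk_comm q hU hH hi, rk_comm q hU hH hG]
      exact par_refl' q hU (iso_comp q hG hH) hf hQ
  rcases to_fix q hU hG hw h0 hn with ⟨f, hf, hQ, hfw⟩ | ⟨f, hf, f', hf', hQ, hQ', hfw⟩
  · obtain ⟨k1, k2, k3, k4⟩ := key G hG f hf hQ
    exact ⟨_, 1, k1, hfw, k2, k3, k4⟩
  · obtain ⟨k1, k2, k3, k4⟩ := key G hG f hf hQ
    obtain ⟨l1, l2, l3, l4⟩ := key _ k1 f' hf' hQ'
    refine ⟨_, 2, l1, hfw, by omega, ?_, ?_⟩
    · intro H hH
      have := l3 H hH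
      have := k3 H hH
      omega
    · intro H hH
      have := l4 H hH
      have := k4 H hH
      omega

/-- Induction on `n`.  `n = 0`: `U = K x`, `Q x ≠ 0`, isometries of `U` are `± 1` on `U`, `rk U 1 = 0`, `rk U (-1) = 1` (`2 ≠ 0`).
`n + 1`: exactly as `ThQ.par_mul` in `Pool/Agent/ThQ/RkH.lean` (`sing_ex` needs dimension at least 3). -/
theorem par_mul_odd [Finite K] [FiniteDimensional K V] (h2 : (2 : K) ≠ 0) (n : ℕ)
    (U : Submodule K V) (G G' : V →ₗ[K] V) (hU : q.ND U) (hf : finrank K U = 2 * n + 1)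
    (hG : q.Iso U G) (hG' : q.Iso U G') :
    rk U (G ∘ₗ G') % 2 = (rk U G + rk U G') % 2 := by
  induction n generalizing U G G' with
  | zero => exact OPar_base q h2 hU (by omega) hG hG'
  | succ n ih =>
    obtain ⟨w, hw, hn, h0⟩ := sing_ex q (U := U) (by omega)
    obtain ⟨w', hw', h0', h1⟩ := partner q hU hw h0 hn
    have h1' : q.h w w' ≠ 0 := by
      rw [q.symm w' w, h1]
      exact one_ne_zero
    -- the case of isometries which fix `w`
    have hfix : ∀ A B : V →ₗ[K] V, q.Iso U A → q.Iso U B → A w = w → B w = w →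
        rk U (A ∘ₗ B) % 2 = (rk U A + rk U B) % 2 := by
      intro A B hA hB hAw hBw
      have hAB := iso_comp q hA hB
      have hABw : (A ∘ₗ B) w = w := by rw [LinearMap.comp_apply, hBw, hAw]
      have p1 := par_fix q hU hA hw hw' h0 h0' h1 hAw
      have p2 := par_fix q hU hB hw hw' h0 h0' h1 hBw
      have p3 := par_fix q hU hAB hw hw' h0 h0' h1 hABw
      have hcong : rk (q.perp2 U w w') (q.g2 (A ∘ₗ B) w w') =
          rk (q.perp2 U w w') (q.g2 A w w' ∘ₗ q.g2 B w w') := by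
        refine rk_congr fun x hx => ?_
        obtain ⟨β, hβ⟩ : ∃ β : K, B x = q.g2 B w w' x + β • w :=
          ⟨q.h w' (B x), by rw [q.g2_apply]; abel⟩
        rw [LinearMap.comp_apply, q.g2_apply (A ∘ₗ B), LinearMap.comp_apply, hβ, map_add, map_smul,
          hAw, q.g2_apply A, map_add, map_smul, h1, smul_eq_mul, mul_one]
        module
      have hR : q.ND (q.perp2 U w w') := perp2_ND q hU hw hw' h0 h0' h1'
      have hfR := perp2_finrank q hw hw' h0 h0' h1'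
      have iA := iso_g2 q hA hw hw' h0 h0' h1 one_ne_zero (by rw [hAw, one_smul])
      have iB := iso_g2 q hB hw hw' h0 h0' h1 one_ne_zero (by rw [hBw, one_smul])
      have h3 := ih (q.perp2 U w w') _ _ hR (by omega) iA iB
      rw [hcong] at p3
      omega
    obtain ⟨A, j, a1, a2, a3, a4, a5⟩ := OPar_red q hU hG hw h0 hn
    obtain ⟨B, i, b1, b2, b3, b4, b5⟩ := OPar_red q hU hG' hw h0 hn
    have h3 := hfix A B a1 b1 a2 b2
    have h4 := a4 B b1
    have h5 := b5 G hG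
    omega

/-- as `ThQ.comm_even` in `Pool/Agent/ThQ/Par.lean` -/
theorem comm_even_odd [Finite K] [FiniteDimensional K V] (h2 : (2 : K) ≠ 0) (hV : q.ND ⊤) {n : ℕ}
    (hf : finrank K V = 2 * n + 1) {g : IG q} (hg : g ∈ commutator (IG q)) :
    rk ⊤ ((g : V ≃ₗ[K] V) : V →ₗ[K] V) % 2 = 0 := by
  have hf' : finrank K (⊤ : Submodule K V) = 2 * n + 1 := by rw [finrank_top, hf]
  let φ : IG q →* Multiplicative (ZMod 2) := MonoidHom.mk' (fun g =>
    Multiplicative.ofAdd ((rk ⊤ ((g : V ≃ₗ[K] V) : V →ₗ[K] V) : ℕ) : ZMod 2)) (fun g g' => by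
      rw [← ofAdd_add, ← Nat.cast_add]
      congr 1
      rw [ZMod.natCast_eq_natCast_iff]
      exact par_mul_odd q h2 n ⊤ _ _ hV hf' (IG_iso q g) (IG_iso q g'))
  have h1 : φ g = 1 := Abelianization.commutator_subset_ker φ hg
  have h2 : ((rk ⊤ ((g : V ≃ₗ[K] V) : V →ₗ[K] V) : ℕ) : ZMod 2) = 0 := h1
  rw [ZMod.natCast_eq_zero_iff] at h2
  exact Nat.mod_eq_zero_of_dvd h2

end ThO
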