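import Pool.Agent.ThO.ORfl
import Pool.Agent.ThO.OPar
import Pool.Agent.ThQ.SgnA
import Pool.Agent.ThQ.Frm

/-! # Module OSgn: middle blocks in the commutator subgroup -/

namespace ThO
open Matrix Module ThQ

variable {K D : Type*} [Field K] [AddCommGroup D] [Module K D] {k : ℕ}

private theorem OSgn_Q (qD : QF K D) (e : D) : (q0 qD k).Q ((0, e, 0) : V0 K D k) = qD.Q e := by
  rw [q0_Q]
  show (0 : Fin k → K) ⬝ᵥ (0 : Fin k → K) + qD.Q e = qD.Q e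
  rw [zero_dotProduct, zero_add]

private theorem OSgn_conj {G H : Type*} [Group G] [CommGroup H] (φ : G →* H) (p x : G) :
    φ (p * x * p⁻¹) = φ x := by
  rw [map_mul, map_mul, map_inv, mul_comm (φ p), mul_inv_cancel_right]

private theorem OSgn_one [Finite K] [Finite D] (h2 : (2 : K) ≠ 0) (qD : QF K D) (i : Fin k) {e : D}
    (he : qD.Q e ≠ 0) (hv : (q0 qD k).Q (vm K D i (qD.Q e)) ≠ 0) :
    sgnQ (q0 qD k) (rE (q0 qD k) (vm K D i (qD.Q e)) hv) = sgnQ (q0 qD k) (oD qD k (rE qD e he)) := by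
  have he' : (q0 qD k).Q ((0, e, 0) : V0 K D k) ≠ 0 := by rw [OSgn_Q]; exact he
  rw [oD_rE qD e he he']
  obtain ⟨p, hp⟩ := refl_move (q0 qD k) (e := vm K D i (qD.Q e)) (f := ((0, e, 0) : V0 K D k)) h2 hv
    (by rw [vm_Q, OSgn_Q])
  have h1 : rE (q0 qD k) ((0, e, 0) : V0 K D k) he' =
      p * rE (q0 qD k) (vm K D i (qD.Q e)) hv * p⁻¹ := by
    rw [rE_conj]
    refine rE_congr _ (fun x => ?_) he' _
    rcases hp with hp | hp
    · rw [hp]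
    · rw [hp, ← neg_one_smul K ((0, e, 0) : V0 K D k), refl_smul _ _ (neg_ne_zero.2 one_ne_zero)]
  rw [h1, OSgn_conj]

/-- Let `m1 = Q e`, `m2 = Q f`, `t = m2 / m1`, `i : Fin k`.  `rE (vm i m1)` is conjugate to `rE (0, e, 0) = oD (rE e)` (`refl_move`, `rE_conj`,
`oD_rE`; `rE` of `-f` is `rE f`), so they have the same sign `sgnQ` (`ℤˣ` is commutative); the same for `m2`, `f`.  So
`sgnQ (mL (dgU i t)) = sgnQ (oD (rE e * rE f))` (`dg_rE`) `= 1`, as the commutator subgroup is in the kernel of `sgnQ`.  By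
`ThQ.sgn_dg`, `t` is a square, so `m1 * m2 = t * m1 ^ 2` is a square. -/
theorem sgn_pair [Finite K] [Finite D] (h2 : (2 : K) ≠ 0) (hk : 0 < k) (qD : QF K D) {e f : D}
    (he : qD.Q e ≠ 0) (hf : qD.Q f ≠ 0)
    (h : oD qD k (rE qD e he * rE qD f hf) ∈ commutator (IG (q0 qD k))) :
    IsSquare (qD.Q e * qD.Q f) := by
  obtain ⟨t, ht⟩ : ∃ t : Kˣ, t = Units.mk0 (qD.Q f * (qD.Q e)⁻¹) (mul_ne_zero hf (inv_ne_zero he)) :=
    ⟨_, rfl⟩
  have ht' : (t : K) = qD.Q f * (qD.Q e)⁻¹ := by rw [ht, Units.val_mk0]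
  have hte : (t : K) * qD.Q e = qD.Q f := by
    rw [ht', mul_assoc, inv_mul_cancel₀ he, mul_one]
  let i : Fin k := ⟨0, hk⟩
  have hv1 : (q0 qD k).Q (vm K D i (qD.Q e)) ≠ 0 := by rw [vm_Q]; exact he
  have hv2 : (q0 qD k).Q (vm K D i (qD.Q f)) ≠ 0 := by rw [vm_Q]; exact hf
  have h1 : sgnQ (q0 qD k) (mL qD k (dgU i t)) = 1 := by
    rw [dg_rE qD i t hte hv1 hv2, map_mul, OSgn_one h2 qD i he hv1, OSgn_one h2 qD i hf hv2,
      ← map_mul, ← map_mul]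
    exact Abelianization.commutator_subset_ker (sgnQ (q0 qD k)) h
  obtain ⟨s, hs⟩ := (sgn_dg h2 qD i t).1 h1
  refine ⟨(s : K) * qD.Q e, ?_⟩
  have hs' : (t : K) = (s : K) * (s : K) := by rw [hs, Units.val_mul]
  rw [← hte, hs']
  ring

private theorem OSgn_rk (qD : QF K D) (s : IG qD) :
    rk ⊤ ((oD qD k s : V0 K D k ≃ₗ[K] V0 K D k) : V0 K D k →ₗ[K] V0 K D k) =
      rk ⊤ ((s : D ≃ₗ[K] D) : D →ₗ[K] D) := by
  let ι : D →ₗ[K] V0 K D k :=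
    { toFun := fun y => (0, y, 0)
      map_add' := fun y y' => by
        refine Prod.ext ?_ (Prod.ext rfl ?_)
        · exact (add_zero 0).symm
        · exact (add_zero 0).symm
      map_smul' := fun c y => by
        refine Prod.ext ?_ (Prod.ext rfl ?_)
        · exact (smul_zero c).symm
        · exact (smul_zero c).symm }
  have hι : Function.Injective ι := fun y y' h => (Prod.mk.inj (Prod.mk.inj h).2).1
  have e : (⊤ : Submodule K (V0 K D k)).map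
      (((oD qD k s : V0 K D k ≃ₗ[K] V0 K D k) : V0 K D k →ₗ[K] V0 K D k) - LinearMap.id) =
      ((⊤ : Submodule K D).map (((s : D ≃ₗ[K] D) : D →ₗ[K] D) - LinearMap.id)).map ι := by
    ext z
    constructor
    · rintro ⟨v, -, rfl⟩
      refine ⟨(s : D ≃ₗ[K] D) v.2.1 - v.2.1, ⟨v.2.1, trivial, rfl⟩, ?_⟩
      show ((0, (s : D ≃ₗ[K] D) v.2.1 - v.2.1, 0) : V0 K D k) =
        (v.1 - v.1, (s : D ≃ₗ[K] D) v.2.1 - v.2.1, v.2.2 - v.2.2)
      rw [sub_self, sub_self]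
    · rintro ⟨_, ⟨y, -, rfl⟩, rfl⟩
      refine ⟨(0, y, 0), trivial, ?_⟩
      show ((0 - 0, (s : D ≃ₗ[K] D) y - y, 0 - 0) : V0 K D k) = (0, (s : D ≃ₗ[K] D) y - y, 0)
      rw [sub_self]
  rw [rk, rk, e]
  exact (Submodule.equivMapOfInjective ι hι _).finrank_eq.symm

/-- `rk ⊤ (oD s) = rk ⊤ s` (the image of `oD s - 1` is the image of `s - 1` in `D`), `comm_even_odd` for `V0`
(`q0_ND`, `V0_finrank`: dimension `2 k + 3`) -/
theorem oD_even [Finite K] [Finite D] (h2 : (2 : K) ≠ 0) (qD : QF K D) (hD : qD.ND ⊤)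
    (hD3 : finrank K D = 3) {s : IG qD} (h : oD qD k s ∈ commutator (IG (q0 qD k))) :
    rk ⊤ ((s : D ≃ₗ[K] D) : D →ₗ[K] D) % 2 = 0 := by
  have : FiniteDimensional K D := Module.Finite.of_finite
  have hf : finrank K (V0 K D k) = 2 * (k + 1) + 1 := by
    rw [V0_finrank, hD3]
    ring
  have h1 := comm_even_odd (q0 qD k) h2 (q0_ND qD hD) hf h
  rw [OSgn_rk] at h1
  exact h1

/-- `rk ⊤ s = 2`, `e = s x - x` with `Q e ≠ 0`.  There is `c ≠ 0` with `s c = c` (`rk_ker`), `h e c = 0` (`mem_im`), so `refl e ∘ s` fixes `c` and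
`rk ⊤ (refl e ∘ s) ≤ 2`; by `par_refl` it is `1`, so it is a reflection (`rk_one_refl`) : `rE e * s = rE f`. -/
theorem two_refl [FiniteDimensional K D] (qD : QF K D) (hD : qD.ND ⊤) (hD3 : finrank K D = 3)
    {s : IG qD} (hs : rk ⊤ ((s : D ≃ₗ[K] D) : D →ₗ[K] D) = 2) {x : D}
    (he : qD.Q ((s : D ≃ₗ[K] D) x - x) ≠ 0) :
    ∃ (f : D) (hf : qD.Q f ≠ 0), s = rE qD ((s : D ≃ₗ[K] D) x - x) he * rE qD f hf := by
  obtain ⟨e, hee⟩ : ∃ e, e = (s : D ≃ₗ[K] D) x - x := ⟨_, rfl⟩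
  have hiso : qD.Iso ⊤ ((s : D ≃ₗ[K] D) : D →ₗ[K] D) := IG_iso qD s
  have he' : qD.Q e ≠ 0 := by rw [hee]; exact he
  have hk1 := rk_ker (U := (⊤ : Submodule K D)) (G := ((s : D ≃ₗ[K] D) : D →ₗ[K] D))
  rw [finrank_top, hD3, hs] at hk1
  have hk2 : 0 < finrank K (⊤ ⊓ LinearMap.ker (((s : D ≃ₗ[K] D) : D →ₗ[K] D) - LinearMap.id) :
      Submodule K D) := by omega
  have : Nontrivial (⊤ ⊓ LinearMap.ker (((s : D ≃ₗ[K] D) : D →ₗ[K] D) - LinearMap.id) :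
      Submodule K D) := Module.nontrivial_of_finrank_pos hk2
  obtain ⟨⟨c, hc⟩, hc0⟩ := exists_ne (0 : (⊤ ⊓ LinearMap.ker (((s : D ≃ₗ[K] D) : D →ₗ[K] D) -
    LinearMap.id) : Submodule K D))
  have hc0' : c ≠ 0 := fun h => hc0 (Subtype.ext h)
  have hsc : (s : D ≃ₗ[K] D) c = c := by
    have h1 := LinearMap.mem_ker.1 (Submodule.mem_inf.1 hc).2
    exact sub_eq_zero.1 h1
  have hce : qD.h e c = 0 := by
    rw [qD.symm c e]
    exact ((mem_im qD hD hiso e).1 ⟨x, trivial, hee.symm⟩).2 c trivial hsc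
  have hpar := par_refl qD hD hiso (f := e) trivial he'
  have hk3 := rk_ker (U := (⊤ : Submodule K D)) (G := qD.refl e ∘ₗ ((s : D ≃ₗ[K] D) : D →ₗ[K] D))
  have hk4 : 0 < finrank K (⊤ ⊓ LinearMap.ker (qD.refl e ∘ₗ ((s : D ≃ₗ[K] D) : D →ₗ[K] D) -
      LinearMap.id) : Submodule K D) := by
    have hm : c ∈ (⊤ ⊓ LinearMap.ker (qD.refl e ∘ₗ ((s : D ≃ₗ[K] D) : D →ₗ[K] D) -
      LinearMap.id) : Submodule K D) := by
      refine Submodule.mem_inf.2 ⟨trivial, LinearMap.mem_ker.2 ?_⟩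
      show qD.refl e ((s : D ≃ₗ[K] D) c) - c = 0
      rw [hsc, refl_fix qD hce, sub_self]
    have : Nontrivial (⊤ ⊓ LinearMap.ker (qD.refl e ∘ₗ ((s : D ≃ₗ[K] D) : D →ₗ[K] D) -
      LinearMap.id) : Submodule K D) := ⟨⟨c, hm⟩, 0, fun h => hc0' (congrArg Subtype.val h)⟩
    exact Module.finrank_pos
  rw [finrank_top, hD3] at hk3
  have h1 : rk ⊤ (qD.refl e ∘ₗ ((s : D ≃ₗ[K] D) : D →ₗ[K] D)) = 1 := by
    rw [hs] at hpar
    omega
  have hiso' : qD.Iso ⊤ (qD.refl e ∘ₗ ((s : D ≃ₗ[K] D) : D →ₗ[K] D)) :=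
    ⟨fun _ _ => trivial, fun y _ => by
      rw [LinearMap.comp_apply, (refl_iso qD (U := ⊤) trivial he').2 _ trivial]
      exact s.2 y⟩
  obtain ⟨f, -, hf, hrf⟩ := rk_one_refl qD hD hiso' h1
  refine ⟨f, hf, ?_⟩
  apply Subtype.ext
  apply LinearEquiv.ext
  intro y
  show (s : D ≃ₗ[K] D) y = qD.refl ((s : D ≃ₗ[K] D) x - x) (qD.refl f y)
  rw [← hrf y trivial, ← hee, LinearMap.comp_apply, refl_refl qD he']
  rfl

end ThO
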