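import Pool.Agent.ThO.OEi
import Pool.Agent.ThO.OSgn

/-! # Module OYp: products of two regular unipotent elements in dimension 3 -/

namespace ThO
open Matrix Module ThQ

variable {K D : Type*} [Field K] [AddCommGroup D] [Module K D]

private theorem oyp_h (qD : QF K D) (P : IG qD) (x y : D) :
    qD.h ((P : D ≃ₗ[K] D) x) ((P : D ≃ₗ[K] D) y) = qD.h x y := by
  have h : qD.Iso ⊤ (((P : D ≃ₗ[K] D) : D →ₗ[K] D)) := ⟨fun _ _ => Submodule.mem_top, fun x _ => P.2 x⟩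
  exact h.h Submodule.mem_top Submodule.mem_top

/-- the orthogonal space of a hyperbolic pair is a line -/
private theorem oyp_line [FiniteDimensional K D] (qD : QF K D) (hD3 : finrank K D = 3) {p p' : D}
    (hp : qD.Q p = 0) (hp' : qD.Q p' = 0) (h1 : qD.h p' p = 1) :
    finrank K (qD.perp2 ⊤ p p') = 1 := by
  have h2 := perp2_finrank qD (U := ⊤) (a := p) (b := p') Submodule.mem_top Submodule.mem_top hp hp'
    (by rw [qD.symm p' p, h1]; exact one_ne_zero)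
  rw [finrank_top, hD3] at h2
  omega

private theorem oyp_mul [FiniteDimensional K D] (qD : QF K D) (hD3 : finrank K D = 3) {p p' : D}
    (hp : qD.Q p = 0) (hp' : qD.Q p' = 0) (h1 : qD.h p' p = 1) {e f : D} (he : e ≠ 0)
    (e1 : qD.h p e = 0) (e2 : qD.h p' e = 0) (f1 : qD.h p f = 0) (f2 : qD.h p' f = 0) :
    ∃ c : K, f = c • e := by
  have hl := oyp_line qD hD3 hp hp' h1
  let e' : qD.perp2 ⊤ p p' := ⟨e, qD.mem_perp2.2 ⟨Submodule.mem_top, e1, e2⟩⟩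
  let f' : qD.perp2 ⊤ p p' := ⟨f, qD.mem_perp2.2 ⟨Submodule.mem_top, f1, f2⟩⟩
  have he' : e' ≠ 0 := fun h => he (congrArg Subtype.val h)
  obtain ⟨c, hc⟩ := exists_smul_eq_of_finrank_eq_one hl he' f'
  exact ⟨c, (congrArg Subtype.val hc).symm⟩

/-- a partner of `w` orthogonal to `d` -/
private theorem oyp_partner [FiniteDimensional K D] (qD : QF K D) (hD : qD.ND ⊤) {w d : D}
    (hw : w ≠ 0) (hw0 : qD.Q w = 0) (hd : qD.h d w = 0) (hd0 : qD.Q d ≠ 0) :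
    ∃ w' : D, qD.Q w' = 0 ∧ qD.h w' w = 1 ∧ qD.h w' d = 0 := by
  obtain ⟨y, -, h1, h2⟩ := two_val qD hD (a := w) (b := d) Submodule.mem_top Submodule.mem_top (by
    intro s t hst
    have h3 := congrArg qD.Q hst
    rw [qD.add, qD.smul, qD.smul, hw0, qD.smul_left, map_smul, qD.symm d w, hd, qD.Q_zero] at h3
    have h4 : t ^ 2 * qD.Q d = 0 := by
      rw [smul_eq_mul] at h3
      linear_combination h3
    have ht : t = 0 := by
      rcases mul_eq_zero.1 h4 with h | h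
      · exact pow_eq_zero_iff two_ne_zero |>.1 h
      · exact absurd h hd0
    rw [ht, zero_smul, add_zero] at hst
    exact ⟨(smul_eq_zero.1 hst).resolve_right hw, ht⟩) 1 0
  refine ⟨y - qD.Q y • w, ?_, ?_, ?_⟩
  · rw [qD.Q_sub, qD.smul, map_smul, smul_eq_mul, hw0, h1]
    ring
  · rw [qD.sub_left, qD.smul_left, qD.h_self_zero hw0, h1]
    ring
  · rw [qD.sub_left, qD.smul_left, h2, qD.symm d w, hd]
    ring

/-- The data: `w`, `d` in `D` (dimension 3): `Q w = 0`, `w ≠ 0`, `h d w = 0`, `Q d ≠ 0`. -/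
theorem wd_ex [Finite K] [FiniteDimensional K D] (qD : QF K D) (hD : qD.ND ⊤)
    (hD3 : finrank K D = 3) : ∃ w d : D, w ≠ 0 ∧ qD.Q w = 0 ∧ qD.h d w = 0 ∧ qD.Q d ≠ 0 := by
  obtain ⟨w, -, hw, hw0⟩ := sing_ex qD (U := ⊤) (by rw [finrank_top, hD3])
  obtain ⟨w', -, hw0', h1⟩ := partner qD hD (w := w) Submodule.mem_top hw0 hw
  have hnd := perp2_ND qD hD (a := w) (b := w') Submodule.mem_top Submodule.mem_top hw0 hw0'
    (by rw [qD.symm w' w, h1]; exact one_ne_zero)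
  have hl := oyp_line qD hD3 hw0 hw0' h1
  obtain ⟨⟨d, hd⟩, hd0, hspan⟩ := finrank_eq_one_iff'.1 hl
  have hd' := qD.mem_perp2.1 hd
  refine ⟨w, d, hw, hw0, by rw [qD.symm w d]; exact hd'.2.1, fun hQ => ?_⟩
  apply hd0
  apply Subtype.ext
  refine hnd d hd fun y hy => ?_
  obtain ⟨c, hc⟩ := hspan ⟨y, hy⟩
  have hc' : c • d = y := congrArg Subtype.val hc
  rw [← hc', map_smul, qD.h_self_zero hQ, smul_zero]

private theorem eich_congr (qD : QF K D) {w u w' u' : D} (hw : w = w') (hu : u = u')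
    (h0 : qD.Q w = 0) (h1 : qD.h u w = 0) (h0' : qD.Q w' = 0) (h1' : qD.h u' w' = 0) :
    eich qD w u h0 h1 = eich qD w' u' h0' h1' := by
  subst hw hu
  rfl

/-- conjugates of `y = eich w d`: every `eich p ((Q e)⁻¹ • e)` with `p ≠ 0` singular, `h e p = 0`, `Q e = Q d` is a conjugate of `y`:
`eich p (t • e) = eich (t • p) e` (`eich_smul`), and `eich_trans`, `eich_conj` -/
theorem ei_conj [FiniteDimensional K D] (h2 : (2 : K) ≠ 0) (qD : QF K D) (hD : qD.ND ⊤)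
    (hD3 : finrank K D = 3) {w d : D} (hw : w ≠ 0) (hw0 : qD.Q w = 0) (hd : qD.h d w = 0)
    (hd0 : qD.Q d ≠ 0) {p e : D} (hp : p ≠ 0) (hp0 : qD.Q p = 0) (he : qD.h e p = 0)
    (hQ : qD.Q e = qD.Q d) {t : K} (ht : t ≠ 0) (h1 : qD.h (t • e) p = 0) :
    ∃ σ : IG qD, eich qD p (t • e) hp0 h1 = σ * eich qD w d hw0 hd * σ⁻¹ := by
  have htp : t • p ≠ 0 := smul_ne_zero ht hp
  have htp0 : qD.Q (t • p) = 0 := by rw [qD.smul, hp0, mul_zero]
  have hetp : qD.h e (t • p) = 0 := by rw [map_smul, he, smul_zero]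
  obtain ⟨P, hPw, hPd⟩ := eich_trans qD h2 hD hD3 hw htp hw0 htp0 hd hetp hQ.symm hd0
  refine ⟨P, ?_⟩
  have h0' : qD.Q ((P : D ≃ₗ[K] D) w) = 0 := by rw [hPw, htp0]
  have h1' : qD.h ((P : D ≃ₗ[K] D) d) ((P : D ≃ₗ[K] D) w) = 0 := by rw [hPw, hPd, hetp]
  rw [eich_conj qD P hw0 hd h0' h1', eich_congr qD hPw hPd h0' h1' htp0 hetp,
    eich_smul qD t htp0 hetp hp0 h1]

/-- The plane `P = (s - 1) D` (`rk = 2`) contains a vector `e` with `Q e = Q d`: if `P` is nondegenerate, `univ2`.  Otherwise there is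
`p ≠ 0` in `P` with `h p y = 0` for all `y ∈ P`; `Q p = 0` (`2 Q p = h p p`); `P` is the space of all vectors orthogonal to `p`
(dimensions, `perp_dim`).  Let `σ` be an isometry with `σ w = p` (partners and `witt1`); `σ d` is orthogonal to `p`, so it is in `P`. -/
theorem pick_e [Finite K] [FiniteDimensional K D] (h2 : (2 : K) ≠ 0) (qD : QF K D) (hD : qD.ND ⊤)
    (hD3 : finrank K D = 3) {w d : D} (hw : w ≠ 0) (hw0 : qD.Q w = 0) (hd : qD.h d w = 0)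
    (hd0 : qD.Q d ≠ 0) {s : IG qD} (hs : rk ⊤ ((s : D ≃ₗ[K] D) : D →ₗ[K] D) = 2) :
    ∃ x : D, qD.Q ((s : D ≃ₗ[K] D) x - x) = qD.Q d := by
  set P : Submodule K D := (⊤ : Submodule K D).map (((s : D ≃ₗ[K] D) : D →ₗ[K] D) - LinearMap.id)
    with hPdef
  have hPf : finrank K P = 2 := hs
  have hPm : ∀ y ∈ P, ∃ x : D, (s : D ≃ₗ[K] D) x - x = y := by
    rintro _ ⟨x, -, rfl⟩
    exact ⟨x, rfl⟩
  obtain ⟨e, he, hQ⟩ : ∃ e ∈ P, qD.Q e = qD.Q d := by
    by_cases hnd : qD.ND P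
    · exact univ2 qD hnd hPf (qD.Q d)
    · unfold QF.ND at hnd
      push Not at hnd
      obtain ⟨p, hp, hpP, hp0⟩ := hnd
      have hQp : qD.Q p = 0 := by
        have h3 := hpP p hp
        rw [qD.h_self] at h3
        exact (mul_eq_zero.1 h3).resolve_left h2
      -- `P` is the orthogonal space of `p`
      have hM : ∀ x, x ∈ LinearMap.ker (qD.h p) ↔
          x ∈ (⊤ : Submodule K D) ∧ ∀ y ∈ Submodule.span K {p}, qD.h y x = 0 := by
        intro x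
        rw [LinearMap.mem_ker]
        constructor
        · intro hx
          refine ⟨Submodule.mem_top, fun y hy => ?_⟩
          obtain ⟨c, rfl⟩ := Submodule.mem_span_singleton.1 hy
          rw [qD.smul_left, hx, mul_zero]
        · rintro ⟨-, hx⟩
          exact hx p (Submodule.mem_span_singleton_self p)
      have hdim := perp_dim qD hD (N := Submodule.span K {p}) le_top hM
      rw [finrank_top, hD3, finrank_span_singleton hp0] at hdim
      have hle : P ≤ LinearMap.ker (qD.h p) := fun y hy => LinearMap.mem_ker.2 (hpP y hy)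
      have heq : P = LinearMap.ker (qD.h p) :=
        Submodule.eq_of_le_of_finrank_eq hle (by rw [hPf]; omega)
      obtain ⟨w', -, hw0', h1⟩ := partner qD hD (w := w) Submodule.mem_top hw0 hw
      obtain ⟨p', -, hp0', h1'⟩ := partner qD hD (w := p) Submodule.mem_top hQp hp0
      obtain ⟨σ, hσ, hσw, -, -⟩ := witt1 qD hD (w := w) (w' := w') (v := p) (v' := p')
        Submodule.mem_top Submodule.mem_top Submodule.mem_top Submodule.mem_top hw0 hw0' hQp hp0'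
        h1 h1'
      refine ⟨σ d, ?_, hσ d⟩
      rw [heq, LinearMap.mem_ker, ← hσw]
      have h3 := oyp_h qD ⟨σ, hσ⟩ w d
      rw [qD.symm d w, hd] at h3
      exact h3
  obtain ⟨x, hx⟩ := hPm e he
  exact ⟨x, by rw [hx, hQ]⟩

/-- `1 = y * y⁻¹` -/
private theorem oyp_one (qD : QF K D) {w d : D} (hw0 : qD.Q w = 0) (hd : qD.h d w = 0)
    (hd0 : qD.Q d ≠ 0) :
    ∃ σ σ' : IG qD, (1 : IG qD) =
      σ * eich qD w d hw0 hd * σ⁻¹ * (σ' * eich qD w d hw0 hd * σ'⁻¹) := by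
  refine ⟨1, rE qD d hd0, ?_⟩
  have h1 : qD.h ((1 : K) • d) w = 0 := by rw [one_smul, hd]
  have h3 := rE_real qD hd0 hw0 (1 : K) h1 hd
  rw [eich_congr qD rfl (one_smul K d) hw0 h1 hw0 hd] at h3
  rw [h3]
  group

/-- the product of the reflections in `c` and `c + p` with `p ≠ 0` singular and orthogonal to `c` -/
private theorem oyp_refl [FiniteDimensional K D] (h2 : (2 : K) ≠ 0) (qD : QF K D) (hD : qD.ND ⊤)
    (hD3 : finrank K D = 3) {w d : D} (hw : w ≠ 0) (hw0 : qD.Q w = 0) (hd : qD.h d w = 0)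
    (hd0 : qD.Q d ≠ 0) {c f : D} (hc : qD.Q c = qD.Q d) (hc0 : qD.Q c ≠ 0) (hf0 : qD.Q f ≠ 0)
    (hne : f ≠ c) (hp0 : qD.Q (f - c) = 0) (hcp : qD.h c (f - c) = 0) :
    ∃ σ : IG qD, rE qD c hc0 * rE qD f hf0 = σ * eich qD w d hw0 hd * σ⁻¹ := by
  have hcf : c + (f - c) = f := by abel
  have hf0' : qD.Q (c + (f - c)) ≠ 0 := by rwa [hcf]
  have h1 : qD.h ((qD.Q c)⁻¹ • c) (f - c) = 0 := by rw [qD.smul_left, hcp, mul_zero]
  obtain ⟨σ, hσ⟩ := ei_conj h2 qD hD hD3 hw hw0 hd hd0 (sub_ne_zero.2 hne) hp0 hcp hc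
    (inv_ne_zero hc0) h1
  refine ⟨σ, ?_⟩
  rw [← hσ, ← rE_eich qD hc0 hp0 hcp hf0' h1]
  congr 1
  exact rE_congr qD (fun x => by rw [hcf]) hf0 hf0'

/-- the case `h f e = 2 δ` -/
private theorem oyp_two [FiniteDimensional K D] (h2 : (2 : K) ≠ 0) (qD : QF K D) (hD : qD.ND ⊤)
    (hD3 : finrank K D = 3) {w d : D} (hw : w ≠ 0) (hw0 : qD.Q w = 0) (hd : qD.h d w = 0)
    (hd0 : qD.Q d ≠ 0) {e f : D} (he : qD.Q e = qD.Q d) (hf : qD.Q f = qD.Q d)
    (he0 : qD.Q e ≠ 0) (hf0 : qD.Q f ≠ 0) (hfe : qD.h f e = 2 * qD.Q d) :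
    ∃ σ σ' : IG qD, rE qD e he0 * rE qD f hf0 =
      σ * eich qD w d hw0 hd * σ⁻¹ * (σ' * eich qD w d hw0 hd * σ'⁻¹) := by
  by_cases hne : f = e
  · subst hne
    obtain ⟨σ, σ', h⟩ := oyp_one qD hw0 hd hd0
    exact ⟨σ, σ', by rw [rE_sq, ← h]⟩
  · have hp0 : qD.Q (f - e) = 0 := by
      rw [qD.Q_sub, hfe, he, hf]
      ring
    have hep : qD.h e (f - e) = 0 := by
      rw [map_sub, qD.h_self, he, qD.symm f e, hfe, sub_self]
    have hcf : e + (f - e) = f := by abel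
    have hf0' : qD.Q (e + (f - e)) ≠ 0 := by rwa [hcf]
    have h1 : qD.h ((qD.Q e)⁻¹ • e) (f - e) = 0 := by rw [qD.smul_left, hep, mul_zero]
    have h3 : qD.h ((2 * qD.Q e)⁻¹ • e) (f - e) = 0 := by rw [qD.smul_left, hep, mul_zero]
    have hsum : (2 * qD.Q e)⁻¹ • e + (2 * qD.Q e)⁻¹ • e = (qD.Q e)⁻¹ • e := by
      rw [← add_smul]
      congr 1
      field_simp
      norm_num
    have h4 : qD.h ((2 * qD.Q e)⁻¹ • e + (2 * qD.Q e)⁻¹ • e) (f - e) = 0 := by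
      rw [hsum]
      exact h1
    obtain ⟨σ, hσ⟩ := ei_conj h2 qD hD hD3 hw hw0 hd hd0 (sub_ne_zero.2 hne) hp0 hep he
      (inv_ne_zero (mul_ne_zero h2 he0)) h3
    refine ⟨σ, σ, ?_⟩
    rw [← hσ, eich_mul qD hp0 h3 h3 h4, eich_congr qD rfl hsum hp0 h4 hp0 h1,
      ← rE_eich qD he0 hp0 hep hf0' h1]
    congr 1
    exact rE_congr qD (fun x => by rw [hcf]) hf0 hf0'

/-- the generic case: `p` is singular, orthogonal to `e`, and not to `f` -/
private theorem oyp_gen [FiniteDimensional K D] (h2 : (2 : K) ≠ 0) (qD : QF K D) (hD : qD.ND ⊤)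
    (hD3 : finrank K D = 3) {w d : D} (hw : w ≠ 0) (hw0 : qD.Q w = 0) (hd : qD.h d w = 0)
    (hd0 : qD.Q d ≠ 0) {e f : D} (he : qD.Q e = qD.Q d) (hf : qD.Q f = qD.Q d)
    (he0 : qD.Q e ≠ 0) (hf0 : qD.Q f ≠ 0) (hfe : qD.h f e ≠ 2 * qD.Q d) {p : D}
    (hp0 : qD.Q p = 0) (hep : qD.h e p = 0) (hfp : qD.h f p ≠ 0) :
    ∃ σ σ' : IG qD, rE qD e he0 * rE qD f hf0 =
      σ * eich qD w d hw0 hd * σ⁻¹ * (σ' * eich qD w d hw0 hd * σ'⁻¹) := by
  set r : K := (2 * qD.Q d - qD.h f e) / qD.h f p with hr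
  have hr0 : r ≠ 0 := div_ne_zero (sub_ne_zero.2 hfe.symm) hfp
  have hrf : r * qD.h f p = 2 * qD.Q d - qD.h f e := div_mul_cancel₀ _ hfp
  have hpne : p ≠ 0 := by
    rintro rfl
    exact hfp (map_zero _)
  set c : D := e + r • p with hc
  have hQc : qD.Q c = qD.Q d := by
    rw [hc, qD.add, qD.smul, map_smul, hp0, hep, he]
    simp
  have hc0 : qD.Q c ≠ 0 := by rw [hQc]; exact hd0
  have hfc : qD.h f c = 2 * qD.Q d := by
    rw [hc, map_add, map_smul, smul_eq_mul, hrf]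
    ring
  have hce : c - e = r • p := by rw [hc]; abel
  obtain ⟨σ, hσ⟩ := oyp_refl h2 qD hD hD3 hw hw0 hd hd0 he he0 hc0
    (by
      intro h
      have h3 : r • p = 0 := by rw [← hce, h, sub_self]
      exact smul_ne_zero hr0 hpne h3)
    (by rw [hce, qD.smul, hp0, mul_zero]) (by rw [hce, map_smul, hep, smul_zero])
  obtain ⟨σ', hσ'⟩ := oyp_refl h2 qD hD hD3 hw hw0 hd hd0 hQc hc0 hf0
    (by
      intro h
      apply hfe
      have h3 : qD.h c e = qD.h e e := by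
        rw [qD.symm e c, hc, map_add, map_smul, hep, smul_zero, add_zero]
      rw [h, h3, qD.h_self, he])
    (by rw [qD.Q_sub, hf, hQc, hfc]; ring)
    (by rw [map_sub, qD.h_self, hQc, qD.symm f c, hfc, sub_self])
  refine ⟨σ, σ', ?_⟩
  rw [← hσ, ← hσ', mul_assoc, ← mul_assoc (rE qD c hc0), rE_sq, one_mul]

/-- The case `s = rE e * rE f` with `Q e = Q f = δ = Q d`.
There is a hyperbolic pair `p, p'` orthogonal to `e` : take an isometry which maps `d` to `± e` (`refl_move`), and the images of `w` and of a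
singular `w'` with `h w' w = 1`, `h w' d = 0` (`two_val`, see `eich_trans`).
If `h f e = 2 δ` or `- 2 δ`: changing `f` to `-f` we have `h f e = 2 δ`; `p1 = f - e` is singular and orthogonal to `e`.  If `p1 = 0`, `s = 1` is
`y * y⁻¹`, and `y⁻¹` is a conjugate of `y` (`rE_real` with `c = 1`).  Otherwise `s = eich p1 (δ⁻¹ • e) = eich p1 ((2 δ)⁻¹ • e) ^ 2`
(`rE_eich`, `eich_mul`), `ei_conj`.
Otherwise `h f p ≠ 0` or `h f p' ≠ 0` (if both vanish, `f` is a multiple of `e`, and `f = ± e`), say `h f p ≠ 0`.  Let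
`λ = (2 δ - h f e) / h f p ≠ 0`, `c = e + λ • p`: `Q c = δ`, `h f c = 2 δ`.  `f = c + p2`, `p2 = f - c` is singular and orthogonal
to `c`, `p2 ≠ 0` (otherwise `h f e = h c e = 2 δ`).  `s = (rE e * rE c) * (rE c * rE f)`, both factors are as in `rE_eich`, and
conjugates of `y` by `ei_conj`. -/
theorem pair_prod [FiniteDimensional K D] (h2 : (2 : K) ≠ 0) (qD : QF K D) (hD : qD.ND ⊤)
    (hD3 : finrank K D = 3) {w d : D} (hw : w ≠ 0) (hw0 : qD.Q w = 0) (hd : qD.h d w = 0)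
    (hd0 : qD.Q d ≠ 0) {e f : D} (he : qD.Q e = qD.Q d) (hf : qD.Q f = qD.Q d)
    (he0 : qD.Q e ≠ 0) (hf0 : qD.Q f ≠ 0) :
    ∃ σ σ' : IG qD, rE qD e he0 * rE qD f hf0 =
      σ * eich qD w d hw0 hd * σ⁻¹ * (σ' * eich qD w d hw0 hd * σ'⁻¹) := by
  by_cases h3 : qD.h f e = 2 * qD.Q d
  · exact oyp_two h2 qD hD hD3 hw hw0 hd hd0 he hf he0 hf0 h3
  by_cases h4 : qD.h f e = -(2 * qD.Q d)
  · have hf0' : qD.Q (-f) ≠ 0 := by rwa [qD.Q_neg]
    obtain ⟨σ, σ', h⟩ := oyp_two h2 qD hD hD3 hw hw0 hd hd0 he (f := -f) (by rw [qD.Q_neg, hf])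
      he0 hf0' (by rw [qD.neg_left, h4, neg_neg])
    refine ⟨σ, σ', ?_⟩
    rw [← h]
    congr 1
    have h5 : (-1 : K) ≠ 0 := neg_ne_zero.2 one_ne_zero
    have h6 : qD.Q ((-1 : K) • f) ≠ 0 := by rwa [neg_one_smul]
    rw [← rE_smul qD f hf0 h5 h6]
    exact rE_congr qD (fun x => by rw [neg_one_smul]) h6 hf0'
  obtain ⟨w', hw0', h1, h1'⟩ := oyp_partner qD hD hw hw0 hd hd0
  obtain ⟨P, hP⟩ := refl_move qD h2 hd0 he.symm
  -- the hyperbolic pair
  have hQp : qD.Q ((P : D ≃ₗ[K] D) w) = 0 := by rw [P.2 w, hw0]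
  have hQp' : qD.Q ((P : D ≃ₗ[K] D) w') = 0 := by rw [P.2 w', hw0']
  have hpp : qD.h ((P : D ≃ₗ[K] D) w') ((P : D ≃ₗ[K] D) w) = 1 := by rw [oyp_h, h1]
  have hex : ∀ x : D, qD.h ((P : D ≃ₗ[K] D) d) x = 0 → qD.h e x = 0 := by
    intro x hx
    rcases hP with hP | hP
    · rwa [hP] at hx
    · rw [hP, qD.neg_left] at hx
      exact neg_eq_zero.1 hx
  have hep : qD.h e ((P : D ≃ₗ[K] D) w) = 0 := hex _ (by rw [oyp_h, hd])
  have hep' : qD.h e ((P : D ≃ₗ[K] D) w') = 0 := hex _ (by rw [oyp_h, qD.symm w' d, h1'])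
  by_cases h5 : qD.h f ((P : D ≃ₗ[K] D) w) = 0
  · by_cases h6 : qD.h f ((P : D ≃ₗ[K] D) w') = 0
    · exfalso
      have hene : e ≠ 0 := by
        rintro rfl
        exact he0 qD.Q_zero
      obtain ⟨c, hc⟩ := oyp_mul qD hD3 hQp hQp' hpp hene
        (by rw [qD.symm e, hep]) (by rw [qD.symm e, hep']) (by rw [qD.symm f, h5])
        (by rw [qD.symm f, h6])
      have h7 : c ^ 2 * qD.Q d = qD.Q d := by
        rw [← he, ← qD.smul, ← hc, hf, he]
      have h8 : c ^ 2 = 1 := by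
        have h9 : (c ^ 2 - 1) * qD.Q d = 0 := by linear_combination h7
        exact sub_eq_zero.1 ((mul_eq_zero.1 h9).resolve_right hd0)
      have h9 : qD.h f e = c * (2 * qD.Q d) := by rw [hc, qD.smul_left, qD.h_self, he]
      rw [sq] at h8
      rcases mul_self_eq_one_iff.1 h8 with h10 | h10
      · exact h3 (by rw [h9, h10, one_mul])
      · exact h4 (by rw [h9, h10]; ring)
    · exact oyp_gen h2 qD hD hD3 hw hw0 hd hd0 he hf he0 hf0 h3 hQp' hep' h6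
  · exact oyp_gen h2 qD hD hD3 hw hw0 hd hd0 he hf he0 hf0 h3 hQp hep h5

/-- `rk ⊤ s` is `0` or `2` (at most 3, even).  `0`: `s = 1 = y * y⁻¹` (`rE_real`).  `2`: `pick_e`, `two_refl`: `s = rE e * rE f`, `Q e = Q d`;
`Q e Q f = t * t` by `hsq`; replace `f` by `(t / Q f) • f` (`rE_smul`), of norm `Q e`; `pair_prod`. -/
theorem mid_prod [Finite K] [FiniteDimensional K D] (h2 : (2 : K) ≠ 0) (qD : QF K D) (hD : qD.ND ⊤)
    (hD3 : finrank K D = 3) {w d : D} (hw : w ≠ 0) (hw0 : qD.Q w = 0) (hd : qD.h d w = 0)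
    (hd0 : qD.Q d ≠ 0) {s : IG qD} (hs : rk ⊤ ((s : D ≃ₗ[K] D) : D →ₗ[K] D) % 2 = 0)
    (hsq : ∀ (e f : D) (he : qD.Q e ≠ 0) (hf : qD.Q f ≠ 0), s = rE qD e he * rE qD f hf →
      IsSquare (qD.Q e * qD.Q f)) :
    ∃ σ σ' : IG qD, s = σ * eich qD w d hw0 hd * σ⁻¹ * (σ' * eich qD w d hw0 hd * σ'⁻¹) := by
  have hle : rk ⊤ ((s : D ≃ₗ[K] D) : D →ₗ[K] D) ≤ 3 := by
    have h3 := rk_le (U := (⊤ : Submodule K D)) (G := ((s : D ≃ₗ[K] D) : D →ₗ[K] D))
    rwa [finrank_top, hD3] at h3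
  have hcases : rk ⊤ ((s : D ≃ₗ[K] D) : D →ₗ[K] D) = 0 ∨
      rk ⊤ ((s : D ≃ₗ[K] D) : D →ₗ[K] D) = 2 := by omega
  rcases hcases with h0 | h0
  · have hs1 : s = 1 := by
      rw [rk, Submodule.finrank_eq_zero] at h0
      apply Subtype.ext
      ext x
      have h3 : (s : D ≃ₗ[K] D) x - x ∈
          (⊤ : Submodule K D).map (((s : D ≃ₗ[K] D) : D →ₗ[K] D) - LinearMap.id) :=
        ⟨x, trivial, rfl⟩
      rw [h0, Submodule.mem_bot] at h3
      exact sub_eq_zero.1 h3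
    rw [hs1]
    exact oyp_one qD hw0 hd hd0
  · obtain ⟨x, hx⟩ := pick_e h2 qD hD hD3 hw hw0 hd hd0 h0
    have he0 : qD.Q ((s : D ≃ₗ[K] D) x - x) ≠ 0 := by rw [hx]; exact hd0
    obtain ⟨f, hf0, hsf⟩ := two_refl qD hD hD3 h0 he0
    obtain ⟨t, ht⟩ := hsq _ f he0 hf0 hsf
    have ht0 : t ≠ 0 := by
      rintro rfl
      rw [mul_zero] at ht
      exact mul_ne_zero he0 hf0 ht
    have hr0 : t / qD.Q f ≠ 0 := div_ne_zero ht0 hf0
    have hQ1 : qD.Q ((t / qD.Q f) • f) = qD.Q d := by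
      rw [qD.smul, ← hx, div_pow]
      field_simp
      rw [sq, ← ht]
      ring
    have hf0' : qD.Q ((t / qD.Q f) • f) ≠ 0 := by rw [hQ1]; exact hd0
    obtain ⟨σ, σ', h⟩ := pair_prod h2 qD hD hD3 hw hw0 hd hd0 hx hQ1 he0 hf0'
    refine ⟨σ, σ', ?_⟩
    rw [← h, rE_smul qD f hf0 hr0 hf0']
    exact hsf

end ThO
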