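import Pool.Agent.ThQ.Seed

/-! # Module OSeed: the matrix `B` -/

namespace ThO
open Matrix Polynomial Module ThQ

variable {K : Type*} [Field K]

private theorem OSeed_arith {q k i : ℕ} (hq : 3 ≤ q) (hodd : ¬ Even q) (hk : 3 ≤ k) (hi0 : 0 < i)
    (hi : i < k) : ¬ q ^ k - 1 ∣ 4 * (q ^ i - 1) := by
  intro hdv
  obtain ⟨P, hP⟩ : ∃ P, P = q ^ (k - 1) := ⟨_, rfl⟩
  have hPk : q ^ k = P * q := by
    rw [hP, ← pow_succ]
    congr 1
    omega
  have hP9 : 9 ≤ P := by
    calc 9 = 3 ^ 2 := by norm_num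
      _ ≤ q ^ 2 := Nat.pow_le_pow_left hq 2
      _ ≤ q ^ (k - 1) := Nat.pow_le_pow_right (by omega) (by omega)
      _ = P := hP.symm
  have hle : q ^ i ≤ P := by
    rw [hP]
    exact Nat.pow_le_pow_right (by omega) (by omega)
  have h2 : 2 ≤ q ^ i := by
    calc 2 ≤ q := by omega
      _ = q ^ 1 := (pow_one q).symm
      _ ≤ q ^ i := Nat.pow_le_pow_right (by omega) hi0
  have h1 := Nat.le_of_dvd (by omega) hdv
  rcases Nat.lt_or_ge q 5 with h | h
  · have hq3 : q = 3 := by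
      rcases Nat.lt_or_ge q 4 with h' | h'
      · omega
      · exfalso
        apply hodd
        have h4 : q = 4 := by omega
        rw [h4]
        exact ⟨2, rfl⟩
    rw [hq3] at hPk hle hP hdv h1 h2
    rcases Nat.lt_or_ge i (k - 1) with h' | h'
    · obtain ⟨R, hR⟩ : ∃ R, R = 3 ^ (k - 2) := ⟨_, rfl⟩
      have hRP : P = R * 3 := by
        rw [hP, hR, ← pow_succ]
        congr 1
        omega
      have hle' : 3 ^ i ≤ R := by
        rw [hR]
        exact Nat.pow_le_pow_right (by omega) (by omega)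
      rw [hPk, hRP] at h1
      omega
    · have hik : i = k - 1 := by omega
      rw [hik, ← hP, hPk] at hdv
      obtain ⟨c, hc⟩ := hdv
      rcases Nat.lt_or_ge c 2 with h'' | h''
      · rcases Nat.lt_or_ge c 1 with h3 | h3
        · have h4 : c = 0 := by omega
          rw [h4, mul_zero] at hc
          omega
        · have h4 : c = 1 := by omega
          rw [h4, mul_one] at hc
          omega
      · have h5 : (P * 3 - 1) * 2 ≤ (P * 3 - 1) * c := Nat.mul_le_mul_left _ h''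
        omega
  · have h3 : P * 5 ≤ P * q := Nat.mul_le_mul_left _ h
    rw [hPk] at h1
    omega

private theorem OSeed_even {R : Type*} [CommRing R] {A : Type*} [CommRing A] [Algebra R A]
    (f : R[X]) (h : ∀ i, Odd i → f.coeff i = 0) (x : A) : aeval (-x) f = aeval x f := by
  rw [aeval_eq_sum_range, aeval_eq_sum_range]
  refine Finset.sum_congr rfl fun i _ => ?_
  rcases Nat.even_or_odd i with he | ho
  · rw [he.neg_pow]
  · rw [h i ho, zero_smul, zero_smul]

private theorem OSeed_core (K : Type*) [Field K] [Finite K] (h2 : (2 : K) ≠ 0) {k : ℕ} (hk : 3 ≤ k)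
    (E : Type) [Field E] [Algebra K E] [Finite E] (hE : finrank K E = k) :
    ∃ (f : K[X]) (γ : E), f.Monic ∧ Irreducible f ∧ f.natDegree = k ∧ finrank K E = k ∧
      aeval (γ ^ 2) f = 0 ∧ aeval (γ ^ 2)⁻¹ f ≠ 0 ∧ γ ≠ 0 ∧ ¬ IsSquare (Algebra.norm K γ) ∧
      (Even k → ∃ i, i < k ∧ Odd i ∧ f.coeff i ≠ 0) := by
  have : Fintype K := Fintype.ofFinite K
  have : Fintype E := Fintype.ofFinite E
  have : Module.Finite K E := Module.Finite.of_finite
  obtain ⟨q, hq⟩ : ∃ q, q = Fintype.card K := ⟨_, rfl⟩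
  have hq2 : 2 ≤ q := by
    rw [hq]
    exact Fintype.one_lt_card
  have hchar : ringChar K ≠ 2 := by
    intro h
    apply h2
    have h3 := ringChar.Nat.cast_ringChar (R := K)
    rw [h, Nat.cast_ofNat] at h3
    exact h3
  have hqodd : ¬ Even q := by
    intro he
    have h3 : Fintype.card K % 2 = 1 := FiniteField.odd_card_of_char_ne_two hchar
    rw [← hq] at h3
    obtain ⟨m, hm⟩ := he
    omega
  have hq3 : 3 ≤ q := by
    rcases Nat.lt_or_ge q 3 with h | h
    · exfalso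
      apply hqodd
      have : q = 2 := by omega
      rw [this]
      exact even_two
    · exact h
  have hcE : Fintype.card E = q ^ k := by
    rw [Module.card_eq_pow_finrank (K := K) (V := E), ← hq, hE]
  obtain ⟨g, hg⟩ := IsCyclic.exists_generator (α := Eˣ)
  have hog : orderOf g = q ^ k - 1 := by
    rw [orderOf_eq_card_of_forall_mem_zpowers hg, Nat.card_units, Nat.card_eq_fintype_card, hcE]
  have hpos : 0 < q ^ k := pow_pos (by omega) _
  obtain ⟨N, hN, hN2⟩ : ∃ N, orderOf (g ^ 2) = N ∧ 2 * N = q ^ k - 1 := by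
    refine ⟨_, rfl, ?_⟩
    rw [orderOf_pow' g two_ne_zero, hog]
    have ho : Odd q := Nat.not_even_iff_odd.1 hqodd
    have h1 : Odd (q ^ k) := ho.pow
    have h2 : 2 ∣ q ^ k - 1 := by
      obtain ⟨m, hm⟩ := h1
      exact ⟨m, by omega⟩
    rw [Nat.gcd_eq_right h2, Nat.mul_div_cancel' h2]
  obtain ⟨hd, hi⟩ := seed_arith hq2 hk (Or.inr ⟨hqodd, hN2⟩)
  obtain ⟨γ, hγ⟩ : ∃ γ : E, γ = (g : E) := ⟨_, rfl⟩
  have hγ0 : γ ≠ 0 := by rw [hγ]; exact Units.ne_zero _
  have hβ0 : γ ^ 2 ≠ 0 := pow_ne_zero _ hγ0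
  obtain ⟨β, hβ⟩ : ∃ β : E, β = γ ^ 2 := ⟨_, rfl⟩
  rw [← hβ] at hβ0
  have hβN : orderOf β = N := by
    rw [hβ, hγ, ← Units.val_pow_eq_pow_val, orderOf_units, hN]
  have hint : IsIntegral K β := Algebra.IsIntegral.isIntegral β
  obtain ⟨f, hf⟩ : ∃ f, f = minpoly K β := ⟨_, rfl⟩
  have hfm : f.Monic := by rw [hf]; exact minpoly.monic hint
  have hfi : Irreducible f := by rw [hf]; exact minpoly.irreducible hint
  have hfr : aeval β f = 0 := by rw [hf]; exact minpoly.aeval K β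
  have hdeg : f.natDegree = k := by
    have hle : f.natDegree ≤ k := by rw [hf, ← hE]; exact minpoly.natDegree_le β
    have hfin : finrank K (IntermediateField.adjoin K {β}) = f.natDegree := by
      rw [hf]; exact IntermediateField.adjoin.finrank hint
    by_contra hne
    refine hd f.natDegree ?_ (lt_of_le_of_ne hle hne) ?_
    · rw [hf]; exact minpoly.natDegree_pos hint
    · have : Fintype (IntermediateField.adjoin K {β}) := Fintype.ofFinite _
      have hc : Fintype.card (IntermediateField.adjoin K {β}) = q ^ f.natDegree := by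
        rw [Module.card_eq_pow_finrank (K := K), ← hq, hfin]
      have h1 := FiniteField.pow_card (⟨β, IntermediateField.mem_adjoin_simple_self K β⟩ :
        IntermediateField.adjoin K {β})
      rw [hc] at h1
      have h2 : β ^ (q ^ f.natDegree) = β := congrArg Subtype.val h1
      have hpos : 0 < q ^ f.natDegree := pow_pos (by omega) _
      rw [← hβN, orderOf_dvd_iff_pow_eq_one]
      apply mul_left_cancel₀ hβ0
      rw [← pow_succ', Nat.sub_add_cancel hpos, h2, mul_one]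
  have hconj : ∀ x : E, aeval x f = 0 → ∃ i, i < k ∧ x = β ^ (q ^ i) := by
    intro x hx
    have h1 : minpoly K x = minpoly K β := by
      rw [← hf]
      exact (minpoly.eq_of_irreducible_of_monic hfi hx hfm).symm
    obtain ⟨σ, hσ'⟩ := isConjRoot_iff_exists_algEquiv.1
      ((isConjRoot_def (R := K) (x := x) (y := β)).2 h1)
    obtain ⟨⟨i, hik⟩, hi'⟩ := (FiniteField.bijective_frobeniusAlgEquivOfAlgebraic_pow K E).2 σ
    rw [hE] at hik
    refine ⟨i, hik, ?_⟩
    rw [← hσ', ← hi']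
    show (FiniteField.frobeniusAlgEquivOfAlgebraic K E ^ i) β = _
    rw [AlgEquiv.coe_pow, FiniteField.coe_frobeniusAlgEquivOfAlgebraic_iterate, ← hq]
  refine ⟨f, γ, hfm, hfi, hdeg, hE, by rw [← hβ]; exact hfr, fun h0 => ?_, hγ0, ?_, fun hke => ?_⟩
  · rw [← hβ] at h0
    obtain ⟨i, hik, h3⟩ := hconj _ h0
    apply hi i hik
    rw [← hβN, orderOf_dvd_iff_pow_eq_one, pow_succ, ← h3, inv_mul_cancel₀ hβ0]
  · rintro ⟨s, hs⟩
    obtain ⟨c, hc⟩ := FiniteField.exists_nonsquare hchar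
    obtain ⟨x, hx⟩ := FiniteField.norm_surjective K E c
    have hx0 : x ≠ 0 := by
      intro h
      apply hc
      rw [← hx, h, Algebra.norm_zero]
      exact ⟨0, (mul_zero 0).symm⟩
    obtain ⟨n, hn⟩ : ∃ n : ℕ, g ^ n = Units.mk0 x hx0 :=
      (mem_powers_iff_mem_zpowers.2 (hg (Units.mk0 x hx0)))
    have hn' : γ ^ n = x := by
      rw [hγ, ← Units.val_pow_eq_pow_val, hn, Units.val_mk0]
    apply hc
    refine ⟨s ^ n, ?_⟩
    rw [← hx, ← hn', map_pow, hs, mul_pow]
  · by_contra hall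
    have hall' : ∀ i, Odd i → f.coeff i = 0 := by
      intro i hi1
      rcases Nat.lt_trichotomy i k with h | h | h
      · by_contra h0
        exact hall ⟨i, h, hi1, h0⟩
      · exfalso
        rw [h] at hi1
        exact Nat.not_even_iff_odd.2 hi1 hke
      · exact coeff_eq_zero_of_natDegree_lt (by rw [hdeg]; exact h)
    obtain ⟨i, hik, h3⟩ := hconj (-β) (by rw [OSeed_even f hall', hfr])
    have hi0 : 0 < i := by
      rcases Nat.eq_zero_or_pos i with h | h
      · exfalso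
        rw [h, pow_zero, pow_one] at h3
        have h4 : (2 : E) * β = 0 := by
          rw [two_mul]
          nth_rewrite 1 [← h3]
          exact neg_add_cancel β
        rcases mul_eq_zero.1 h4 with h5 | h5
        · apply h2
          apply (algebraMap K E).injective
          rw [map_ofNat, map_zero]
          exact h5
        · exact hβ0 h5
      · exact h
    apply OSeed_arith hq3 hqodd hk hi0 hik
    rw [← hN2]
    have h5 : N ∣ 2 * (q ^ i - 1) := by
      have hpi : 0 < q ^ i := pow_pos (by omega) _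
      rw [← hβN, orderOf_dvd_iff_pow_eq_one]
      apply mul_left_cancel₀ (pow_ne_zero 2 hβ0)
      rw [← pow_add, mul_one]
      have h6 : 2 + 2 * (q ^ i - 1) = q ^ i * 2 := by omega
      rw [h6, pow_mul, ← h3, neg_sq]
    have h7 : 4 * (q ^ i - 1) = 2 * (2 * (q ^ i - 1)) := by ring
    rw [h7]
    exact Nat.mul_dvd_mul_left 2 h5

private theorem OSeed_field (K : Type*) [Field K] [Finite K] (h2 : (2 : K) ≠ 0) {k : ℕ} (hk : 3 ≤ k) :
    ∃ (f : K[X]) (E : Type) (_ : Field E) (_ : Algebra K E) (_ : Finite E) (γ : E),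
      f.Monic ∧ Irreducible f ∧ f.natDegree = k ∧ finrank K E = k ∧ aeval (γ ^ 2) f = 0 ∧
      aeval (γ ^ 2)⁻¹ f ≠ 0 ∧ γ ≠ 0 ∧ ¬ IsSquare (Algebra.norm K γ) ∧
      (Even k → ∃ i, i < k ∧ Odd i ∧ f.coeff i ≠ 0) := by
  obtain ⟨p, hp⟩ := CharP.exists K
  have hpp : Fact p.Prime := ⟨CharP.char_is_prime K p⟩
  have : NeZero k := ⟨by omega⟩
  obtain ⟨f, γ, h⟩ := OSeed_core K h2 hk (FiniteField.Extension K p k)
    (FiniteField.finrank_extension K p k)
  exact ⟨f, FiniteField.Extension K p k, inferInstance, inferInstance, inferInstance, γ, h⟩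

private theorem OSeed_tr {n : ℕ} (M : Matrix (Fin n) (Fin n) K) (p : K[X]) :
    aeval Mᵀ p = (aeval M p)ᵀ := by
  induction p using Polynomial.induction_on' with
  | add p q hp hq => rw [map_add, map_add, hp, hq, transpose_add]
  | monomial i a =>
    rw [aeval_monomial, aeval_monomial, transpose_mul, transpose_pow,
      Algebra.algebraMap_eq_smul_one, transpose_smul, transpose_one, smul_mul_assoc, one_mul,
      mul_smul_comm, mul_one]

private theorem OSeed_int {n : ℕ} {M N Z : Matrix (Fin n) (Fin n) K} (h : Z * M = N * Z) (p : K[X]) :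
    Z * aeval M p = aeval N p * Z := by
  have hpow : ∀ i : ℕ, Z * M ^ i = N ^ i * Z := by
    intro i
    induction i with
    | zero => rw [pow_zero, pow_zero, mul_one, one_mul]
    | succ i ih => rw [pow_succ, ← mul_assoc, ih, mul_assoc, h, ← mul_assoc, pow_succ]
  induction p using Polynomial.induction_on' with
  | add p q hp hq => rw [map_add, map_add, mul_add, add_mul, hp, hq]
  | monomial i a =>
    rw [aeval_monomial, aeval_monomial, Algebra.algebraMap_eq_smul_one, smul_mul_assoc, one_mul,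
      smul_mul_assoc, one_mul, mul_smul_comm, hpow, smul_mul_assoc]

/-- As `ThQ.seed_ex` (copy the proof in `Pool/Agent/ThQ/Seed.lean`), with two more properties.  `γ` is a generator of `Eˣ` there, `C` the matrix of the
multiplication by `γ`, `B = C * C`, `f` the minimal polynomial of `β = γ ^ 2`.
(1) `det C = Algebra.norm K γ` generates `Kˣ` (the norm of finite fields is onto: `FiniteField.unitsMap_norm_surjective` or similar), and
`Kˣ` has even order as `2 ≠ 0`, so it is not a square.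
(2) Let `k` be even and suppose that all `f.coeff i`, `i` odd, vanish.  Then `f (-β) = f β = 0`, so `-β = β ^ (q ^ i)` with `i < k`, and `i ≠ 0` as
`2 ≠ 0`.  So `β ^ (2 (q ^ i - 1)) = 1`, the order of `β` is `(q ^ k - 1) / 2`, so `q ^ k - 1` divides `4 (q ^ i - 1)`,
`0 < i < k`.  Impossible: for `q ≥ 5` as `4 (q ^ (k - 1) - 1) < q ^ k - 1`; for `q = 3`: `4 (3 ^ i - 1) < 3 ^ k - 1` for `i ≤ k - 2`, and
`3 ^ k - 1 < 4 (3 ^ (k - 1) - 1) < 2 (3 ^ k - 1)` for `k ≥ 3`. -/
theorem seed_odd [Finite K] (h2 : (2 : K) ≠ 0) {k : ℕ} (hk : 3 ≤ k) :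
    ∃ (f : K[X]) (B C : (Matrix (Fin k) (Fin k) K)ˣ),
    f.Monic ∧ Irreducible f ∧ f.natDegree = k ∧ f.coeff 0 ≠ 0 ∧
      (B : Matrix (Fin k) (Fin k) K) = ThU.comp f k ∧ SeedQ B ∧ C * C = B ∧
      ¬ IsSquare (C : Matrix (Fin k) (Fin k) K).det ∧
      (Even k → ∃ i, i < k ∧ Odd i ∧ f.coeff i ≠ 0) := by
  obtain ⟨f, E, _, _, _, γ, hfm, hfi, hdeg, hE, hβ, hβi, hγ0, hsq, hev⟩ := OSeed_field K h2 hk
  have h0k : 0 < k := by omega
  obtain ⟨b, -, hB, hp, -, hsurj⟩ := ThU.comp_mul hfm hfi hdeg hE h0k hβ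
  have hβ0 : γ ^ 2 ≠ 0 := pow_ne_zero _ hγ0
  have hLinv : ∀ x : E, x ≠ 0 → Algebra.leftMulMatrix b x * Algebra.leftMulMatrix b x⁻¹ = 1 := by
    intro x hx
    rw [← map_mul, mul_inv_cancel₀ hx, map_one]
  have hLinv' : ∀ x : E, x ≠ 0 → Algebra.leftMulMatrix b x⁻¹ * Algebra.leftMulMatrix b x = 1 := by
    intro x hx
    rw [← map_mul, inv_mul_cancel₀ hx, map_one]
  obtain ⟨U, hU⟩ : ∃ U : ∀ x : E, x ≠ 0 → (Matrix (Fin k) (Fin k) K)ˣ,
      ∀ x hx, (U x hx : Matrix (Fin k) (Fin k) K) = Algebra.leftMulMatrix b x :=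
    ⟨fun x hx => ⟨Algebra.leftMulMatrix b x, Algebra.leftMulMatrix b x⁻¹, hLinv x hx, hLinv' x hx⟩,
      fun x hx => rfl⟩
  have hne1 : γ ^ 2 - 1 ≠ 0 := by
    intro h
    have h1 : γ ^ 2 = 1 := sub_eq_zero.1 h
    rw [h1, inv_one] at hβi
    rw [h1] at hβ
    exact hβi hβ
  have hCB : U γ hγ0 * U γ hγ0 = U (γ ^ 2) hβ0 := by
    apply Units.ext
    rw [Units.val_mul, hU, hU, ← map_mul, ← pow_two]
  refine ⟨f, U (γ ^ 2) hβ0, U γ hγ0, hfm, hfi, hdeg, ?_, by rw [hU, hB], ⟨?_, ?_, ?_⟩, hCB, ?_, hev⟩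
  · intro h0
    have h1 : X ∣ f := Polynomial.X_dvd_iff.2 h0
    have h2 := (Polynomial.irreducible_X.dvd_irreducible_iff_associated hfi).1 h1
    have h3 := Polynomial.natDegree_eq_of_degree_eq (Polynomial.degree_eq_degree_of_associated h2)
    rw [natDegree_X, hdeg] at h3
    omega
  · -- the root
    obtain ⟨d, hd, hdB⟩ := ThU.sim_irr hfm hfi hdeg h0k
      (M := Algebra.leftMulMatrix b (γ ^ 2)) (N := (Algebra.leftMulMatrix b (γ ^ 2))ᵀ)
      (by rw [aeval_algHom_apply, hβ, map_zero])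
      (by rw [OSeed_tr, aeval_algHom_apply, hβ, map_zero, transpose_zero])
    obtain ⟨du, hdu⟩ := (Matrix.isUnit_iff_isUnit_det d).2 hd
    refine ⟨U γ hγ0, du, hCB, ?_⟩
    rw [hU, hdu]
    obtain ⟨p, hpγ⟩ := hsurj γ
    rw [← hpγ, ← aeval_algHom_apply, OSeed_int hdB, OSeed_tr]
  · -- `n1`
    intro v hv
    rw [hU] at hv
    have h1 : Algebra.leftMulMatrix b (γ ^ 2 - 1) *ᵥ v = 0 := by
      rw [map_sub, map_one, sub_mulVec, one_mulVec, hv, sub_self]
    have h2 : v = (Algebra.leftMulMatrix b (γ ^ 2 - 1)⁻¹ * Algebra.leftMulMatrix b (γ ^ 2 - 1)) *ᵥ v := by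
      rw [hLinv' _ hne1, one_mulVec]
    rw [h2, ← mulVec_mulVec, h1, mulVec_zero]
  · -- `syl`
    intro Z hZ
    rw [hU] at hZ
    have h1 : Z * Algebra.leftMulMatrix b (γ ^ 2) =
        (Algebra.leftMulMatrix b (γ ^ 2)⁻¹)ᵀ * Z := by
      conv_rhs => rw [← hZ]
      rw [mul_assoc, ← mul_assoc ((Algebra.leftMulMatrix b (γ ^ 2)⁻¹)ᵀ), ← transpose_mul,
        hLinv _ hβ0, transpose_one, one_mul]
    have h2 := OSeed_int h1 f
    rw [aeval_algHom_apply, hβ, map_zero, mul_zero, OSeed_tr, aeval_algHom_apply] at h2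
    have h3 : Z = (Algebra.leftMulMatrix b (aeval (γ ^ 2)⁻¹ f)⁻¹)ᵀ *
        ((Algebra.leftMulMatrix b (aeval (γ ^ 2)⁻¹ f))ᵀ * Z) := by
      rw [← mul_assoc, ← transpose_mul, hLinv _ hβi, transpose_one, one_mul]
    rw [h3, ← h2, mul_zero]
  · rw [hU, ← Algebra.norm_eq_matrix_det b]
    exact hsq

end ThO
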