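import Pool.Agent.ThO.OAlt
import Pool.Agent.ThO.OAdj
import Pool.Agent.ThO.OSeed
import Pool.Agent.ThU.OPole
import Pool.Agent.ThQ.Orth

/-! # Module OMain -/

namespace ThO
open Matrix Polynomial Module ThQ

variable {K D : Type*} [Field K] [AddCommGroup D] [Module K D] {k : ℕ}

/-- the block of `B`-products is a commutator -/
theorem fac_comm {f : K[X]} {B u : (Matrix (Fin k) (Fin k) K)ˣ}
    (hf : (B : Matrix (Fin k) (Fin k) K) = ThU.comp f k)
    (h : Fac f k (u : Matrix (Fin k) (Fin k) K)) : u ∈ commutator ((Matrix (Fin k) (Fin k) K)ˣ) := by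
  obtain ⟨S, T, hS, hT, h⟩ := h
  set S' : (Matrix (Fin k) (Fin k) K)ˣ := S.nonsingInvUnit hS
  set T' : (Matrix (Fin k) (Fin k) K)ˣ := T.nonsingInvUnit hT
  have hS' : (S' : Matrix (Fin k) (Fin k) K) = S := rfl
  have hT' : (T' : Matrix (Fin k) (Fin k) K) = T := rfl
  have e1 : S' * u * S'⁻¹ = T' * B * T'⁻¹ * B⁻¹ := by
    apply Units.ext
    rw [Units.val_mul, Units.val_mul, Units.val_mul, Units.val_mul, Units.val_mul,
      Matrix.coe_units_inv, Matrix.coe_units_inv, Matrix.coe_units_inv, hS', hT', h, hf]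
  have e2 : u = S'⁻¹ * (T' * B * T'⁻¹ * B⁻¹) * (S'⁻¹)⁻¹ := by
    rw [← e1]
    group
  rw [e2]
  have hn : (commutator ((Matrix (Fin k) (Fin k) K)ˣ)).Normal := inferInstance
  refine hn.conj_mem _ ?_ _
  exact Subgroup.commutator_mem_commutator (Subgroup.mem_top T') (Subgroup.mem_top B)

/-- The main theorem for `V0` with `D` of dimension 3. -/
theorem main_V0O [Finite K] [Finite D] (h2 : (2 : K) ≠ 0) (hk : 3 ≤ k) (qD : QF K D)
    (hD : qD.ND ⊤) (hD3 : finrank K D = 3) : TP (IG (q0 qD k)) := by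
  have : FiniteDimensional K D := Module.Finite.of_finite
  obtain ⟨f, B, C, hfm, hfi, hfn, hf0, hfB, hB, hC, hCs, hco⟩ := seed_odd (K := K) h2 hk
  obtain ⟨w, d, hw, hw0, hd, hd0⟩ := wd_ex qD hD hD3
  set y : IG qD := eich qD w d hw0 hd with hy
  have hyd : YD qD y := yd_eich h2 qD hw0 hd hd0
  have hCu : IsUnit (ThU.comp f k).det := by
    rw [← hfB]
    exact (Matrix.isUnit_iff_isUnit_det _).1 B.isUnit
  have hx := comm_XX qD hB hyd
  refine ⟨XX qD B y, hx, fun g hg => ?_⟩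
  have hV : (q0 qD k).ND ⊤ := q0_ND qD hD
  have hfr : finrank K (V0 K D k) = 2 * (k + 1) + 1 := by rw [V0_finrank, hD3]; ring
  have hfrT : finrank K (⊤ : Submodule K (V0 K D k)) = 2 * k + 3 := by
    rw [finrank_top, hfr]
    ring
  have hGi := IG_iso (q0 qD k) g
  have hn : (commutator (IG (q0 qD k))).Normal := inferInstance
  suffices key : ∃ a : Matrix (Fin k) (Fin k) K,
      SysB (q0 qD k) ⊤ ((g : V0 K D k ≃ₗ[K] V0 K D k) : V0 K D k →ₗ[K] V0 K D k) a ∧ Fac f k a by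
    obtain ⟨a, ha, hfa⟩ := key
    obtain ⟨P, s, hP⟩ := std_of_sysB qD hD g ha (hfa.unit hCu)
    obtain ⟨l, hl, v, hv, u, hu, hg'⟩ := ldu qD hP (hfa.unit hCu)
    have hlc := low_comm qD hB hl
    have hvc := up_comm qD hB hv
    rw [← hu] at hfa
    have huc : mL qD k u ∈ commutator (IG (q0 qD k)) := comm_map (mL qD k) (fac_comm hfB hfa)
    have hgc : P⁻¹ * g * P ∈ commutator (IG (q0 qD k)) := by
      have h := hn.conj_mem g hg P⁻¹
      rwa [inv_inv] at h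
    have hsc : oD qD k s ∈ commutator (IG (q0 qD k)) := by
      have e : oD qD k s = (l * mL qD k u)⁻¹ * (P⁻¹ * g * P) * v⁻¹ := by
        rw [hg']
        group
      rw [e]
      exact Subgroup.mul_mem _ (Subgroup.mul_mem _ (Subgroup.inv_mem _
        (Subgroup.mul_mem _ hlc huc)) hgc) (Subgroup.inv_mem _ hvc)
    obtain ⟨σ, σ', hs⟩ := mid_prod h2 qD hD hD3 hw hw0 hd hd0 (oD_even h2 qD hD hD3 hsc)
      (fun e f he hf h => by
        rw [h] at hsc
        exact sgn_pair h2 (by omega) qD he hf hsc)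
    obtain ⟨S, T, hS, hT, hST⟩ := hfa
    rw [← hfB] at hST
    obtain ⟨r, r', hr⟩ := main_XX qD hB hyd hl hv hS hT hST hs
    rw [hr] at hg'
    obtain ⟨r0, hr0, e0⟩ := adj_XX h2 hk qD hD hD3 hB hC hCs y (P * r)
    obtain ⟨r1, hr1, e1⟩ := adj_XX h2 hk qD hD hD3 hB hC hCs y (P * r')
    refine ⟨1, Subgroup.one_mem _, fun y => by rw [one_mul, mul_one], r0, hr0, r1, hr1, ?_⟩
    rw [one_mul, ← e0, ← e1]
    have e : g = P * (P⁻¹ * g * P) * P⁻¹ := by group
    rw [e, hg']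
    group
  rcases alt_odd (q0 qD k) h2 hk hV hfrT hGi (comm_even_odd (q0 qD k) h2 hV hfr hg) with
    ⟨a, ha, hau, hap, hne⟩ | ha | ⟨hev, c, hc, i0, j0, hij, ha⟩
  · exact ⟨a, ha, ThU.fact hfm hfn hf0 a hau hap hne⟩
  · exact ⟨1, ha, fac_one hCu⟩
  · obtain ⟨i, hik, hio, hfi⟩ := hco hev
    refine ⟨_, ha, ?_⟩
    exact ThU.pole hfm hfn hf0 (ζ := -1) hev.neg_one_pow ⟨i, hik, hfi, by
      rw [hio.neg_one_pow]
      intro h
      exact h2 (by linear_combination -h)⟩ hc hij (fun i j => rfl)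

variable {V : Type*} [AddCommGroup V] [Module K V]

/-- The main theorem for quadratic forms in odd dimension. -/
theorem main_QO [Finite K] [Finite V] (h2 : (2 : K) ≠ 0) (q : QF K V) (hq : q.ND ⊤)
    {m : ℕ} (hm : 4 ≤ m) (hV : finrank K V = 2 * m + 1) : TP (IG q) := by
  have : FiniteDimensional K V := Module.Finite.of_finite
  obtain ⟨k, rfl⟩ : ∃ k, m = k + 1 := ⟨m - 1, by omega⟩
  have hf : finrank K (⊤ : Submodule K V) = 2 * k + 3 := by rw [finrank_top, hV]; ring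
  obtain ⟨w, w', h⟩ := hyp_ex3 q k ⊤ hq hf
  obtain ⟨Φ, hΦ⟩ := to_V0 q h
  have hD : (q.restr (q.Dp ⊤ w w')).ND ⊤ := by
    intro x _ hx
    have h1 := Dp_ND q hq h x.1 x.2 (fun y hy => hx ⟨y, hy⟩ trivial)
    exact Subtype.ext h1
  have hD3 : finrank K (q.Dp ⊤ w w') = 3 := by
    have := Dp_finrank q h
    rw [hf, Fintype.card_fin] at this
    omega
  have h1 : TP (IG (q0 (q.restr (q.Dp ⊤ w w')) k)) :=
    main_V0O h2 (by omega) (q.restr (q.Dp ⊤ w w')) hD hD3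
  exact h1.transport (IG.congr Φ hΦ)

end ThO
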