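import Pool.Agent.ThQ.Sym
import Pool.Agent.ThQ.Hyps
import Pool.Agent.ThQ.RkA

/-!
# Thompson's conjecture for odd dimensional orthogonal groups: definitions

The base is the library `ThQ` (quadratic forms `QF`).  Here the characteristic is not two (hypothesis
`h2 : (2 : K) ≠ 0`), and the spaces have odd dimension.  Only the block of an isometry in a hyperbolic system is used, the
middle block is arbitrary.  The proofs of the modules are sketched in the docstrings of the statements.
-/

namespace ThO
open Matrix Module ThQ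

variable {K V : Type*} [Field K] [AddCommGroup V] [Module K V] (q : QF K V)

/-- `G` has the block `a` in a hyperbolic system of `U` -/
def SysB (U : Submodule K V) (G : V →ₗ[K] V) {ι : Type*} [DecidableEq ι] (a : Matrix ι ι K) : Prop :=
  ∃ w w' : ι → V, q.Hyp U w w' ∧ ∀ i j, q.h (w' i) (G (w j)) = a i j

/-- `G` has a triangular block with the diagonal `l` -/
def TriB (U : Submodule K V) (G : V →ₗ[K] V) (n : ℕ) (l : Fin n → K) : Prop :=
  ∃ w w' : Fin n → V, q.Hyp U w w' ∧ (∀ i j, j < i → q.h (w' i) (G (w j)) = 0) ∧
    ∀ i, q.h (w' i) (G (w i)) = l i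

theorem SysB.reindex {q : QF K V} {U : Submodule K V} {G : V →ₗ[K] V} {ι ι' : Type*} [DecidableEq ι]
    [DecidableEq ι'] (e : ι ≃ ι') {a : Matrix ι ι K} (h : SysB q U G a) :
    SysB q U G (Matrix.reindex e e a) := by
  obtain ⟨w, w', h, ha⟩ := h
  refine ⟨fun i => w (e.symm i), fun i => w' (e.symm i), ⟨fun i => h.mem _, fun i => h.mem' _,
    fun i => h.sing _, fun i => h.sing' _, fun i j => h.iso _ _, fun i j => h.iso' _ _,
    fun i j => ?_⟩, fun i j => ha _ _⟩
  rw [h.dual]
  simp only [e.symm.injective.eq_iff]

end ThO
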