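import Pool.Agent.ThO.OBas
import Pool.Agent.ThQ.BlkA

/-! # Module OExc: exceptional isometries -/

namespace ThO
open Matrix Module ThQ

variable {K V : Type*} [Field K] [AddCommGroup V] [Module K V] (q : QF K V)

section Add

variable {U : Submodule K V} {G : V →ₗ[K] V} {c : K} {w1 w2 : V}
variable {ι : Type*} [DecidableEq ι] {v v' : ι → V}

/-- the new system -/
private def oW (w1 w2 : V) {ι : Type*} (v : ι → V) : Fin 2 ⊕ ι → V := Sum.elim ![w1, w2] v

private theorem oadd_hyp (hG : q.Iso U G) (hE : q.Exc U G c) (hb : Blk q U G w1 w2) (x : K)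
    (h : q.Hyp (cmp4 q U G w1 w2) v v') :
    q.Hyp U (oW w1 w2 v) (oW (x • w2 - G w2) (G w1 - x • w1) v') := by
  obtain ⟨a1, a2, a3, a4, a5, a6⟩ := blk_h q hG hE hb
  have b1 : q.h (G w1) w1 = 0 := by rw [q.symm, a1]
  have b2 : q.h (G w2) w1 = -1 := by rw [q.symm, a2]
  have b3 : q.h (G w2) w2 = 0 := by rw [q.symm, a3]
  have b4 : q.h (G w2) (G w1) = 0 := by rw [q.symm, a4]
  have b5 : q.h w2 w1 = 0 := by rw [q.symm, hb.o]
  have b6 : q.h (G w1) w2 = 1 := by rw [q.symm, hb.d]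
  have k1 := q.h_self_zero hb.s1
  have k2 := q.h_self_zero hb.s2
  have k3 := q.h_self_zero a5
  have k4 := q.h_self_zero a6
  have hGw1 := hG.1 _ hb.m1
  have hGw2 := hG.1 _ hb.m2
  have hm := fun i => (mem_cmp4 q).1 (h.mem i)
  have hm' := fun i => (mem_cmp4 q).1 (h.mem' i)
  have hv1 : ∀ i, q.h w1 (v i) = 0 := fun i => (hm i).2.1
  have hv2 : ∀ i, q.h w2 (v i) = 0 := fun i => (hm i).2.2.1
  have hv3 : ∀ i, q.h (G w1) (v i) = 0 := fun i => (hm i).2.2.2.1
  have hv4 : ∀ i, q.h (G w2) (v i) = 0 := fun i => (hm i).2.2.2.2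
  have hv1' : ∀ i, q.h w1 (v' i) = 0 := fun i => (hm' i).2.1
  have hv2' : ∀ i, q.h w2 (v' i) = 0 := fun i => (hm' i).2.2.1
  have hv3' : ∀ i, q.h (G w1) (v' i) = 0 := fun i => (hm' i).2.2.2.1
  have hv4' : ∀ i, q.h (G w2) (v' i) = 0 := fun i => (hm' i).2.2.2.2
  refine ⟨?_, ?_, ?_, ?_, ?_, ?_, ?_⟩
  · rintro (i | i)
    · fin_cases i
      · exact hb.m1
      · exact hb.m2
    · exact (hm i).1
  · rintro (i | i)
    · fin_cases i
      · exact U.sub_mem (U.smul_mem _ hb.m2) hGw2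
      · exact U.sub_mem hGw1 (U.smul_mem _ hb.m1)
    · exact (hm' i).1
  · rintro (i | i)
    · fin_cases i
      · exact hb.s1
      · exact hb.s2
    · exact h.sing i
  · rintro (i | i)
    · fin_cases i
      · show q.Q (x • w2 - G w2) = 0
        rw [q.Q_sub, q.smul, hb.s2, a6, q.smul_left, a3]; ring
      · show q.Q (G w1 - x • w1) = 0
        rw [q.Q_sub, q.smul, hb.s1, a5, map_smul, b1, smul_zero]; ring
    · exact h.sing' i
  · rintro (i | i) (j | j)
    · fin_cases i <;> fin_cases j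
      · exact k1
      · exact hb.o
      · exact b5
      · exact k2
    · fin_cases i
      · exact hv1 j
      · exact hv2 j
    · fin_cases j
      · show q.h (v i) w1 = 0
        rw [q.symm]; exact hv1 i
      · show q.h (v i) w2 = 0
        rw [q.symm]; exact hv2 i
    · exact h.iso i j
  · rintro (i | i) (j | j)
    · fin_cases i <;> fin_cases j
      · show q.h (x • w2 - G w2) (x • w2 - G w2) = 0
        simp only [q.sub_left, map_sub, map_smul, q.smul_left, smul_eq_mul, k2, k4, a3, b3]; ring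
      · show q.h (x • w2 - G w2) (G w1 - x • w1) = 0
        simp only [q.sub_left, map_sub, map_smul, q.smul_left, smul_eq_mul, hb.d, b5, b4, b2]; ring
      · show q.h (G w1 - x • w1) (x • w2 - G w2) = 0
        simp only [q.sub_left, map_sub, map_smul, q.smul_left, smul_eq_mul, b6, hb.o, a4, a2]; ring
      · show q.h (G w1 - x • w1) (G w1 - x • w1) = 0
        simp only [q.sub_left, map_sub, map_smul, q.smul_left, smul_eq_mul, k1, k3, a1, b1]; ring
    · fin_cases i
      · show q.h (x • w2 - G w2) (v' j) = 0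
        rw [q.sub_left, q.smul_left, hv2', hv4', mul_zero, sub_zero]
      · show q.h (G w1 - x • w1) (v' j) = 0
        rw [q.sub_left, q.smul_left, hv1', hv3', mul_zero, sub_zero]
    · fin_cases j
      · show q.h (v' i) (x • w2 - G w2) = 0
        rw [q.symm, q.sub_left, q.smul_left, hv2', hv4', mul_zero, sub_zero]
      · show q.h (v' i) (G w1 - x • w1) = 0
        rw [q.symm, q.sub_left, q.smul_left, hv1', hv3', mul_zero, sub_zero]
    · exact h.iso' i j
  · rintro (i | i) (j | j)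
    · fin_cases i <;> fin_cases j
      · show q.h (x • w2 - G w2) w1 = _
        rw [q.sub_left, q.smul_left, b5, b2]; simp
      · show q.h (x • w2 - G w2) w2 = _
        rw [q.sub_left, q.smul_left, k2, b3]; simp
      · show q.h (G w1 - x • w1) w1 = _
        rw [q.sub_left, q.smul_left, b1, k1]; simp
      · show q.h (G w1 - x • w1) w2 = _
        rw [q.sub_left, q.smul_left, b6, hb.o]; simp
    · rw [if_neg (by simp)]
      fin_cases i
      · show q.h (x • w2 - G w2) (v j) = 0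
        rw [q.sub_left, q.smul_left, hv2, hv4, mul_zero, sub_zero]
      · show q.h (G w1 - x • w1) (v j) = 0
        rw [q.sub_left, q.smul_left, hv1, hv3, mul_zero, sub_zero]
    · rw [if_neg (by simp)]
      fin_cases j
      · show q.h (v' i) w1 = 0
        rw [q.symm]; exact hv1' i
      · show q.h (v' i) w2 = 0
        rw [q.symm]; exact hv2' i
    · show q.h (v' i) (v j) = _
      rw [h.dual]
      simp only [Sum.inr.injEq]

private theorem oadd_ent (hU : q.ND U) (hG : q.Iso U G) (hE : q.Exc U G c) (hb : Blk q U G w1 w2)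
    (x : K) (h : q.Hyp (cmp4 q U G w1 w2) v v') (i j : Fin 2 ⊕ ι) :
    q.h (oW (x • w2 - G w2) (G w1 - x • w1) v' i) (G (oW w1 w2 v j)) =
      (fromBlocks (x • 1) 0 0 (Matrix.of fun i j => q.h (v' i) (G (v j))) :
        Matrix (Fin 2 ⊕ ι) (Fin 2 ⊕ ι) K) i j := by
  obtain ⟨a1, a2, a3, a4, a5, a6⟩ := blk_h q hG hE hb
  have b1 : q.h (G w1) w1 = 0 := by rw [q.symm, a1]
  have b2 : q.h (G w2) w1 = -1 := by rw [q.symm, a2]
  have b3 : q.h (G w2) w2 = 0 := by rw [q.symm, a3]
  have b4 : q.h (G w2) (G w1) = 0 := by rw [q.symm, a4]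
  have k3 := q.h_self_zero a5
  have k4 := q.h_self_zero a6
  have hm := fun i => (mem_cmp4 q).1 ((blk_iso q hU hG hE hb).1 _ (h.mem i))
  have hm' := fun i => (mem_cmp4 q).1 (h.mem' i)
  rcases i with i | i <;> rcases j with j | j
  · fin_cases i <;> fin_cases j
    · show q.h (x • w2 - G w2) (G w1) = _
      rw [q.sub_left, q.smul_left, hb.d, b4]; simp
    · show q.h (x • w2 - G w2) (G w2) = _
      rw [q.sub_left, q.smul_left, a3, k4]; simp
    · show q.h (G w1 - x • w1) (G w1) = _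
      rw [q.sub_left, q.smul_left, k3, a1]; simp
    · show q.h (G w1 - x • w1) (G w2) = _
      rw [q.sub_left, q.smul_left, a4, a2]; simp
  · fin_cases i
    · show q.h (x • w2 - G w2) (G (v j)) = 0
      rw [q.sub_left, q.smul_left, (hm j).2.2.1, (hm j).2.2.2.2, mul_zero, sub_zero]
    · show q.h (G w1 - x • w1) (G (v j)) = 0
      rw [q.sub_left, q.smul_left, (hm j).2.1, (hm j).2.2.2.1, mul_zero, sub_zero]
  · fin_cases j
    · show q.h (v' i) (G w1) = 0
      rw [q.symm]; exact (hm' i).2.2.2.1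
    · show q.h (v' i) (G w2) = 0
      rw [q.symm]; exact (hm' i).2.2.2.2
  · rfl

end Add

/-- Adding a block, the entry `x` is free.  The new system: `w1, w2, v` and `w1' = x w2 - G w2`, `w2' = G w1 - x w1`, `v'`.  By `blk_h`:
`h w1' w1 = 1`, `h w1' w2 = 0`, `h w2' w1 = 0`, `h w2' w2 = 1`, `Q w1' = Q w2' = 0`, `h w1' w2' = x - x = 0`;
`h w1' (G w1) = x`, `h w1' (G w2) = 0`, `h w2' (G w1) = 0`, `h w2' (G w2) = x`; the `G (v j)` and `v' i` are
orthogonal to `w1`, `w2`, `G w1`, `G w2` (`blk_iso`).  See `ThQ.blk_sys1`. -/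
theorem blk_sysX {U : Submodule K V} {G : V →ₗ[K] V} {c : K} {w1 w2 : V} (hU : q.ND U)
    (hG : q.Iso U G) (hE : q.Exc U G c) (hb : Blk q U G w1 w2) (x : K) {ι : Type*} [DecidableEq ι]
    {a : Matrix ι ι K} (h : SysB q (cmp4 q U G w1 w2) G a) :
    SysB q U G (fromBlocks (x • 1) 0 0 a : Matrix (Fin 2 ⊕ ι) (Fin 2 ⊕ ι) K) := by
  obtain ⟨v, v', h1, h2⟩ := h
  have ha : a = Matrix.of fun i j => q.h (v' i) (G (v j)) := by
    ext i j
    rw [Matrix.of_apply, h2]
  refine ⟨oW w1 w2 v, oW (x • w2 - G w2) (G w1 - x • w1) v', oadd_hyp q hG hE hb x h1,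
    fun i j => ?_⟩
  rw [oadd_ent q hU hG hE hb x h1, ha]

private theorem oexc_empty {U : Submodule K V} {G : V →ₗ[K] V} {a : Matrix (Fin 0) (Fin 0) K} :
    SysB q U G a :=
  ⟨Fin.elim0, Fin.elim0, ⟨fun i => i.elim0, fun i => i.elim0,
      fun i => i.elim0, fun i => i.elim0, fun i => i.elim0, fun i => i.elim0, fun i => i.elim0⟩,
      fun i => i.elim0⟩

private theorem oexc_fr {U : Submodule K V} {n : ℕ} (hf : finrank K U = 2 * n + 3) : U ≠ ⊥ := by
  rintro rfl
  rw [finrank_bot] at hf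
  omega

/-- there is a block, or `G` is a scalar -/
private theorem oexc_blk [Finite K] [FiniteDimensional K V] {U : Submodule K V} {G : V →ₗ[K] V}
    {c : K} (hU : q.ND U) (h3 : 3 ≤ finrank K U) (hG : q.Iso U G) (hE : q.Exc U G c)
    (hs : ¬ Scal U G) : ∃ w1 w2, Blk q U G w1 w2 := by
  by_contra hcon
  apply hs
  refine scal_of q hU h3 hG fun w hw h0 => ?_
  by_contra hne
  obtain ⟨w2, hb⟩ := blk_ex q hU hG hE hw h0 fun t ht => hne ⟨t, ht⟩
  exact hcon ⟨w, w2, hb⟩

private theorem oexc_reindex {U : Submodule K V} {G : V →ₗ[K] V} {n : ℕ}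
    (h : SysB q U G (fromBlocks 1 0 0 1 : Matrix (Fin 2 ⊕ Fin n) (Fin 2 ⊕ Fin n) K)) :
    SysB q U G (1 : Matrix (Fin (n + 2)) (Fin (n + 2)) K) := by
  have h1 := SysB.reindex (finSumFinEquiv.trans (finCongr (Nat.add_comm 2 n))) h
  rw [fromBlocks_one] at h1
  have h3 : Matrix.reindex (finSumFinEquiv.trans (finCongr (Nat.add_comm 2 n)))
      (finSumFinEquiv.trans (finCongr (Nat.add_comm 2 n)))
      (1 : Matrix (Fin 2 ⊕ Fin n) (Fin 2 ⊕ Fin n) K) = 1 := by
    rw [Matrix.reindex_apply, Matrix.submatrix_one_equiv]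
  rw [h3] at h1
  exact h1

/-- Strong induction on `n`.  `n = 0`: the empty system.  `n = 1`: a singular vector `w ≠ 0` with `G w = w` (`exc_eig` for
`ε = 1`) and its partner.  `n ≥ 2`: if `G` is a scalar `l` on `U`: `l ^ 2 = 1`, `2 = 2 l` (`exc_scal`), so
`l = 1` (`(l - 1) ^ 2 = 0`), any hyperbolic system (`hyp_ex3`).  Otherwise there is a singular `w1 ∈ U` with `G w1 ≠ t • w1`
(`scal_of`), a block (`blk_ex`), the induction hypothesis for `cmp4` (`blk_finrank`, `blk_ND`, `blk_iso`, `blk_exc`), `blk_sysX` with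
`x = 1`, `SysB.reindex`. -/
theorem exc2_sys [Finite K] [FiniteDimensional K V] (n : ℕ) (U : Submodule K V) (G : V →ₗ[K] V)
    (hU : q.ND U) (hf : finrank K U = 2 * n + 3) (hG : q.Iso U G) (hE : q.Exc U G 2) :
    SysB q U G (1 : Matrix (Fin n) (Fin n) K) := by
  induction n using Nat.strong_induction_on generalizing U with
  | _ n ih =>
    rcases n with _ | _ | n
    · exact oexc_empty q
    · obtain ⟨w, hw, hn, h0, he⟩ := exc_eig q hU (by omega) hG (one_pow 2)
        (by rw [mul_one]; exact hE)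
      obtain ⟨w', hw', h0', h1⟩ := partner q hU hw h0 hn
      rw [one_smul] at he
      refine ⟨fun _ => w, fun _ => w', ⟨fun _ => hw, fun _ => hw', fun _ => h0, fun _ => h0',
        fun _ _ => q.h_self_zero h0, fun _ _ => q.h_self_zero h0', fun i j => ?_⟩, fun i j => ?_⟩
      · rw [h1, if_pos (Fin.ext (by omega))]
      · rw [he, h1, show j = i from Fin.ext (by omega), Matrix.one_apply_eq]
    · by_cases hs : Scal U G
      · obtain ⟨l, hl⟩ := hs
        obtain ⟨e1, e2⟩ := exc_scal q hU (oexc_fr hf) hG hE hl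
        have e3 : l = 1 := by
          have h1 : (l - 1) ^ 2 = 0 := by linear_combination e1 + e2
          exact sub_eq_zero.1 (pow_eq_zero_iff two_ne_zero |>.1 h1)
        obtain ⟨w, w', h⟩ := hyp_ex3 q (n + 2) U hU hf
        refine ⟨w, w', h, fun i j => ?_⟩
        rw [hl _ (h.mem j), e3, one_smul, h.dual, Matrix.one_apply]
      · obtain ⟨w1, w2, hb⟩ := oexc_blk q hU (by omega) hG hE hs
        have hfr := blk_finrank q hG hE hb
        have h1 := ih n (by omega) (cmp4 q U G w1 w2) (blk_ND q hU hG hE hb) (by omega)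
          (blk_iso q hU hG hE hb) (blk_exc q hE)
        have h2 := blk_sysX q hU hG hE hb 1 h1
        rw [one_smul] at h2
        exact oexc_reindex q h2

/-- `exc2_sys` for `-G` -/
theorem excm_sys [Finite K] [FiniteDimensional K V] {n : ℕ} {U : Submodule K V} {G : V →ₗ[K] V}
    (hU : q.ND U) (hf : finrank K U = 2 * n + 3) (hG : q.Iso U G) (hE : q.Exc U G (-2)) :
    SysB q U G (-1 : Matrix (Fin n) (Fin n) K) := by
  have hG' : q.Iso U (-G) := by
    refine ⟨fun x hx => ?_, fun x hx => ?_⟩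
    · rw [LinearMap.neg_apply]
      exact U.neg_mem (hG.1 x hx)
    · rw [LinearMap.neg_apply, q.Q_neg]
      exact hG.2 x hx
  have hE' : q.Exc U (-G) 2 := by
    intro x hx
    rw [LinearMap.neg_apply, map_neg, hE x hx]
    ring
  obtain ⟨w, w', h, h1⟩ := exc2_sys q n U (-G) hU hf hG' hE'
  refine ⟨w, w', h, fun i j => ?_⟩
  rw [Matrix.neg_apply, ← h1, LinearMap.neg_apply, map_neg, neg_neg]

/-- `G` is not a scalar on `U` (`exc_scal`: `l ^ 2 = 1`, `-2 = 2 l`, so `l = -1`), so there is a block (`scal_of`, `blk_ex`), `excm_sys`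
for `cmp4`, `blk_sysX` with `x = 1`. -/
theorem excm_mix [Finite K] [FiniteDimensional K V] (h2 : (2 : K) ≠ 0) {n : ℕ} {U : Submodule K V}
    {G : V →ₗ[K] V} (hU : q.ND U) (hf : finrank K U = 2 * (n + 2) + 3) (hG : q.Iso U G)
    (hE : q.Exc U G (-2)) (hne : ∃ x ∈ U, G x ≠ -x) :
    SysB q U G (fromBlocks 1 0 0 (-1) : Matrix (Fin 2 ⊕ Fin n) (Fin 2 ⊕ Fin n) K) := by
  have hs : ¬ Scal U G := by
    rintro ⟨l, hl⟩
    obtain ⟨e1, e2⟩ := exc_scal q hU (oexc_fr hf) hG hE hl
    obtain ⟨x, hx, h3⟩ := hne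
    apply h3
    have e3 : l = -1 := by
      apply mul_left_cancel₀ h2
      rw [← e2, mul_neg, mul_one]
    rw [hl x hx, e3, neg_one_smul]
  obtain ⟨w1, w2, hb⟩ := oexc_blk q hU (by omega) hG hE hs
  have hfr := blk_finrank q hG hE hb
  have h1 := excm_sys q (n := n) (blk_ND q hU hG hE hb) (by omega) (blk_iso q hU hG hE hb)
    (blk_exc q hE)
  have h3 := blk_sysX q hU hG hE hb 1 h1
  rw [one_smul] at h3
  exact h3

end ThO
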