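import Pool.Agent.ThO.OBas
import Pool.Agent.ThQ.StepI
import Pool.Agent.ThQ.Sing

/-! # Module OGen: the choice of the first vector -/

namespace ThO
open Matrix Module ThQ

variable {K V : Type*} [Field K] [AddCommGroup V] [Module K V] (q : QF K V)
variable {U : Submodule K V} {G : V →ₗ[K] V}

/-- Let `w` be given, `z = h w (G w)`, `U1 = perp2 U w (G w)` (dimension at least 5, nondegenerate).  Suppose `g1 G w x = -x` on `U1`
(otherwise the first alternative holds).  So `G x = -x + β x • G w` on `U1`, `β x = h b x` with `b ∈ U1` (`riesz`).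
`G (G w) = p w + r G w + u0` with `u0 ∈ U1` (`perp2_dec`); `z = h (G w) (G (G w)) = p z`, `p = 1`;
for `x ∈ U1`: `0 = h x (G w) = h (G x) (G (G w)) = - h x u0 + β x z`, so `u0 = z b`; `0 = Q (G (G w)) = r z + z ^ 2 Q b`, `r = - z Q b`.

Case `b ≠ 0`.  There are `u ≠ 0` in `U1` with `Q u = 0`, `h b u = 0` and `y ∈ U1` with `h u y = 0`, `h b y ≠ 0`: if `Q b = 0`, let `b'` be the
partner of `b` in `U1`, `u` singular in `perp2 U1 b b'` (dimension at least 3, `sing_ex`), `y = b'`; if `Q b ≠ 0`, let `u` be singular in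
`U1 ⊓ ker (h b)` (dimension at least 4, `sing_ex`), `y = b` (`h b b = 2 Q b`).  Let `w2 = w + u`: singular,
`G w2 = G w - u`, `h w2 (G w2) = z`, `y ∈ perp2 U w2 (G w2)`.  If `g1 G w2 y = -y` then
`-y = G y - t (G w - u) = -y + h b y G w - t (G w - u)`; apply `h w`: `t = h b y ≠ 0`, then `t u = 0`: contradiction.  So the first
alternative holds for `w2`.

Case `b = 0`: `G x = -x` on `U1`, `G (G w) = w`.  With `f = w + G w`, `Q f = z`: `refl f w = - G w`, `refl f (G w) = - w`, `refl f x = x` on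
`U1`, so `G = - refl f` on `U` (`perp2_dec`). -/
theorem gen_odd [Finite K] [FiniteDimensional K V] (h2 : (2 : K) ≠ 0) (hU : q.ND U)
    (hf : 7 ≤ finrank K U) (hG : q.Iso U G) (hw : ∃ w ∈ U, q.Q w = 0 ∧ q.h w (G w) ≠ 0) :
    (∃ w ∈ U, q.Q w = 0 ∧ q.h w (G w) ≠ 0 ∧ ∃ x ∈ q.perp2 U w (G w), q.g1 G w x ≠ -x) ∨
      ∃ f ∈ U, q.Q f ≠ 0 ∧ ∀ x ∈ U, G x = -q.refl f x := by
  obtain ⟨w, hw, h0, hz⟩ := hw
  have hGw := hG.1 w hw
  have hGQ : q.Q (G w) = 0 := by rw [hG.2 w hw, h0]
  have hU1 := perp2_ND q hU hw hGw h0 hGQ hz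
  have hf1 := perp2_finrank q hw hGw h0 hGQ hz
  by_cases hx : ∃ x ∈ q.perp2 U w (G w), q.g1 G w x ≠ -x
  · exact Or.inl ⟨w, hw, h0, hz, hx⟩
  push Not at hx
  obtain ⟨b, hb, hbx⟩ := riesz q hU1 ((q.h w (G w))⁻¹ • (q.h w).comp G)
  have hGx : ∀ x ∈ q.perp2 U w (G w), G x = -x + q.h b x • G w := by
    intro x hx'
    have h1 := hx x hx'
    rw [q.g1_apply] at h1
    have h3 : q.h b x = q.h w (G x) * (q.h w (G w))⁻¹ := by
      rw [← hbx x hx', LinearMap.smul_apply, LinearMap.comp_apply, smul_eq_mul, mul_comm]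
    rw [h3, ← h1]
    abel
  have hbm := (q.mem_perp2).1 hb
  by_cases hb0 : b = 0
  · right
    have hGx' : ∀ x ∈ q.perp2 U w (G w), G x = -x := fun x hx' => by
      rw [hGx x hx', hb0, q.zero_left, zero_smul, add_zero]
    obtain ⟨p, r, hu0⟩ := perp2_dec q hw hGw h0 hGQ hz (G (G w)) (hG.1 _ hGw)
    set u0 := G (G w) - p • w - r • G w with hu0def
    have hGG : G (G w) = p • w + r • G w + u0 := by rw [hu0def]; abel
    have hum := (q.mem_perp2).1 hu0
    have hzz : q.h (G w) w = q.h w (G w) := q.symm _ _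
    have hp : p = 1 := by
      have h1 := hG.h hw hGw
      rw [hGG, map_add, map_add, map_smul, map_smul, q.h_self_zero hGQ, hum.2.2, hzz, smul_eq_mul,
        smul_zero, add_zero, add_zero] at h1
      exact mul_right_cancel₀ hz (by rw [one_mul]; exact h1)
    have hu00 : u0 = 0 := by
      refine hU1 u0 hu0 fun x hx' => ?_
      have hxm := (q.mem_perp2).1 hx'
      have h1 := hG.h hxm.1 hGw
      rw [hGx' x hx', hGG, q.neg_left, map_add, map_add, map_smul, map_smul, q.symm w x, hxm.2.1,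
        q.symm (G w) x, hxm.2.2, smul_zero, smul_zero, zero_add, zero_add, neg_eq_zero,
        q.symm u0 x] at h1
      exact h1
    have hr : r = 0 := by
      have h1 : q.Q (G (G w)) = 0 := by rw [hG.2 _ hGw, hGQ]
      rw [hGG, hu00, hp, one_smul, add_zero, q.add, q.smul, h0, hGQ, map_smul, smul_eq_mul] at h1
      have h3 : r * q.h w (G w) = 0 := by linear_combination h1
      exact (mul_eq_zero.1 h3).resolve_right hz
    have hGGw : G (G w) = w := by rw [hGG, hu00, hp, hr, one_smul, zero_smul, add_zero, add_zero]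
    have hQf : q.Q (w + G w) = q.h w (G w) := by
      rw [q.add, h0, hGQ]
      ring
    refine ⟨w + G w, U.add_mem hw hGw, by rw [hQf]; exact hz, fun x hxU => ?_⟩
    obtain ⟨s, t, hu1⟩ := perp2_dec q hw hGw h0 hGQ hz x hxU
    set u1 := x - s • w - t • G w with hu1def
    have hxe : x = s • w + t • G w + u1 := by rw [hu1def]; abel
    have hu1m := (q.mem_perp2).1 hu1
    have h1 : G x = s • G w + t • w - u1 := by
      conv_lhs => rw [hxe]
      rw [map_add, map_add, map_smul, map_smul, hGGw, hGx' u1 hu1]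
      abel
    have h3 : q.h (w + G w) x = (s + t) * q.h w (G w) := by
      conv_lhs => rw [hxe]
      rw [q.add_left]
      simp only [map_add, map_smul, smul_eq_mul, q.h_self_zero h0, q.h_self_zero hGQ, hu1m.2.1,
        hu1m.2.2, hzz]
      ring
    rw [q.refl_apply, hQf, h3, mul_assoc, mul_inv_cancel₀ hz, mul_one, h1]
    conv_rhs => rw [hxe]
    module
  · left
    -- the vectors `u`, `y`
    obtain ⟨u, hu, hu0, hQu, hbu, y, hy, huy, hby⟩ : ∃ u ∈ q.perp2 U w (G w), u ≠ 0 ∧ q.Q u = 0 ∧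
        q.h b u = 0 ∧ ∃ y ∈ q.perp2 U w (G w), q.h u y = 0 ∧ q.h b y ≠ 0 := by
      by_cases hQb : q.Q b = 0
      · obtain ⟨b', hb', hQb', hbb'⟩ := partner q hU1 hb hQb hb0
        have hbb : q.h b b' ≠ 0 := by
          rw [q.symm, hbb']
          exact one_ne_zero
        have hf2 := perp2_finrank q hb hb' hQb hQb' hbb
        obtain ⟨u, hu, hu0, hQu⟩ := sing_ex q (U := q.perp2 (q.perp2 U w (G w)) b b') (by omega)
        have hum := (q.mem_perp2).1 hu
        exact ⟨u, hum.1, hu0, hQu, hum.2.1, b', hb', by rw [q.symm]; exact hum.2.2, hbb⟩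
      · have hle : q.perp2 U w (G w) ⊓ LinearMap.ker (q.h b) ≤ q.perp2 U w (G w) := inf_le_left
        let φ : q.perp2 U w (G w) →ₗ[K] K := (q.h b).comp (q.perp2 U w (G w)).subtype
        have hker : LinearMap.ker φ =
            (q.perp2 U w (G w) ⊓ LinearMap.ker (q.h b)).comap (q.perp2 U w (G w)).subtype := by
          ext x
          rw [LinearMap.mem_ker, Submodule.mem_comap, Submodule.mem_inf, LinearMap.mem_ker]
          exact ⟨fun h => ⟨x.2, h⟩, fun h => h.2⟩
        have h1 := φ.finrank_range_add_finrank_ker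
        rw [hker, (Submodule.comapSubtypeEquivOfLe hle).finrank_eq] at h1
        have h3 : finrank K (LinearMap.range φ) ≤ 1 :=
          (Submodule.finrank_le _).trans (by rw [finrank_self])
        obtain ⟨u, hu, hu0, hQu⟩ := sing_ex q (U := q.perp2 U w (G w) ⊓ LinearMap.ker (q.h b))
          (by omega)
        have hbu : q.h b u = 0 := hu.2
        exact ⟨u, hu.1, hu0, hQu, hbu, b, hb, by rw [q.symm]; exact hbu, by
          rw [q.h_self]
          exact mul_ne_zero h2 hQb⟩
    have hum := (q.mem_perp2).1 hu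
    have hym := (q.mem_perp2).1 hy
    have hGu : G u = -u := by rw [hGx u hu, hbu, zero_smul, add_zero]
    have hGw2 : G (w + u) = G w - u := by rw [map_add, hGu, sub_eq_add_neg]
    have huw : q.h u w = 0 := by rw [q.symm]; exact hum.2.1
    have huGw : q.h u (G w) = 0 := by rw [q.symm]; exact hum.2.2
    have hz2 : q.h (w + u) (G (w + u)) = q.h w (G w) := by
      rw [hGw2, q.add_left, map_sub, map_sub, hum.2.1, huGw, q.h_self_zero hQu]
      ring
    refine ⟨w + u, U.add_mem hw hum.1, by rw [q.add, h0, hQu, hum.2.1]; ring, by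
      rw [hz2]; exact hz, y, (q.mem_perp2).2 ⟨hym.1, by rw [q.add_left, hym.2.1, huy, add_zero], by
      rw [hGw2, q.sub_left, hym.2.2, huy, sub_zero]⟩, fun hcon => ?_⟩
    rw [q.g1_apply, hz2, hGw2, hGx y hy] at hcon
    set t := q.h (w + u) (-y + q.h b y • G w) * (q.h w (G w))⁻¹ with ht
    have h3 : q.h b y • G w = t • (G w - u) := by
      have := hcon
      rw [add_sub_assoc] at this
      exact sub_eq_zero.1 (add_eq_left.1 this)
    have h4 := congrArg (q.h w) h3
    rw [map_smul, map_smul, map_sub, hum.2.1, sub_zero, smul_eq_mul, smul_eq_mul] at h4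
    have h5 : q.h b y = t := mul_right_cancel₀ hz h4
    rw [← h5, smul_sub] at h3
    have h6 : q.h b y • u = 0 := by
      have := h3
      rw [eq_comm, sub_eq_self] at this
      exact this
    exact hu0 ((smul_eq_zero.1 h6).resolve_left hby)

end ThO
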