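import Pool.Agent.ThO.OBas

/-! # Module ORef: minus a reflection -/

namespace ThO
open Matrix Module ThQ

variable {K V : Type*} [Field K] [AddCommGroup V] [Module K V] (q : QF K V)
variable {U : Submodule K V} {G : V →ₗ[K] V}

/-- Let `v`, `v'` be a hyperbolic system of `U` (`hyp_ex3`), `d ∈ Dp U v v'` (dimension 3) with `Q d = Q f` (`univ3`), and
`f' = v i0 + v' j0 + d`; `Q f' = Q f`.  `Q (f - f') + Q (f + f') = 4 Q f ≠ 0`.  If `Q (f - f') ≠ 0` let `ρ = refl (f - f')`, `ρ f' = f`;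
otherwise `ρ = refl (f + f')`, `ρ f' = - f`.  So `ρ f' = s f`, `s = ± 1`.  The system `w = ρ ∘ v`, `w' = ρ ∘ v'` of `U` (`refl_iso`):
`h f (w j) = s h f' (v j) = s δ j j0` and `h (w' i) f = s h (v' i) f' = s δ i i0`, so
`h (w' i) (G (w j)) = - δ i j + h f (w j) h (w' i) f / Q f = - δ i j + δ i i0 δ j j0 / Q f`. -/
theorem refl_sys [Finite K] [FiniteDimensional K V] (h2 : (2 : K) ≠ 0) {k : ℕ} (hU : q.ND U)
    (hf : finrank K U = 2 * k + 3) {f : V} (hfU : f ∈ U) (h0 : q.Q f ≠ 0)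
    (hG : ∀ x ∈ U, G x = -q.refl f x) {i0 j0 : Fin k} (hij : i0 ≠ j0) :
    SysB q U G (Matrix.of fun i j => (if i = j then (-1 : K) else 0) +
      (if i = i0 ∧ j = j0 then (q.Q f)⁻¹ else 0)) := by
  obtain ⟨v, v', hv⟩ := hyp_ex3 q k U hU hf
  have hD : q.ND (q.Dp U v v') := Dp_ND q hU hv
  have hD3 : 3 ≤ finrank K (q.Dp U v v') := by
    have := Dp_finrank q hv
    rw [hf, Fintype.card_fin] at this
    omega
  obtain ⟨d, hd, hQd⟩ := univ3 q hD hD3 (q.Q f)
  have hdm := (q.mem_Dp).1 hd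
  set f' := v i0 + v' j0 + d with hf'
  have hvv : q.h (v i0) (v' j0) = 0 := by rw [q.symm, hv.dual, if_neg hij.symm]
  have hQf' : q.Q f' = q.Q f := by
    rw [hf', q.add, q.add, hv.sing, hv.sing', hvv, q.add_left, (hdm.2 i0).1, (hdm.2 j0).2, hQd]
    ring
  have hfU' : f' ∈ U := U.add_mem (U.add_mem (hv.mem _) (hv.mem' _)) hdm.1
  -- values of the form at `f'`
  have c1 : ∀ j, q.h f' (v j) = if j0 = j then 1 else 0 := by
    intro j
    rw [hf', q.add_left, q.add_left, hv.iso, hv.dual, q.symm (v j) d, (hdm.2 j).1]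
    ring
  have c2 : ∀ i, q.h (v' i) f' = if i = i0 then 1 else 0 := by
    intro i
    rw [hf', map_add, map_add, hv.iso', hv.dual, (hdm.2 i).2]
    ring
  clear_value f'
  -- the isometry
  obtain ⟨ρ, hρ, s, hs, hρf⟩ : ∃ ρ : V →ₗ[K] V, q.Iso U ρ ∧ ∃ s : K, s * s = 1 ∧ ρ f' = s • f := by
    by_cases h1 : q.Q (f - f') = 0
    · have h3 : q.Q (f + f') ≠ 0 := by
        intro h3
        have h4 : q.Q (f - f') + q.Q (f + f') = 4 * q.Q f := by
          rw [q.Q_sub, q.add, hQf']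
          ring
        rw [h1, h3, add_zero] at h4
        have h5 : (4 : K) ≠ 0 := by
          have : (4 : K) = 2 * 2 := by norm_num
          rw [this]
          exact mul_ne_zero h2 h2
        exact mul_ne_zero h5 h0 h4.symm
      refine ⟨q.refl (f + f'), refl_iso q (U.add_mem hfU hfU') h3, -1, by ring, ?_⟩
      have h4 : q.h (f + f') f' = q.Q (f + f') := by
        rw [q.add_left, q.h_self, q.add, hQf']
        ring
      rw [q.refl_apply, h4, mul_inv_cancel₀ h3, one_smul]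
      module
    · refine ⟨q.refl (f - f'), refl_iso q (U.sub_mem hfU hfU') h1, 1, by ring, ?_⟩
      have h4 : q.h (f - f') f' = -q.Q (f - f') := by
        rw [q.sub_left, q.h_self, q.Q_sub, hQf']
        ring
      rw [q.refl_apply, h4, neg_mul, mul_inv_cancel₀ h1]
      module
  have d1 : ∀ j, s * q.h f (ρ (v j)) = if j0 = j then 1 else 0 := by
    intro j
    rw [← c1 j, ← hρ.h hfU' (hv.mem j), hρf, q.smul_left]
  have d2 : ∀ i, s * q.h (ρ (v' i)) f = if i = i0 then 1 else 0 := by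
    intro i
    rw [← c2 i, ← hρ.h (hv.mem' i) hfU', hρf, map_smul, smul_eq_mul]
  refine ⟨fun i => ρ (v i), fun i => ρ (v' i), ⟨fun i => hρ.1 _ (hv.mem i), fun i => hρ.1 _ (hv.mem' i),
    fun i => by rw [hρ.2 _ (hv.mem i), hv.sing], fun i => by rw [hρ.2 _ (hv.mem' i), hv.sing'],
    fun i j => by rw [hρ.h (hv.mem i) (hv.mem j), hv.iso],
    fun i j => by rw [hρ.h (hv.mem' i) (hv.mem' j), hv.iso'],
    fun i j => by rw [hρ.h (hv.mem' i) (hv.mem j), hv.dual]⟩, fun i j => ?_⟩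
  have e1 : q.h f (ρ (v j)) * q.h (ρ (v' i)) f = if i = i0 ∧ j = j0 then 1 else 0 := by
    have e2 : q.h f (ρ (v j)) * q.h (ρ (v' i)) f =
        (s * q.h f (ρ (v j))) * (s * q.h (ρ (v' i)) f) := by
      linear_combination (-(q.h f (ρ (v j)) * q.h (ρ (v' i)) f)) * hs
    rw [e2, d1, d2]
    by_cases hi : i = i0
    · by_cases hj : j0 = j
      · rw [if_pos hi, if_pos hj, if_pos ⟨hi, hj.symm⟩, mul_one]
      · rw [if_neg hj, zero_mul, if_neg (fun h => hj h.2.symm)]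
    · rw [if_neg hi, mul_zero, if_neg (fun h => hi h.1)]
  rw [hG _ (hρ.1 _ (hv.mem j)), q.refl_apply, map_neg, map_sub, map_smul, hρ.h (hv.mem' i) (hv.mem j),
    hv.dual, of_apply, smul_eq_mul]
  have e3 : q.h f (ρ (v j)) * (q.Q f)⁻¹ * q.h (ρ (v' i)) f =
      (if i = i0 ∧ j = j0 then 1 else 0) * (q.Q f)⁻¹ := by
    rw [← e1]
    ring
  rw [e3]
  by_cases hi : i = j
  · rw [if_pos hi, if_pos hi]
    split_ifs <;> ring
  · rw [if_neg hi, if_neg hi]
    split_ifs <;> ring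

end ThO
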