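import Pool.Agent.ThO.OTri
import Pool.Agent.ThO.OExc
import Pool.Agent.ThO.OGen
import Pool.Agent.ThO.ORef
import Pool.Agent.ThQ.RkB

/-! # Module OAlt: the blocks of an even isometry -/

namespace ThO
open Matrix Module ThQ

variable {K V : Type*} [Field K] [AddCommGroup V] [Module K V] (q : QF K V)

theorem triB_of_sysB {U : Submodule K V} {G : V →ₗ[K] V} {n : ℕ} {a : Matrix (Fin n) (Fin n) K}
    (h : SysB q U G a) (ha : ∀ i j, j < i → a i j = 0) : TriB q U G n (fun i => a i i) := by
  obtain ⟨w, w', hh, hw⟩ := h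
  exact ⟨w, w', hh, fun i j hij => by rw [hw, ha i j hij], fun i => hw i i⟩

/-- the first alternative -/
def AltA (U : Submodule K V) (G : V →ₗ[K] V) (k : ℕ) : Prop :=
  ∃ a : Matrix (Fin k) (Fin k) K, SysB q U G a ∧ (∀ i j, j < i → a i j = 0) ∧ ∏ i, a i i = 1 ∧
    ∃ i j, a i i ≠ a j j

theorem alt1 [Finite K] [FiniteDimensional K V] {m : ℕ} {U : Submodule K V} {G : V →ₗ[K] V}
    (hU : q.ND U) (hf : finrank K U = 2 * (m + 1) + 3) (hG : q.Iso U G) {w : V} (hw : w ∈ U)
    (h0 : q.Q w = 0) (hz : q.h w (G w) ≠ 0) {l : Fin m → K} (hl : ∀ i, l i ≠ 0)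
    (h : TriB q (q.perp2 U w (G w)) (q.g1 G w) m l)
    (hne : ∃ i j, (Fin.cons (∏ i, l i)⁻¹ l : Fin (m + 1) → K) i ≠
      (Fin.cons (∏ i, l i)⁻¹ l : Fin (m + 1) → K) j) : AltA q U G (m + 1) := by
  have hp : ∏ i, l i ≠ 0 := Finset.prod_ne_zero_iff.2 fun i _ => hl i
  obtain ⟨v, v', hh, ha, hd⟩ := stepB q hU hG hw h0 hz hf h (inv_ne_zero hp)
  refine ⟨Matrix.of fun i j => q.h (v' i) (G (v j)), ⟨v, v', hh, fun i j => rfl⟩,
    fun i j hij => ha i j hij, ?_, ?_⟩
  · simp only [of_apply, hd]
    rw [Fin.prod_univ_succ, Fin.cons_zero]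
    simp only [Fin.cons_succ]
    exact inv_mul_cancel₀ hp
  · obtain ⟨i, j, hij⟩ := hne
    exact ⟨i, j, by rw [of_apply, of_apply, hd, hd]; exact hij⟩

/-- The blocks of an even isometry. -/
theorem alt_odd [Finite K] [FiniteDimensional K V] (h2 : (2 : K) ≠ 0) {k : ℕ} (hk : 3 ≤ k)
    {U : Submodule K V} {G : V →ₗ[K] V} (hU : q.ND U) (hf : finrank K U = 2 * k + 3)
    (hG : q.Iso U G) (hpar : rk U G % 2 = 0) :
    AltA q U G k ∨ SysB q U G (1 : Matrix (Fin k) (Fin k) K) ∨
    (Even k ∧ ∃ c : K, c ≠ 0 ∧ ∃ i0 j0 : Fin k, i0 ≠ j0 ∧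
      SysB q U G (Matrix.of fun i j => (if i = j then (-1 : K) else 0) +
        (if i = i0 ∧ j = j0 then c else 0))) := by
  have hsq : ∀ ε : K, ε ^ 2 = 1 → ε = 1 ∨ ε = -1 := fun ε h =>
    mul_self_eq_one_iff.1 ((sq ε).symm.trans h)
  by_cases hne : ∃ w ∈ U, q.Q w = 0 ∧ q.h w (G w) ≠ 0
  · obtain ⟨m, rfl⟩ : ∃ m, k = m + 1 := ⟨k - 1, by omega⟩
    obtain ⟨m', rfl⟩ : ∃ m', m = m' + 2 := ⟨m - 2, by omega⟩
    -- the common part
    have key : ∀ w ∈ U, q.Q w = 0 → q.h w (G w) ≠ 0 → AltA q U G (m' + 2 + 1) ∨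
        q.Exc (q.perp2 U w (G w)) (q.g1 G w) (-2) := by
      intro w hw h0 hz
      have hGw := hG.1 w hw
      have hGQ : q.Q (G w) = 0 := by rw [hG.2 w hw, h0]
      have hU1 := perp2_ND q hU hw hGw h0 hGQ hz
      have hf1 := perp2_finrank q hw hGw h0 hGQ hz
      have hf1' : finrank K (q.perp2 U w (G w)) = 2 * (m' + 2) + 3 := by omega
      have hG1 := iso_g1 q hG hw h0 hz
      by_cases hne1 : ∃ w1 ∈ q.perp2 U w (G w), q.Q w1 = 0 ∧ q.h w1 (q.g1 G w w1) ≠ 0
      · obtain ⟨l, hl, ⟨i, j, hij⟩, hT⟩ := triB_ne q h2 hU1 hf1' hG1 hne1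
        exact Or.inl (alt1 q hU hf hG hw h0 hz hl hT ⟨i.succ, j.succ, by
          rw [Fin.cons_succ, Fin.cons_succ]
          exact hij⟩)
      · push Not at hne1
        obtain ⟨c, hE⟩ := sym_exc5 q hU1 (by omega) hG1 (fun w1 h1 h3 => hne1 w1 h1 h3)
        obtain ⟨ε, hε, rfl⟩ := exc_odd q h2 hU1 (n := m' + 3) (by omega) hG1 hE
        rcases hsq ε hε with rfl | rfl
        · rw [mul_one] at hE
          have h3 := exc_even q hU1 hG1 hE
          have h4 := par_g1 q hU hG hw h0 hz
          omega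
        · right
          rwa [mul_neg, mul_one] at hE
    rcases Nat.even_or_odd (m' + 2 + 1) with hev | hodd
    · -- even `k`
      have hm1 : 1 ≤ m' := by
        by_contra h
        have : m' = 0 := by omega
        subst this
        revert hev
        decide
      rcases gen_odd q h2 hU (by omega) hG hne with ⟨w, hw, h0, hz, hx⟩ | ⟨f, hfU, hf0, hGf⟩
      · rcases key w hw h0 hz with h | hE
        · exact Or.inl h
        · left
          have hGw := hG.1 w hw
          have hGQ : q.Q (G w) = 0 := by rw [hG.2 w hw, h0]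
          have hU1 := perp2_ND q hU hw hGw h0 hGQ hz
          have hf1 := perp2_finrank q hw hGw h0 hGQ hz
          have hG1 := iso_g1 q hG hw h0 hz
          have hs := excm_mix q h2 (n := m') hU1 (by omega) hG1 hE hx
          let e : Fin 2 ⊕ Fin m' ≃ Fin (m' + 2) := finSumFinEquiv.trans (finCongr (by omega))
          have hs' := hs.reindex e
          have ea : Matrix.reindex e e (fromBlocks 1 0 0 (-1) :
              Matrix (Fin 2 ⊕ Fin m') (Fin 2 ⊕ Fin m') K) =
              diagonal fun i => Sum.elim (fun _ => 1) (fun _ => -1) (e.symm i) := by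
            have e1 : (fromBlocks 1 0 0 (-1) : Matrix (Fin 2 ⊕ Fin m') (Fin 2 ⊕ Fin m') K) =
                diagonal (Sum.elim (fun _ => 1) fun _ => -1) := by
              rw [← diagonal_one, ← diagonal_one, diagonal_neg, fromBlocks_diagonal]
            rw [e1, reindex_apply, submatrix_diagonal_equiv]
            rfl
          rw [ea] at hs'
          have hT := triB_of_sysB q hs' (fun i j hij => diagonal_apply_ne _ (ne_of_gt hij))
          simp only [diagonal_apply_eq] at hT
          refine alt1 q hU hf hG hw h0 hz (fun i => ?_) hT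
            ⟨(e (Sum.inl 0)).succ, (e (Sum.inr ⟨0, by omega⟩)).succ, ?_⟩
          · rcases e.symm i with j | j
            · exact one_ne_zero
            · exact neg_ne_zero.2 one_ne_zero
          · rw [Fin.cons_succ, Fin.cons_succ, e.symm_apply_apply, e.symm_apply_apply, Sum.elim_inl,
              Sum.elim_inr]
            intro h
            exact h2 (by linear_combination h)
      · right
        right
        refine ⟨hev, (q.Q f)⁻¹, inv_ne_zero hf0, ⟨0, by omega⟩, ⟨1, by omega⟩, ?_, ?_⟩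
        · intro h
          have := congrArg Fin.val h
          simp at this
        · exact refl_sys q h2 hU hf hfU hf0 hGf (by
            intro h
            have := congrArg Fin.val h
            simp at this)
    · -- odd `k`
      obtain ⟨w, hw, h0, hz⟩ := hne
      rcases key w hw h0 hz with h | hE
      · exact Or.inl h
      · left
        have hGw := hG.1 w hw
        have hGQ : q.Q (G w) = 0 := by rw [hG.2 w hw, h0]
        have hU1 := perp2_ND q hU hw hGw h0 hGQ hz
        have hf1 := perp2_finrank q hw hGw h0 hGQ hz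
        have hG1 := iso_g1 q hG hw h0 hz
        have hs := excm_sys q (n := m' + 2) hU1 (by omega) hG1 hE
        have hT := triB_of_sysB q hs (fun i j hij => by
          rw [Matrix.neg_apply, Matrix.one_apply_ne (ne_of_gt hij), neg_zero])
        have hev : Even (m' + 2) := by
          obtain ⟨j, hj⟩ := hodd
          exact ⟨j, by omega⟩
        refine alt1 q hU hf hG hw h0 hz (fun i => ?_) hT ⟨0, 1, ?_⟩
        · rw [Matrix.neg_apply, Matrix.one_apply_eq]
          exact neg_ne_zero.2 one_ne_zero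
        · have e1 : (1 : Fin (m' + 2 + 1)) = Fin.succ (0 : Fin (m' + 2)) := rfl
          rw [e1, Fin.cons_zero, Fin.cons_succ]
          simp only [Matrix.neg_apply, Matrix.one_apply_eq, Finset.prod_const, Finset.card_univ,
            Fintype.card_fin]
          rw [hev.neg_one_pow, inv_one]
          intro h
          exact h2 (by linear_combination h)
  · push Not at hne
    obtain ⟨c, hE⟩ := sym_exc5 q hU (by omega) hG (fun w1 h1 h3 => hne w1 h1 h3)
    obtain ⟨ε, hε, rfl⟩ := exc_odd q h2 hU (n := k + 1) (by omega) hG hE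
    rcases hsq ε hε with rfl | rfl
    · rw [mul_one] at hE
      exact Or.inr (Or.inl (exc2_sys q k U G hU hf hG hE))
    · rw [mul_neg, mul_one] at hE
      have h3 := exc_m_rk q h2 hU hG hE
      omega

end ThO
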