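import Pool.Agent.ThO.Defs
import Pool.Agent.ThS.Spa

/-! # Module OBas: basic facts -/

namespace ThO
open Matrix Module ThQ

variable {K V : Type*} [Field K] [AddCommGroup V] [Module K V] (q : QF K V)
variable {U : Submodule K V} {G : V →ₗ[K] V}

/-- adding a hyperbolic pair -/
theorem hyp_cons {w w' : V} (hw : w ∈ U) (hw' : w' ∈ U) (h0 : q.Q w = 0) (h0' : q.Q w' = 0)
    (h1 : q.h w' w = 1) {n : ℕ} {v v' : Fin n → V} (h : q.Hyp (q.perp2 U w w') v v') :
    q.Hyp U (Fin.cons w v : Fin (n + 1) → V) (Fin.cons w' v' : Fin (n + 1) → V) := by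
  have m := fun i => (q.mem_perp2).1 (h.mem i)
  have m' := fun i => (q.mem_perp2).1 (h.mem' i)
  refine ⟨?_, ?_, ?_, ?_, ?_, ?_, ?_⟩
  · intro i
    refine Fin.cases ?_ (fun i => ?_) i
    · exact hw
    · exact (m i).1
  · intro i
    refine Fin.cases ?_ (fun i => ?_) i
    · exact hw'
    · exact (m' i).1
  · intro i
    refine Fin.cases ?_ (fun i => ?_) i
    · exact h0
    · exact h.sing i
  · intro i
    refine Fin.cases ?_ (fun i => ?_) i
    · exact h0'
    · exact h.sing' i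
  · intro i j
    refine Fin.cases ?_ (fun i => ?_) i <;> refine Fin.cases ?_ (fun j => ?_) j
    · exact q.h_self_zero h0
    · exact (m j).2.1
    · exact (q.symm w (v i)).trans (m i).2.1
    · exact h.iso i j
  · intro i j
    refine Fin.cases ?_ (fun i => ?_) i <;> refine Fin.cases ?_ (fun j => ?_) j
    · exact q.h_self_zero h0'
    · exact (m' j).2.2
    · exact (q.symm w' (v' i)).trans (m' i).2.2
    · exact h.iso' i j
  · intro i j
    refine Fin.cases ?_ (fun i => ?_) i <;> refine Fin.cases ?_ (fun j => ?_) j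
    · rw [Fin.cons_zero, Fin.cons_zero, h1, if_pos rfl]
    · rw [Fin.cons_zero, Fin.cons_succ, if_neg (Fin.succ_ne_zero j).symm]
      exact (m j).2.2
    · rw [Fin.cons_zero, Fin.cons_succ, if_neg (Fin.succ_ne_zero i), q.symm w (v' i)]
      exact (m' i).2.1
    · simp only [Fin.cons_succ, Fin.succ_inj]
      exact h.dual i j

/-- `sing_ex` gives a singular `w ≠ 0` in `D`, `partner` gives `w'`, `Q (κ • w + w') = κ` -/
theorem univ3 [Finite K] [FiniteDimensional K V] {D : Submodule K V} (hD : q.ND D)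
    (h3 : 3 ≤ finrank K D) (κ : K) : ∃ e ∈ D, q.Q e = κ := by
  obtain ⟨w, hw, hn, h0⟩ := sing_ex q h3
  obtain ⟨w', hw', h0', h1⟩ := partner q hD hw h0 hn
  refine ⟨κ • w + w', D.add_mem (D.smul_mem _ hw) hw', ?_⟩
  rw [q.add, q.smul, h0, h0', q.smul_left, q.symm w' w, h1]
  ring

/-- Induction on `n` (generalize `U`): `sing_ex`, `partner`, `perp2_ND`, `perp2_finrank`, `hyp_cons`. -/
theorem hyp_ex3 [Finite K] [FiniteDimensional K V] (n : ℕ) (U : Submodule K V) (hU : q.ND U)
    (hf : finrank K U = 2 * n + 3) : ∃ w w' : Fin n → V, q.Hyp U w w' := by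
  induction n generalizing U with
  | zero =>
    exact ⟨Fin.elim0, Fin.elim0, ⟨fun i => i.elim0, fun i => i.elim0, fun i => i.elim0,
      fun i => i.elim0, fun i => i.elim0, fun i => i.elim0, fun i => i.elim0⟩⟩
  | succ n ih =>
    obtain ⟨w, hw, hn, h0⟩ := sing_ex q (U := U) (by omega)
    obtain ⟨w', hw', h0', h1⟩ := partner q hU hw h0 hn
    have hne : q.h w w' ≠ 0 := by
      rw [q.symm w' w, h1]
      exact one_ne_zero
    have hfr := perp2_finrank q hw hw' h0 h0' hne
    obtain ⟨v, v', hv⟩ := ih (q.perp2 U w w') (perp2_ND q hU hw hw' h0 h0' hne) (by omega)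
    exact ⟨_, _, hyp_cons q hw hw' h0 h0' h1 hv⟩

/-- If `G x = ε • x` for all `x ∈ U`: any singular vector (`sing_ex`).  Otherwise `w = G x - ε • x ≠ 0` for some `x ∈ U`:
`Q w = Q (G x) + Q x - ε h x (G x) = 2 Q x - 2 ε ^ 2 Q x = 0` and `G w = (2 ε G x - x) - ε G x = ε w` (`exc_sq`). -/
theorem exc_eig [Finite K] [FiniteDimensional K V] (hU : q.ND U) (h3 : 3 ≤ finrank K U)
    (hG : q.Iso U G) {ε : K} (hε : ε ^ 2 = 1) (hE : q.Exc U G (2 * ε)) :
    ∃ w ∈ U, w ≠ 0 ∧ q.Q w = 0 ∧ G w = ε • w := by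
  by_cases hall : ∀ x ∈ U, G x = ε • x
  · obtain ⟨w, hw, hn, h0⟩ := sing_ex q h3
    exact ⟨w, hw, hn, h0, hall w hw⟩
  · push Not at hall
    obtain ⟨x, hx, hne⟩ := hall
    refine ⟨G x - ε • x, U.sub_mem (hG.1 x hx) (U.smul_mem _ hx), sub_ne_zero.2 hne, ?_, ?_⟩
    · rw [q.Q_sub, q.smul, hG.2 x hx, map_smul, smul_eq_mul, q.symm x (G x), hE x hx]
      linear_combination (-q.Q x) * hε
    · rw [map_sub, map_smul, exc_sq q hU hG hE hx, smul_sub, smul_smul]
      have h1 : ε * ε = 1 := by rw [← sq]; exact hε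
      rw [h1, one_smul, two_mul, add_smul]
      abel

/-- the alternating form on the type `U` -/
private def altU {c : K} (hE : q.Exc U G c) (d : K) (hd : 2 * d = c) :
    ThS.AF K U where
  h x := (q.h x.1).comp (G.comp U.subtype) - d • (q.h x.1).comp U.subtype
  alt x := by
    show q.h x.1 (G x.1) - d * q.h x.1 x.1 = 0
    rw [hE x.1 x.2, q.h_self, ← hd]
    ring
  symm x y := by
    show q.h y.1 (G x.1) - d * q.h y.1 x.1 = -(q.h x.1 (G y.1) - d * q.h x.1 y.1)
    have h1 := exc_polar q hE x.2 y.2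
    rw [q.symm x.1 y.1]
    rw [← hd] at h1
    linear_combination h1

private theorem altU_h {c : K} (hE : q.Exc U G c) (d : K) (hd : 2 * d = c)
    (x y : U) : (altU q hE d hd).h x y = q.h x.1 (G y.1) - d * q.h x.1 y.1 := rfl

/-- On the type `U` the form `b x y = h x (G y) - h y (G x)` is alternating (`ThS.AF`); the dimension is odd, so it is
degenerate (`ThS.hyp_all` for `⊤ : Submodule K U`): there is `x ≠ 0` in `U` with `h x (G y) = h y (G x)` for all `y ∈ U`.  With
`exc_polar`: `2 h y (G x) = c h y x` for all `y ∈ U`, so `2 G x = c x` (`ND`; `G x ∈ U`), so `G x = ε x` with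
`ε = c / 2`; `exc_sq` at `x`: `ε ^ 2 = c ε - 1 = 2 ε ^ 2 - 1`, so `ε ^ 2 = 1`. -/
theorem exc_odd [FiniteDimensional K V] (h2 : (2 : K) ≠ 0) (hU : q.ND U) {n : ℕ}
    (hf : finrank K U = 2 * n + 1) (hG : q.Iso U G) {c : K} (hE : q.Exc U G c) :
    ∃ ε : K, ε ^ 2 = 1 ∧ c = 2 * ε := by
  have hd : 2 * (c / 2) = c := by field_simp
  by_cases hND : (altU q hE (c / 2) hd).ND ⊤
  · obtain ⟨m, w, w', hm, -⟩ := ThS.hyp_all (altU q hE (c / 2) hd) ⊤ hND
    rw [finrank_top, hf] at hm
    omega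
  · unfold ThS.AF.ND at hND
    push Not at hND
    obtain ⟨x, -, hx, hne⟩ := hND
    have hxy : ∀ y ∈ U, q.h (G x.1 - (c / 2) • x.1) y = 0 := by
      intro y hy
      have h1 := hx ⟨y, hy⟩ Submodule.mem_top
      rw [altU_h] at h1
      have h3 := exc_polar q hE x.2 hy
      have h4 := q.symm x.1 y
      have h5 := q.symm (G x.1) y
      rw [q.sub_left, q.smul_left]
      have h6 : q.h x.1 (G y) = c / 2 * q.h x.1 y := by linear_combination h1
      rw [h6] at h3
      have h7 : q.h y (G x.1) = c / 2 * q.h x.1 y := by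
        linear_combination h3 + (- q.h x.1 y) * hd
      rw [← h5, h7]
      ring
    have hGx : G x.1 = (c / 2) • x.1 := by
      have := hU _ (U.sub_mem (hG.1 _ x.2) (U.smul_mem (c / 2) x.2)) hxy
      exact sub_eq_zero.1 this
    have hx0 : x.1 ≠ 0 := fun h => hne (Subtype.ext h)
    refine ⟨c / 2, ?_, hd.symm⟩
    have h1 := exc_sq q hU hG hE x.2
    rw [hGx, map_smul, hGx, smul_smul, smul_smul] at h1
    have h3 : ((c / 2) ^ 2 - 1) • x.1 = 0 := by
      have h4 : (c / 2 * (c / 2)) • x.1 - (c * (c / 2)) • x.1 + x.1 = 0 := by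
        rw [h1]; abel
      have h5 : ((c / 2) ^ 2 - 1) • x.1 =
          -((c / 2 * (c / 2)) • x.1 - (c * (c / 2)) • x.1 + x.1) := by
        rw [← sub_smul]
        nth_rewrite 3 [← one_smul K x.1]
        rw [← add_smul, ← neg_smul]
        congr 1
        field_simp
        ring
      rw [h5, h4, neg_zero]
    have h4 := (smul_eq_zero.1 h3).resolve_right hx0
    linear_combination h4

/-- Let `R = U ⊓ ker (G - 1)` and `C` a complement of `R` in `U`: `finrank C = rk U G` (`rk_ker`).  On the type `C` the form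
`b x y = h x (G y) - h x y` is alternating: `b x x = h x (G x) - 2 Q x = 0`, `b y x = - b x y` by `exc_polar`.  It is nondegenerate: if
`b x y = 0` for all `y ∈ C` then for all `y ∈ U` (`G y = y` on `R`), so `0 = b y x = h y (G x - x)` for all
`y ∈ U`, `G x = x`, `x ∈ R ⊓ C`.  So `finrank C` is even by `ThS.hyp_all`. -/
theorem exc_even [FiniteDimensional K V] (hU : q.ND U) (hG : q.Iso U G) (hE : q.Exc U G 2) :
    rk U G % 2 = 0 := by
  obtain ⟨b, hbdef⟩ : ∃ b, b = altU q hE 1 (mul_one 2) := ⟨_, rfl⟩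
  have hb : ∀ x y : U, b.h x y = q.h x.1 (G y.1) - q.h x.1 y.1 := by
    intro x y
    rw [hbdef, altU_h, one_mul]
  -- the kernel
  let R : Submodule K U := (LinearMap.ker (G - LinearMap.id)).comap U.subtype
  have hR : ∀ x : U, x ∈ R ↔ G x.1 = x.1 := by
    intro x
    show (G - LinearMap.id : V →ₗ[K] V) x.1 = 0 ↔ _
    rw [LinearMap.sub_apply, LinearMap.id_apply, sub_eq_zero]
  obtain ⟨C, hC⟩ := Submodule.exists_isCompl R
  have hND : b.ND C := by
    intro x hx hxy
    have h1 : ∀ y : U, b.h x y = 0 := by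
      intro y
      have hy : y ∈ R ⊔ C := by rw [hC.sup_eq_top]; exact Submodule.mem_top
      obtain ⟨r, hr, c, hc, rfl⟩ := Submodule.mem_sup.1 hy
      rw [map_add, hxy c hc, hb, (hR r).1 hr, sub_self, add_zero]
    have h3 : x ∈ R := by
      rw [hR]
      have h4 : G x.1 - x.1 = 0 := by
        refine hU _ (U.sub_mem (hG.1 _ x.2) x.2) fun y hy => ?_
        have h5 := b.swap_zero (h1 ⟨y, hy⟩)
        rw [hb] at h5
        rw [q.sub_left, ← q.symm (G x.1) y, ← q.symm x.1 y]
        exact h5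
      exact sub_eq_zero.1 h4
    have h4 : x ∈ R ⊓ C := ⟨h3, hx⟩
    rw [hC.inf_eq_bot, Submodule.mem_bot] at h4
    exact h4
  obtain ⟨m, w, w', hm, -⟩ := ThS.hyp_all b C hND
  have h1 := Submodule.finrank_add_eq_of_isCompl hC
  have h3 := rk_ker (U := U) (G := G)
  have h4 : finrank K R = finrank K (U ⊓ LinearMap.ker (G - LinearMap.id) : Submodule K V) := by
    have h5 := (Submodule.equivSubtypeMap U R).finrank_eq
    rw [h5]
    show finrank K (((LinearMap.ker (G - LinearMap.id)).comap U.subtype).map U.subtype) = _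
    rw [Submodule.map_comap_subtype]
  omega

/-- `G - 1` is injective on `U`: `G x = x` implies `x = G (G x) = -2 G x - x = -3 x` (`exc_sq`), `4 x = 0`; now `rk_ker`. -/
theorem exc_m_rk [FiniteDimensional K V] (h2 : (2 : K) ≠ 0) (hU : q.ND U) (hG : q.Iso U G)
    (hE : q.Exc U G (-2)) : rk U G = finrank K U := by
  have h3 := rk_ker (U := U) (G := G)
  have h4 : (U ⊓ LinearMap.ker (G - LinearMap.id) : Submodule K V) = ⊥ := by
    rw [eq_bot_iff]
    rintro x ⟨hx, hx2⟩
    rw [SetLike.mem_coe, LinearMap.mem_ker, LinearMap.sub_apply, LinearMap.id_apply,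
      sub_eq_zero] at hx2
    have h5 := exc_sq q hU hG hE hx
    rw [hx2, hx2] at h5
    have h6 : (2 * 2 : K) • x = 0 := by
      have : (2 * 2 : K) • x = x - ((-2 : K) • x - x) := by module
      rw [this, ← h5, sub_self]
    exact (smul_eq_zero.1 h6).resolve_left (mul_ne_zero h2 h2)
  rw [h4, finrank_bot] at h3
  omega

end ThO
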