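import Pool.Agent.ThO.OEi
import Pool.Agent.ThQ.ConjL

/-! # Module OCon: the class of `X = mL B * oD y` -/

namespace ThO
open Matrix Module ThQ

variable {K D : Type*} [Field K] [AddCommGroup D] [Module K D] {k : ℕ}

/-- `y` is unipotent, real and a commutator -/
structure YD (qD : QF K D) (y : IG qD) : Prop where
  uni : ∀ x, nl qD y (nl qD y (nl qD y x)) = 0
  real : ∃ ρ : IG qD, ρ * y * ρ⁻¹ = y⁻¹
  comm : y ∈ commutator (IG qD)

open scoped commutatorElement in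
private theorem comm_mem {G : Type*} [Group G] (a b : G) : a * b * a⁻¹ * b⁻¹ ∈ commutator G :=
  Subgroup.commutator_mem_commutator (Subgroup.mem_top a) (Subgroup.mem_top b)

/-- `ρ = rE d`; `y = z * z` with `z = eich w (2⁻¹ • d)` (`eich_mul`), `ρ z ρ⁻¹ = z⁻¹` (`rE_real`), so
`y = z * (ρ * z⁻¹ * ρ⁻¹)` is a commutator; `eich_cube` -/
theorem yd_eich (h2 : (2 : K) ≠ 0) (qD : QF K D) {w d : D} (h0 : qD.Q w = 0) (h1 : qD.h d w = 0)
    (hd : qD.Q d ≠ 0) : YD qD (eich qD w d h0 h1) := by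
  have hr : ∀ (c : K) (h3 : qD.h (c • d) w = 0), rE qD d hd * eich qD w (c • d) h0 h3 * (rE qD d hd)⁻¹ =
      (eich qD w (c • d) h0 h3)⁻¹ := fun c h3 => rE_real qD hd h0 c h3 h1
  have he : ∀ (d' : D) (h3 : qD.h d' w = 0), d' = d → eich qD w d' h0 h3 = eich qD w d h0 h1 := by
    intro d' h3 h4
    subst h4
    rfl
  refine ⟨fun x => eich_cube qD h0 h1 x, ⟨rE qD d hd, ?_⟩, ?_⟩
  · have h3 : qD.h ((1 : K) • d) w = 0 := by rw [one_smul]; exact h1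
    have h4 := hr 1 h3
    rw [he _ h3 (one_smul K d)] at h4
    exact h4
  · have h3 : qD.h ((2⁻¹ : K) • d) w = 0 := by rw [qD.smul_left, h1, mul_zero]
    have h5 : (2⁻¹ : K) • d + (2⁻¹ : K) • d = d := by
      rw [← add_smul, ← two_mul, mul_inv_cancel₀ h2, one_smul]
    have h6 : qD.h ((2⁻¹ : K) • d + (2⁻¹ : K) • d) w = 0 := by rw [h5]; exact h1
    have h7 := eich_mul qD h0 h3 h3 h6
    rw [he _ h6 h5] at h7
    have h8 := hr 2⁻¹ h3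
    obtain ⟨z, hz⟩ : ∃ z, z = eich qD w ((2⁻¹ : K) • d) h0 h3 := ⟨_, rfl⟩
    rw [← hz] at h7 h8
    rw [← h7]
    have h9 : z * z = z * rE qD d hd * z⁻¹ * (rE qD d hd)⁻¹ := by
      have h10 : z = rE qD d hd * z⁻¹ * (rE qD d hd)⁻¹ := by
        have h11 : (rE qD d hd * z * (rE qD d hd)⁻¹)⁻¹ = z := by rw [h8, inv_inv]
        exact h11.symm.trans (by group)
      calc z * z = z * (rE qD d hd * z⁻¹ * (rE qD d hd)⁻¹) := by rw [← h10]
        _ = _ := by group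
    rw [h9]
    exact comm_mem _ _

/-- the element of the class -/
def XX (qD : QF K D) (B : (Matrix (Fin k) (Fin k) K)ˣ) (y : IG qD) : IG (q0 qD k) :=
  mL qD k B * oD qD k y

/-- `seed_comm`; `oD` maps commutators to commutators -/
theorem comm_XX (qD : QF K D) {B : (Matrix (Fin k) (Fin k) K)ˣ} (hB : SeedQ B) {y : IG qD}
    (hy : YD qD y) : XX qD B y ∈ commutator (IG (q0 qD k)) := by
  refine Subgroup.mul_mem _ (seed_comm qD hB) ?_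
  have h1 : oD qD k y ∈ (commutator (IG qD)).map (oD qD k) := ⟨y, hy.comm, rfl⟩
  rw [commutator_def, Subgroup.map_commutator] at h1
  exact Subgroup.commutator_mono le_top le_top h1

theorem oD_Nm (qD : QF K D) (s : IG qD) {l : IG (q0 qD k)} (hl : l ∈ Nm qD k) :
    oD qD k s * l * (oD qD k s)⁻¹ ∈ Nm qD k := by
  rw [mem_Nm] at hl ⊢
  obtain ⟨h1, h2, h3⟩ := hl
  have hi : ∀ z : D, (s : D ≃ₗ[K] D) (((s⁻¹ : IG qD) : D ≃ₗ[K] D) z) = z := fun z =>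
    (s : D ≃ₗ[K] D).apply_symm_apply z
  rw [← map_inv]
  refine ⟨fun v => ?_, fun y x' => ?_, fun x' => ?_⟩
  · show ((l : V0 K D k ≃ₗ[K] V0 K D k) (v.1, ((s⁻¹ : IG qD) : D ≃ₗ[K] D) v.2.1, v.2.2)).1 = v.1
    rw [h1]
  · show (s : D ≃ₗ[K] D) ((l : V0 K D k ≃ₗ[K] V0 K D k)
      (0, ((s⁻¹ : IG qD) : D ≃ₗ[K] D) y, x')).2.1 = y
    rw [h2, hi]
  · show (oD qD k s : V0 K D k ≃ₗ[K] V0 K D k) ((l : V0 K D k ≃ₗ[K] V0 K D k)
      (0, ((s⁻¹ : IG qD) : D ≃ₗ[K] D) 0, x')) = (0, 0, x')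
    rw [map_zero, h3, oD_apply]
    show (_, (s : D ≃ₗ[K] D) 0, _) = _
    rw [map_zero]

private theorem oD_sw (qD : QF K D) (s : IG qD) : sw qD k * oD qD k s = oD qD k s * sw qD k := rfl

private theorem mo_mul (qD : QF K D) (A A' : (Matrix (Fin k) (Fin k) K)ˣ) (s s' : IG qD) :
    (mL qD k A * oD qD k s) * (mL qD k A' * oD qD k s') = mL qD k (A * A') * oD qD k (s * s') := by
  rw [map_mul, map_mul]
  calc mL qD k A * oD qD k s * (mL qD k A' * oD qD k s') =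
      mL qD k A * (oD qD k s * mL qD k A') * oD qD k s' := by group
    _ = _ := by rw [oD_mL]; group

private theorem mo_inv (qD : QF K D) (A : (Matrix (Fin k) (Fin k) K)ˣ) (s : IG qD) :
    (mL qD k A * oD qD k s)⁻¹ = mL qD k A⁻¹ * oD qD k s⁻¹ := by
  rw [inv_eq_iff_mul_eq_one, mo_mul, mul_inv_cancel, mul_inv_cancel, map_one, map_one, mul_one]

private theorem mo_Nm (qD : QF K D) (A : (Matrix (Fin k) (Fin k) K)ˣ) (s : IG qD)
    {l : IG (q0 qD k)} (hl : l ∈ Nm qD k) :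
    (mL qD k A * oD qD k s) * l * (mL qD k A * oD qD k s)⁻¹ ∈ Nm qD k := by
  have h1 := mL_Nm qD A (oD_Nm qD s hl)
  have h2 : (mL qD k A * oD qD k s) * l * (mL qD k A * oD qD k s)⁻¹ =
      mL qD k A * (oD qD k s * l * (oD qD k s)⁻¹) * (mL qD k A)⁻¹ := by group
  rw [h2]
  exact h1

theorem oD_Np (qD : QF K D) (s : IG qD) {v : IG (q0 qD k)} (hv : v ∈ Np qD k) :
    oD qD k s * v * (oD qD k s)⁻¹ ∈ Np qD k := by
  rw [mem_Np] at hv ⊢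
  have h1 := oD_Nm qD s hv
  have h2 : sw qD k * (oD qD k s * v * (oD qD k s)⁻¹) * (sw qD k)⁻¹ =
      oD qD k s * (sw qD k * v * (sw qD k)⁻¹) * (oD qD k s)⁻¹ := by
    calc sw qD k * (oD qD k s * v * (oD qD k s)⁻¹) * (sw qD k)⁻¹ =
        (sw qD k * oD qD k s) * v * (sw qD k * oD qD k s)⁻¹ := by group
      _ = (oD qD k s * sw qD k) * v * (oD qD k s * sw qD k)⁻¹ := by rw [oD_sw]
      _ = _ := by group
  rw [h2]
  exact h1

private theorem mo_Np (qD : QF K D) (A : (Matrix (Fin k) (Fin k) K)ˣ) (s : IG qD)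
    {v : IG (q0 qD k)} (hv : v ∈ Np qD k) :
    (mL qD k A * oD qD k s) * v * (mL qD k A * oD qD k s)⁻¹ ∈ Np qD k := by
  have h1 := mL_Np qD A (oD_Np qD s hv)
  have h2 : (mL qD k A * oD qD k s) * v * (mL qD k A * oD qD k s)⁻¹ =
      mL qD k A * (oD qD k s * v * (oD qD k s)⁻¹) * (mL qD k A)⁻¹ := by group
  rw [h2]
  exact h1

private theorem XX_apply (qD : QF K D) (B : (Matrix (Fin k) (Fin k) K)ˣ) (y : IG qD)
    (v : V0 K D k) : (XX qD B y : V0 K D k ≃ₗ[K] V0 K D k) v =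
      ((B : Matrix (Fin k) (Fin k) K) *ᵥ v.1, (y : D ≃ₗ[K] D) v.2.1,
        ((B⁻¹ : (Matrix (Fin k) (Fin k) K)ˣ) : Matrix (Fin k) (Fin k) K)ᵀ *ᵥ v.2.2) := rfl

/-- See `ThQ.cent_Nm`: `u (x, z, x') = (x, z + α x, x' + β z + Z x)`.  `u` commutes with `X`: `α (B x) = y (α x)`, so with
`N = y - 1`: `N (α x) = α (B x - x)`, `0 = N ^ 3 (α x) = α ((B - 1) ^ 3 x)`, and `B - 1` is onto (`n1`), so `α = 0`; then `β = 0` by the
isometry property, and `Bᵀ Z B = Z`, so `Z = 0` by `syl`. -/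
theorem cent_XX (qD : QF K D) {B : (Matrix (Fin k) (Fin k) K)ˣ} (hB : SeedQ B) {y : IG qD}
    (hy : YD qD y) {u : IG (q0 qD k)} (hu : u ∈ Nm qD k) (hc : u * XX qD B y = XX qD B y * u) :
    u = 1 := by
  classical
  obtain ⟨h1, h2, h3⟩ := mem_Nm.1 hu
  set U : V0 K D k ≃ₗ[K] V0 K D k := (u : V0 K D k ≃ₗ[K] V0 K D k) with hU
  have hcom : ∀ v, U ((XX qD B y : V0 K D k ≃ₗ[K] V0 K D k) v) =
      (XX qD B y : V0 K D k ≃ₗ[K] V0 K D k) (U v) := fun v =>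
    congrArg (fun g : IG (q0 qD k) => (g : V0 K D k ≃ₗ[K] V0 K D k) v) hc
  let ι : (Fin k → K) →ₗ[K] V0 K D k := LinearMap.inl K (Fin k → K) (D × (Fin k → K))
  have hι : ∀ x, ι x = (x, 0, 0) := fun x => rfl
  let α : (Fin k → K) →ₗ[K] D := LinearMap.fst K D (Fin k → K) ∘ₗ
    LinearMap.snd K (Fin k → K) (D × (Fin k → K)) ∘ₗ (U : V0 K D k →ₗ[K] V0 K D k) ∘ₗ ι
  let Z : (Fin k → K) →ₗ[K] (Fin k → K) := LinearMap.snd K D (Fin k → K) ∘ₗ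
    LinearMap.snd K (Fin k → K) (D × (Fin k → K)) ∘ₗ (U : V0 K D k →ₗ[K] V0 K D k) ∘ₗ ι
  have hUx : ∀ x, U (x, 0, 0) = (x, α x, Z x) := fun x => Prod.ext (h1 _) rfl
  have hmx : ∀ x : Fin k → K, (XX qD B y : V0 K D k ≃ₗ[K] V0 K D k) (x, 0, 0) =
      ((B : Matrix (Fin k) (Fin k) K) *ᵥ x, 0, 0) := by
    intro x
    rw [XX_apply]
    simp
  have key : ∀ x, α ((B : Matrix (Fin k) (Fin k) K) *ᵥ x) = (y : D ≃ₗ[K] D) (α x) ∧
      Z ((B : Matrix (Fin k) (Fin k) K) *ᵥ x) =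
        ((B⁻¹ : (Matrix (Fin k) (Fin k) K)ˣ) : Matrix (Fin k) (Fin k) K)ᵀ *ᵥ Z x := by
    intro x
    have h4 := hcom (x, 0, 0)
    rw [hmx, hUx, hUx, XX_apply] at h4
    have h5 := congrArg (fun v : V0 K D k => v.2.1) h4
    have h6 := congrArg (fun v : V0 K D k => v.2.2) h4
    exact ⟨h5, h6⟩
  -- `α = 0`
  have hα : ∀ x, α x = 0 := by
    let L : (Fin k → K) →ₗ[K] (Fin k → K) :=
      Matrix.toLin' (B : Matrix (Fin k) (Fin k) K) - LinearMap.id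
    have hL : Function.Injective L := by
      rw [← LinearMap.ker_eq_bot, LinearMap.ker_eq_bot']
      intro x hx
      refine hB.n1 x ?_
      have h5 : (B : Matrix (Fin k) (Fin k) K) *ᵥ x - x = 0 := hx
      exact sub_eq_zero.1 h5
    have hLs : Function.Surjective L := LinearMap.injective_iff_surjective.1 hL
    have hLα : ∀ x, nl qD y (α x) = α (L x) := by
      intro x
      have h6 : L x = (B : Matrix (Fin k) (Fin k) K) *ᵥ x - x := rfl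
      rw [h6, map_sub, (key x).1, nl_apply]
    intro x
    obtain ⟨x1, rfl⟩ := hLs x
    obtain ⟨x2, rfl⟩ := hLs x1
    obtain ⟨x3, rfl⟩ := hLs x2
    rw [← hLα, ← hLα, ← hLα]
    exact hy.uni _
  -- `Z = 0`
  have hZ : ∀ x, Z x = 0 := by
    let M : Matrix (Fin k) (Fin k) K := LinearMap.toMatrix' Z
    have hM : ∀ x, M *ᵥ x = Z x := fun x => by
      rw [← Matrix.toLin'_apply, Matrix.toLin'_toMatrix']
    have h7 : M * (B : Matrix (Fin k) (Fin k) K) =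
        ((B⁻¹ : (Matrix (Fin k) (Fin k) K)ˣ) : Matrix (Fin k) (Fin k) K)ᵀ * M := by
      apply Matrix.toLin'.injective
      apply LinearMap.ext
      intro x
      rw [Matrix.toLin'_apply, Matrix.toLin'_apply, ← Matrix.mulVec_mulVec,
        ← Matrix.mulVec_mulVec, hM, hM]
      exact (key x).2
    have h8 : (B : Matrix (Fin k) (Fin k) K)ᵀ * M * (B : Matrix (Fin k) (Fin k) K) = M := by
      rw [Matrix.mul_assoc, h7, ← Matrix.mul_assoc, ← Matrix.transpose_mul, Units.inv_mul,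
        Matrix.transpose_one, Matrix.one_mul]
    have h9 := hB.syl M h8
    intro x
    rw [← hM, h9, Matrix.zero_mulVec]
  have hβ : ∀ y, U (0, y, 0) = (0, y, 0) := by
    intro y
    refine Prod.ext (h1 _) (Prod.ext (h2 y 0) ?_)
    have h10 : (q0 qD k).Iso ⊤ (U : V0 K D k →ₗ[K] V0 K D k) :=
      ⟨fun _ _ => trivial, fun x _ => u.2 x⟩
    funext i
    have h11 : (q0 qD k).h (U (0, y, 0)) (U (Pi.single i 1, 0, 0)) =
        (q0 qD k).h (0, y, 0) (Pi.single i 1, 0, 0) :=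
      h10.h (x := (0, y, 0)) (y := (Pi.single i 1, 0, 0)) trivial trivial
    rw [hUx, hα, hZ, q0_h, q0_h] at h11
    simpa using h11
  apply Subtype.ext
  apply LinearEquiv.ext
  intro v
  show U v = v
  have h12 : v = (v.1, 0, 0) + ((0, v.2.1, 0) + (0, 0, v.2.2)) := by
    obtain ⟨a, b, c⟩ := v
    simp
  rw [h12, map_add, map_add, hUx, hα, hZ, hβ, h3]

/-- as `ThQ.conj_low` -/
theorem conj_XX [Finite K] [Finite D] (qD : QF K D) {B : (Matrix (Fin k) (Fin k) K)ˣ}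
    (hB : SeedQ B) {y : IG qD} (hy : YD qD y) {l : IG (q0 qD k)} (hl : l ∈ Nm qD k) :
    ∃ u ∈ Nm qD k, l * XX qD B y = u * XX qD B y * u⁻¹ := by
  obtain ⟨x, hx⟩ : ∃ x, x = XX qD B y := ⟨_, rfl⟩
  rw [← hx]
  have hfinE : Finite (V0 K D k ≃ₗ[K] V0 K D k) := DFunLike.finite _
  have hN : ∀ u ∈ Nm qD k, u * x * u⁻¹ * x⁻¹ ∈ Nm qD k := by
    intro u hu
    have h1 := mo_Nm qD B y ((Nm qD k).inv_mem hu)
    have h2 := (Nm qD k).mul_mem hu h1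
    have h3 : u * x * u⁻¹ * x⁻¹ = u * (x * u⁻¹ * x⁻¹) := by group
    rw [h3, hx]
    exact h2
  let φ : Nm qD k → Nm qD k := fun u => ⟨u * x * (u : IG (q0 qD k))⁻¹ * x⁻¹, hN _ u.2⟩
  have hφ : Function.Injective φ := by
    intro u v huv
    have h4 : (u : IG (q0 qD k)) * x * (u : IG (q0 qD k))⁻¹ * x⁻¹ =
        v * x * (v : IG (q0 qD k))⁻¹ * x⁻¹ := congrArg Subtype.val huv
    have h5 : (u : IG (q0 qD k)) * x * (u : IG (q0 qD k))⁻¹ = v * x * (v : IG (q0 qD k))⁻¹ :=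
      mul_right_cancel h4
    have h6 : ((v : IG (q0 qD k))⁻¹ * u) * x = x * ((v : IG (q0 qD k))⁻¹ * u) := by
      have h7 : (v : IG (q0 qD k))⁻¹ * (u * x * (u : IG (q0 qD k))⁻¹) * u =
          (v : IG (q0 qD k))⁻¹ * (v * x * (v : IG (q0 qD k))⁻¹) * u := by rw [h5]
      calc ((v : IG (q0 qD k))⁻¹ * u) * x
          = (v : IG (q0 qD k))⁻¹ * (u * x * (u : IG (q0 qD k))⁻¹) * u := by group
        _ = (v : IG (q0 qD k))⁻¹ * (v * x * (v : IG (q0 qD k))⁻¹) * u := h7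
        _ = x * ((v : IG (q0 qD k))⁻¹ * u) := by group
    rw [hx] at h6
    have h8 := cent_XX qD hB hy ((Nm qD k).mul_mem ((Nm qD k).inv_mem v.2) u.2) h6
    apply Subtype.ext
    rw [inv_mul_eq_one] at h8
    exact h8.symm
  have hsurj : Function.Surjective φ := Finite.injective_iff_surjective.1 hφ
  obtain ⟨u, hu⟩ := hsurj ⟨l, hl⟩
  refine ⟨u, u.2, ?_⟩
  have h9 : (u : IG (q0 qD k)) * x * (u : IG (q0 qD k))⁻¹ * x⁻¹ = l := congrArg Subtype.val hu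
  rw [← h9, inv_mul_cancel_right]

private theorem swmL_real (qD : QF K D) {C d : (Matrix (Fin k) (Fin k) K)ˣ}
    (h : (d : Matrix (Fin k) (Fin k) K) * C = (C : Matrix (Fin k) (Fin k) K)ᵀ * d) :
    (sw qD k * mL qD k d) * mL qD k C * (sw qD k * mL qD k d)⁻¹ = (mL qD k C)⁻¹ := by
  have h1 : ((d * C * d⁻¹ : (Matrix (Fin k) (Fin k) K)ˣ) : Matrix (Fin k) (Fin k) K) =
      (C : Matrix (Fin k) (Fin k) K)ᵀ := by
    rw [Units.val_mul, Units.val_mul, h, Matrix.mul_assoc, Units.mul_inv, Matrix.mul_one]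
  have h2 : (((d * C * d⁻¹)⁻¹ : (Matrix (Fin k) (Fin k) K)ˣ) : Matrix (Fin k) (Fin k) K) =
      ((C⁻¹ : (Matrix (Fin k) (Fin k) K)ˣ) : Matrix (Fin k) (Fin k) K)ᵀ := by
    apply Units.inv_eq_of_mul_eq_one_right
    rw [h1, ← Matrix.transpose_mul, Units.inv_mul, Matrix.transpose_one]
  have h3 := sw_mL qD (d * C * d⁻¹) C⁻¹ (by rw [h2, Matrix.transpose_transpose])
  rw [← map_inv, ← h3, map_mul, map_mul, map_inv]
  group

private theorem sw_inv (qD : QF K D) : (sw qD k)⁻¹ = sw qD k := rfl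

/-- `t = sw * mL d * oD ρ`, `d B = Bᵀ d` (from `root`), `ρ y ρ⁻¹ = y⁻¹`; see `ThQ.seed_real`; `oD` commutes with `sw` and `mL` -/
theorem real_XX (qD : QF K D) {B : (Matrix (Fin k) (Fin k) K)ˣ} (hB : SeedQ B) {y : IG qD}
    (hy : YD qD y) : ∃ t : IG (q0 qD k), t * XX qD B y * t⁻¹ = (XX qD B y)⁻¹ ∧
      ∀ v ∈ Np qD k, t⁻¹ * v * t ∈ Nm qD k := by
  obtain ⟨C, d, hC, hd⟩ := hB.root
  obtain ⟨ρ, hρ⟩ := hy.real
  have hdB : (d : Matrix (Fin k) (Fin k) K) * B = (B : Matrix (Fin k) (Fin k) K)ᵀ * d := by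
    rw [← hC, Units.val_mul, Matrix.transpose_mul, ← Matrix.mul_assoc, hd, Matrix.mul_assoc, hd,
      Matrix.mul_assoc]
  have hr := swmL_real qD hdB
  refine ⟨sw qD k * (mL qD k d * oD qD k ρ), ?_, fun v hv => ?_⟩
  · show sw qD k * (mL qD k d * oD qD k ρ) * (mL qD k B * oD qD k y) *
      (sw qD k * (mL qD k d * oD qD k ρ))⁻¹ = (mL qD k B * oD qD k y)⁻¹
    have e1 : (mL qD k d * oD qD k ρ) * (mL qD k B * oD qD k y) * (mL qD k d * oD qD k ρ)⁻¹ =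
        (mL qD k d * mL qD k B * (mL qD k d)⁻¹) * oD qD k y⁻¹ := by
      rw [mo_inv, mo_mul, mo_mul, hρ, map_mul, map_mul, map_inv]
    have e2 : oD qD k y⁻¹ * (sw qD k)⁻¹ = (sw qD k)⁻¹ * oD qD k y⁻¹ := rfl
    calc sw qD k * (mL qD k d * oD qD k ρ) * (mL qD k B * oD qD k y) *
        (sw qD k * (mL qD k d * oD qD k ρ))⁻¹ =
        sw qD k * ((mL qD k d * oD qD k ρ) * (mL qD k B * oD qD k y) *
          (mL qD k d * oD qD k ρ)⁻¹) * (sw qD k)⁻¹ := by group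
      _ = sw qD k * ((mL qD k d * mL qD k B * (mL qD k d)⁻¹) * oD qD k y⁻¹) * (sw qD k)⁻¹ := by
        rw [e1]
      _ = sw qD k * (mL qD k d * mL qD k B * (mL qD k d)⁻¹) * (oD qD k y⁻¹ * (sw qD k)⁻¹) := by
        group
      _ = sw qD k * (mL qD k d * mL qD k B * (mL qD k d)⁻¹) * ((sw qD k)⁻¹ * oD qD k y⁻¹) := by
        rw [e2]
      _ = (sw qD k * mL qD k d * mL qD k B * (sw qD k * mL qD k d)⁻¹) * oD qD k y⁻¹ := by group
      _ = (mL qD k B)⁻¹ * oD qD k y⁻¹ := by rw [hr]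
      _ = (mL qD k B * oD qD k y)⁻¹ := by rw [mo_inv, map_inv (mL qD k) B]
  · have h1 := mo_Nm qD d⁻¹ ρ⁻¹ (mem_Np.1 hv)
    have h2 : (sw qD k * (mL qD k d * oD qD k ρ))⁻¹ * v * (sw qD k * (mL qD k d * oD qD k ρ)) =
        (mL qD k d⁻¹ * oD qD k ρ⁻¹) * (sw qD k * v * (sw qD k)⁻¹) *
          (mL qD k d⁻¹ * oD qD k ρ⁻¹)⁻¹ := by
      have h3 : (sw qD k)⁻¹ * v * sw qD k = sw qD k * v * (sw qD k)⁻¹ := by
        rw [sw_inv]
      rw [← h3, ← mo_inv]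
      group
    rw [h2]
    exact h1

/-- The element `g = l * mL u * oD s * v` with `S u S⁻¹ = T B T⁻¹ B⁻¹` and `s = (σ y σ⁻¹) (σ' y σ'⁻¹)`.  `u = (A B A⁻¹) (C B⁻¹ C⁻¹)` with
`A = S⁻¹ T`, `C = S⁻¹` (as units), and `s = (σ y σ⁻¹) (τ y⁻¹ τ⁻¹)` with `τ = σ' ρ⁻¹`.  `oD` and `mL` commute, so with
`M = mL A * oD σ`, `M' = mL C * oD τ`: `g = (l * M * X * M⁻¹) * (M' * X⁻¹ * M'⁻¹ * v)`.
`l * M * X * M⁻¹ = M * (l' * X) * M⁻¹` with `l' = M⁻¹ l M ∈ Nm` is a conjugate of `X` (`conj_XX`).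
`M' * X⁻¹ * M'⁻¹ * v = M' * (X⁻¹ * v') * M'⁻¹`, `v' ∈ Np`; `X⁻¹ * v' = t * (X * v'') * t⁻¹`, `v'' = t⁻¹ v' t ∈ Nm` (`real_XX`), and
`X * v'' = (X v'' X⁻¹) * X` is a conjugate of `X` (`mL_Nm`, `oD_Nm`, `conj_XX`).  See `ThQ.main_block`. -/
theorem main_XX [Finite K] [Finite D] (qD : QF K D) {B : (Matrix (Fin k) (Fin k) K)ˣ}
    (hB : SeedQ B) {y : IG qD} (hy : YD qD y) {l v : IG (q0 qD k)} (hl : l ∈ Nm qD k)
    (hv : v ∈ Np qD k) {u : (Matrix (Fin k) (Fin k) K)ˣ} {S T : Matrix (Fin k) (Fin k) K}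
    (hS : IsUnit S.det) (hT : IsUnit T.det) (hST : S * (u : Matrix (Fin k) (Fin k) K) * S⁻¹ =
      T * (B : Matrix (Fin k) (Fin k) K) * T⁻¹ * (B : Matrix (Fin k) (Fin k) K)⁻¹)
    {s σ σ' : IG qD} (hs : s = σ * y * σ⁻¹ * (σ' * y * σ'⁻¹)) :
    ∃ r r' : IG (q0 qD k), l * mL qD k u * oD qD k s * v =
      r * XX qD B y * r⁻¹ * (r' * XX qD B y * r'⁻¹) := by
  have hSu := Matrix.isUnit_iff_isUnit_det S |>.2 hS
  have hTu := Matrix.isUnit_iff_isUnit_det T |>.2 hT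
  obtain ⟨S, rfl⟩ := hSu
  obtain ⟨T, rfl⟩ := hTu
  have h1 : S * u * S⁻¹ = T * B * T⁻¹ * B⁻¹ := by
    apply Units.ext
    simp only [Units.val_mul, Matrix.coe_units_inv]
    exact hST
  obtain ⟨ρ, hρ⟩ := hy.real
  obtain ⟨t, ht1, ht2⟩ := real_XX qD hB hy
  obtain ⟨x, hx⟩ : ∃ x, x = XX qD B y := ⟨_, rfl⟩
  obtain ⟨a, ha⟩ : ∃ a, a = mL qD k (S⁻¹ * T) * oD qD k σ := ⟨_, rfl⟩
  obtain ⟨c, hc⟩ : ∃ c, c = mL qD k S⁻¹ * oD qD k (σ' * ρ⁻¹) := ⟨_, rfl⟩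
  have hxi : x⁻¹ = mL qD k B⁻¹ * oD qD k y⁻¹ := by
    rw [hx]
    exact mo_inv qD B y
  have hx' : x = mL qD k B * oD qD k y := hx
  have hu : mL qD k u * oD qD k s = a * x * a⁻¹ * (c * x⁻¹ * c⁻¹) := by
    have h2 : u = (S⁻¹ * T) * B * (S⁻¹ * T)⁻¹ * (S⁻¹ * B⁻¹ * (S⁻¹)⁻¹) := by
      calc u = S⁻¹ * (S * u * S⁻¹) * S := by group
        _ = S⁻¹ * (T * B * T⁻¹ * B⁻¹) * S := by rw [h1]
        _ = _ := by group
    have h3 : s = σ * y * σ⁻¹ * (σ' * ρ⁻¹ * y⁻¹ * (σ' * ρ⁻¹)⁻¹) := by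
      rw [hs, ← hρ]
      group
    rw [ha, hc, hxi, hx', mo_inv, mo_inv, mo_mul, mo_mul, mo_mul, mo_mul, mo_mul, ← h2, ← h3]
  -- first factor
  have hl' : a⁻¹ * l * a ∈ Nm qD k := by
    have h3 := mo_Nm qD (S⁻¹ * T)⁻¹ σ⁻¹ hl
    rw [← mo_inv, ← ha, inv_inv] at h3
    exact h3
  obtain ⟨u1, -, hu1⟩ := conj_XX qD hB hy hl'
  -- second factor
  have hv' : c⁻¹ * v * c ∈ Np qD k := by
    have h3 := mo_Np qD (S⁻¹)⁻¹ (σ' * ρ⁻¹)⁻¹ hv
    rw [← mo_inv, ← hc, inv_inv] at h3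
    exact h3
  have hv'' := ht2 _ hv'
  obtain ⟨u2, -, hu2⟩ := conj_XX qD hB hy (mo_Nm qD B y hv'')
  rw [← hx'] at hu2
  rw [← hx] at hu1 hu2 ht1
  rw [inv_mul_cancel_right] at hu2
  refine ⟨a * u1, c * t * u2, ?_⟩
  rw [← hx]
  have e1 : l * (a * x * a⁻¹) = a * u1 * x * (a * u1)⁻¹ := by
    calc l * (a * x * a⁻¹) = a * ((a⁻¹ * l * a) * x) * a⁻¹ := by group
      _ = a * (u1 * x * u1⁻¹) * a⁻¹ := by rw [hu1]
      _ = _ := by group
  have e2 : (c * x⁻¹ * c⁻¹) * v = c * t * u2 * x * (c * t * u2)⁻¹ := by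
    calc (c * x⁻¹ * c⁻¹) * v = c * (x⁻¹ * (c⁻¹ * v * c)) * c⁻¹ := by group
      _ = c * ((t * x * t⁻¹) * (c⁻¹ * v * c)) * c⁻¹ := by rw [ht1]
      _ = c * (t * (x * (t⁻¹ * (c⁻¹ * v * c) * t)) * t⁻¹) * c⁻¹ := by group
      _ = c * (t * (u2 * x * u2⁻¹) * t⁻¹) * c⁻¹ := by rw [hu2]
      _ = _ := by group
  calc l * mL qD k u * oD qD k s * v = l * (mL qD k u * oD qD k s) * v := by group
    _ = l * (a * x * a⁻¹ * (c * x⁻¹ * c⁻¹)) * v := by rw [hu]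
    _ = (l * (a * x * a⁻¹)) * ((c * x⁻¹ * c⁻¹) * v) := by group
    _ = _ := by rw [e1, e2]

end ThO
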