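import Pool.Agent.ThO.ORfl
import Pool.Agent.ThQ.Witt
import Pool.Agent.ThQ.Sing

/-! # Module OEi: Eichler elements -/

namespace ThO
open Matrix Module ThQ

variable {K V : Type*} [Field K] [AddCommGroup V] [Module K V] (q : QF K V)

/-- the Eichler transformation as a linear map -/
noncomputable def eiL (w u : V) : V →ₗ[K] V :=
  LinearMap.id + (q.h w).smulRight u - (q.h u).smulRight w - (q.h w).smulRight (q.Q u • w)

theorem eiL_apply (w u x : V) : eiL q w u x =
    x + q.h x w • u - q.h x u • w - (q.Q u * q.h x w) • w := by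
  rw [q.symm w x, q.symm u x]
  simp only [eiL, LinearMap.sub_apply, LinearMap.add_apply, LinearMap.id_apply,
    LinearMap.smulRight_apply, smul_smul]
  rw [mul_comm (q.Q u)]

/-- `eiL w u (eiL w u' x) = eiL w (u + u') x` for `Q w = 0`, `h u w = h u' w = 0`: `h (eiL w u' x) w = h x w`,
`h (eiL w u' x) u = h x u + h x w h u' u` -/
theorem eiL_add {w u u' : V} (h0 : q.Q w = 0) (h1 : q.h u w = 0) (h1' : q.h u' w = 0) (x : V) :
    eiL q w u (eiL q w u' x) = eiL q w (u + u') x := by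
  have h2 : q.h w u = 0 := by rw [q.symm u w, h1]
  have e1 : q.h (eiL q w u' x) w = q.h x w := by
    rw [eiL_apply, q.sub_left, q.sub_left, q.add_left, q.smul_left, q.smul_left, q.smul_left,
      q.h_self_zero h0, h1']
    ring
  have e2 : q.h (eiL q w u' x) u = q.h x u + q.h x w * q.h u' u := by
    rw [eiL_apply, q.sub_left, q.sub_left, q.add_left, q.smul_left, q.smul_left, q.smul_left, h2]
    ring
  have e3 : q.h x (u + u') = q.h x u + q.h x u' := map_add _ _ _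
  rw [eiL_apply q w u, e1, e2, eiL_apply, eiL_apply, e3, q.add, q.symm u u']
  module

theorem eiL_Q {w u : V} (h0 : q.Q w = 0) (h1 : q.h u w = 0) (x : V) : q.Q (eiL q w u x) = q.Q x := by
  have h2 : q.h w u = 0 := by rw [q.symm u w, h1]
  rw [eiL_apply, q.Q_sub, q.Q_sub, q.add]
  simp only [q.smul, map_smul, smul_eq_mul, q.sub_left, q.add_left, q.smul_left, h0, h1,
    q.h_self_zero h0]
  ring

/-- the Eichler transformation as an isometry (the inverse is the one for `-u`) -/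
noncomputable def eich (w u : V) (h0 : q.Q w = 0) (h1 : q.h u w = 0) : IG q :=
  ⟨LinearEquiv.ofLinearMap (eiL q w u) (eiL q w (-u)) (by
    ext x
    show eiL q w u (eiL q w (-u) x) = x
    rw [eiL_add q h0 h1 (by rw [q.neg_left, h1, neg_zero]), add_neg_cancel, eiL_apply]
    simp [q.Q_zero]) (by
    ext x
    show eiL q w (-u) (eiL q w u x) = x
    rw [eiL_add q h0 (by rw [q.neg_left, h1, neg_zero]) h1, neg_add_cancel, eiL_apply]
    simp [q.Q_zero]), fun x => eiL_Q q h0 h1 x⟩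

private theorem ig_h (p : IG q) (x y : V) :
    q.h ((p : V ≃ₗ[K] V) x) ((p : V ≃ₗ[K] V) y) = q.h x y := by
  have h : q.Iso ⊤ ((p : V ≃ₗ[K] V) : V →ₗ[K] V) :=
    ⟨fun _ _ => Submodule.mem_top, fun x _ => p.2 x⟩
  exact h.h Submodule.mem_top Submodule.mem_top

theorem eich_apply (w u : V) (h0 : q.Q w = 0) (h1 : q.h u w = 0) (x : V) :
    (eich q w u h0 h1 : V ≃ₗ[K] V) x = x + q.h x w • u - q.h x u • w - (q.Q u * q.h x w) • w :=
  eiL_apply q w u x

/-- `eiL_add` -/
theorem eich_mul {w u u' : V} (h0 : q.Q w = 0) (h1 : q.h u w = 0) (h1' : q.h u' w = 0)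
    (h1'' : q.h (u + u') w = 0) :
    eich q w u h0 h1 * eich q w u' h0 h1' = eich q w (u + u') h0 h1'' := by
  apply Subtype.ext
  apply LinearEquiv.ext
  intro x
  show eiL q w u (eiL q w u' x) = eiL q w (u + u') x
  exact eiL_add q h0 h1 h1' x

theorem eich_inv {w u : V} (h0 : q.Q w = 0) (h1 : q.h u w = 0) (h1' : q.h (-u) w = 0) :
    (eich q w u h0 h1)⁻¹ = eich q w (-u) h0 h1' := by
  rw [inv_eq_iff_mul_eq_one]
  apply Subtype.ext
  apply LinearEquiv.ext
  intro x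
  show eiL q w u (eiL q w (-u) x) = x
  rw [eiL_add q h0 h1 h1', add_neg_cancel, eiL_apply]
  simp [q.Q_zero]

theorem eich_conj (p : IG q) {w u : V} (h0 : q.Q w = 0) (h1 : q.h u w = 0)
    (h0' : q.Q ((p : V ≃ₗ[K] V) w) = 0) (h1' : q.h ((p : V ≃ₗ[K] V) u) ((p : V ≃ₗ[K] V) w) = 0) :
    p * eich q w u h0 h1 * p⁻¹ = eich q ((p : V ≃ₗ[K] V) w) ((p : V ≃ₗ[K] V) u) h0' h1' := by
  rw [mul_inv_eq_iff_eq_mul]
  apply Subtype.ext
  apply LinearEquiv.ext
  intro x
  show (p : V ≃ₗ[K] V) ((eich q w u h0 h1 : V ≃ₗ[K] V) x) =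
    (eich q ((p : V ≃ₗ[K] V) w) ((p : V ≃ₗ[K] V) u) h0' h1' : V ≃ₗ[K] V) ((p : V ≃ₗ[K] V) x)
  rw [eich_apply, eich_apply, ig_h q p, ig_h q p, p.2 u, map_sub, map_sub, map_add, map_smul,
    map_smul, map_smul]

theorem eich_smul {w u : V} (t : K) (h0 : q.Q (t • w) = 0) (h1 : q.h u (t • w) = 0)
    (h0' : q.Q w = 0) (h1' : q.h (t • u) w = 0) : eich q (t • w) u h0 h1 = eich q w (t • u) h0' h1' := by
  apply Subtype.ext
  apply LinearEquiv.ext
  intro x
  rw [eich_apply, eich_apply, map_smul, map_smul, q.smul]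
  module

/-- `g - 1` as a linear map -/
def nl (g : IG q) : V →ₗ[K] V := ((g : V ≃ₗ[K] V) : V →ₗ[K] V) - LinearMap.id

theorem nl_apply (g : IG q) (x : V) : nl q g x = (g : V ≃ₗ[K] V) x - x := rfl

/-- `(E - 1) ^ 3 = 0`: `(E - 1) w = 0`, `(E - 1) u = - 2 Q u w`, `(E - 1) ^ 2 x = - 2 Q u h x w • w` -/
theorem eich_cube {w u : V} (h0 : q.Q w = 0) (h1 : q.h u w = 0) (x : V) :
    nl q (eich q w u h0 h1) (nl q (eich q w u h0 h1) (nl q (eich q w u h0 h1) x)) = 0 := by
  have h2 : q.h w u = 0 := by rw [q.symm u w, h1]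
  have hn : ∀ y, nl q (eich q w u h0 h1) y = q.h y w • u - q.h y u • w - (q.Q u * q.h y w) • w := by
    intro y
    rw [nl_apply, eich_apply]
    abel
  have e1 : ∀ y, q.h (nl q (eich q w u h0 h1) y) w = 0 := by
    intro y
    rw [hn, q.sub_left, q.sub_left, q.smul_left, q.smul_left, q.smul_left, h1, q.h_self_zero h0]
    ring
  have e2 : ∀ y, q.h (nl q (eich q w u h0 h1) y) u = 2 * q.Q u * q.h y w := by
    intro y
    rw [hn, q.sub_left, q.sub_left, q.smul_left, q.smul_left, q.smul_left, h2, q.h_self]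
    ring
  rw [hn (nl q (eich q w u h0 h1) (nl q (eich q w u h0 h1) x)), e1, e2, e1]
  simp

/-- A product of two reflections in vectors of the same norm `m = Q e`, which differ by a singular vector `p` orthogonal to the first one:
`refl (e + p) x = x - ((h e x + h p x) / m) (e + p)`, `refl e (e + p) = - e + p`, so the product maps `x` to
`x + (h p x / m) e - (h e x / m) p - (h p x / m) p`, and `Q (m⁻¹ e) = m⁻¹`. -/
theorem rE_eich {e p : V} (he : q.Q e ≠ 0) (hp : q.Q p = 0) (h : q.h e p = 0)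
    (he' : q.Q (e + p) ≠ 0) (h1 : q.h ((q.Q e)⁻¹ • e) p = 0) :
    rE q e he * rE q (e + p) he' = eich q p ((q.Q e)⁻¹ • e) hp h1 := by
  apply Subtype.ext
  apply LinearEquiv.ext
  intro x
  show q.refl e (q.refl (e + p) x) = (eich q p ((q.Q e)⁻¹ • e) hp h1 : V ≃ₗ[K] V) x
  have hQ : q.Q (e + p) = q.Q e := by rw [q.add, hp, h, add_zero, add_zero]
  have hpe : q.h p e = 0 := by rw [q.symm e p, h]
  rw [eich_apply, q.refl_apply, q.refl_apply, hQ, q.add_left, map_sub, map_smul, map_add,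
    q.h_self, h, map_smul, q.smul, q.symm e x, q.symm p x, smul_eq_mul, smul_eq_mul]
  match_scalars <;> field_simp <;> ring

/-- `f` is orthogonal to `w` (`h f w = 0`) : `rE f` maps `w` to `w` and `f` to `-f` -/
theorem rE_real {w f : V} (hf : q.Q f ≠ 0) (h0 : q.Q w = 0) (c : K) (h1 : q.h (c • f) w = 0)
    (h1' : q.h f w = 0) :
    rE q f hf * eich q w (c • f) h0 h1 * (rE q f hf)⁻¹ = (eich q w (c • f) h0 h1)⁻¹ := by
  have ew : q.refl f w = w := refl_fix q h1'
  have ef : q.refl f (c • f) = -(c • f) := by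
    rw [map_smul, q.refl_apply, q.h_self, mul_assoc, mul_inv_cancel₀ hf]
    module
  have h2 : q.h (-(c • f)) w = 0 := by rw [q.neg_left, h1, neg_zero]
  rw [eich_inv q h0 h1 h2]
  have h3 : q.Q ((rE q f hf : V ≃ₗ[K] V) w) = 0 := by rw [rE_apply, ew, h0]
  have h4 : q.h ((rE q f hf : V ≃ₗ[K] V) (c • f)) ((rE q f hf : V ≃ₗ[K] V) w) = 0 := by
    rw [rE_apply, rE_apply, ew, ef, h2]
  rw [eich_conj q (rE q f hf) h0 h1 h3 h4]
  simp only [rE_apply, ew, ef]

/-- The space has dimension 3.  `h u w = 0`, `h v p = 0`, `Q u = Q v ≠ 0`, `w`, `p` singular, not `0`.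
There are `w'`, `p'` singular with `h w' w = 1`, `h w' u = 0` and `h p' p = 1`, `h p' v = 0`: take `y` with
`h y w = 1`, `h y u = 0` (`two_val`) and `w' = y - Q y • w`.  By `witt1` (for `U = ⊤`) there is `P ∈ IG q` with `P w = p`, `P w' = p'`.  `P u`
and `v` are in `perp2 ⊤ p p'`, which has dimension one, so `P u = c v`, `c ^ 2 = 1`.  If `c = -1`, take `rE v * P` (`rE v` fixes `p`). -/
theorem eich_trans [FiniteDimensional K V] (h2 : (2 : K) ≠ 0) (hV : q.ND ⊤) (h3 : finrank K V = 3)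
    {w p u v : V} (hw : w ≠ 0) (hp : p ≠ 0) (hw0 : q.Q w = 0) (hp0 : q.Q p = 0)
    (hu : q.h u w = 0) (hv : q.h v p = 0) (hQ : q.Q u = q.Q v) (hQ0 : q.Q u ≠ 0) :
    ∃ P : IG q, (P : V ≃ₗ[K] V) w = p ∧ (P : V ≃ₗ[K] V) u = v := by
  -- the second vector of a hyperbolic pair, orthogonal to `u`
  have key : ∀ a b : V, a ≠ 0 → q.Q a = 0 → q.h b a = 0 → q.Q b ≠ 0 →
      ∃ a' : V, q.Q a' = 0 ∧ q.h a' a = 1 ∧ q.h a' b = 0 := by
    intro a b ha ha0 hba hb
    have hab : q.h a b = 0 := by rw [q.symm b a, hba]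
    have hi : ∀ s t : K, s • a + t • b = 0 → s = 0 ∧ t = 0 := by
      intro s t hst
      have ht : t = 0 := by
        have h1 := congrArg (q.h b) hst
        rw [map_add, map_smul, map_smul, hba, q.h_self, map_zero, smul_zero, zero_add,
          smul_eq_mul] at h1
        exact (mul_eq_zero.1 h1).resolve_right (mul_ne_zero h2 hb)
      rw [ht, zero_smul, add_zero] at hst
      exact ⟨(smul_eq_zero.1 hst).resolve_right ha, ht⟩
    obtain ⟨y, -, hy1, hy2⟩ := two_val q hV (a := a) (b := b) Submodule.mem_top Submodule.mem_top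
      hi 1 0
    refine ⟨y - q.Q y • a, ?_, ?_, ?_⟩
    · rw [q.Q_sub, q.smul, map_smul, smul_eq_mul, ha0, hy1]
      ring
    · rw [q.sub_left, q.smul_left, q.h_self_zero ha0, hy1, mul_zero, sub_zero]
    · rw [q.sub_left, q.smul_left, hab, hy2, mul_zero, sub_zero]
  have hv0 : q.Q v ≠ 0 := by rw [← hQ]; exact hQ0
  obtain ⟨w', hw'0, hw'1, hw'2⟩ := key w u hw hw0 hu hQ0
  obtain ⟨p', hp'0, hp'1, hp'2⟩ := key p v hp hp0 hv hv0
  obtain ⟨P, hP, hPw, hPw', -⟩ := witt1 q hV (w := w) (w' := w') (v := p) (v' := p')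
    Submodule.mem_top Submodule.mem_top Submodule.mem_top Submodule.mem_top hw0 hw'0 hp0 hp'0
    hw'1 hp'1
  have hne : q.h p p' ≠ 0 := by
    rw [q.symm p' p, hp'1]
    exact one_ne_zero
  have hfr := perp2_finrank q (U := ⊤) (a := p) (b := p') Submodule.mem_top Submodule.mem_top
    hp0 hp'0 hne
  rw [finrank_top, h3] at hfr
  have hfr1 : finrank K (q.perp2 ⊤ p p') = 1 := by omega
  have hvm : v ∈ q.perp2 ⊤ p p' := by
    rw [q.mem_perp2]
    exact ⟨Submodule.mem_top, by rw [q.symm v p, hv], hp'2⟩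
  have hum : P u ∈ q.perp2 ⊤ p p' := by
    rw [q.mem_perp2]
    refine ⟨Submodule.mem_top, ?_, ?_⟩
    · rw [← hPw]
      have h5 := ig_h q ⟨P, hP⟩ w u
      exact h5.trans (by rw [q.symm u w, hu])
    · rw [← hPw']
      have h5 := ig_h q ⟨P, hP⟩ w' u
      exact h5.trans hw'2
  have hv1 : v ≠ 0 := by
    intro h
    apply hv0
    rw [h, q.Q_zero]
  have hvm0 : (⟨v, hvm⟩ : q.perp2 ⊤ p p') ≠ 0 := fun h => hv1 (congrArg Subtype.val h)
  obtain ⟨c, hc⟩ := (finrank_eq_one_iff_of_nonzero' _ hvm0).1 hfr1 ⟨P u, hum⟩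
  have hc' : c • v = P u := congrArg Subtype.val hc
  have hc2 : c ^ 2 = 1 := by
    have h5 : q.Q (P u) = q.Q u := hP u
    rw [← hc', q.smul, hQ] at h5
    exact mul_right_cancel₀ hv0 (h5.trans (one_mul _).symm)
  rcases (show c = 1 ∨ c = -1 from by
      have h7 : (c - 1) * (c + 1) = 0 := by linear_combination hc2
      rcases mul_eq_zero.1 h7 with h8 | h8
      · exact Or.inl (sub_eq_zero.1 h8)
      · exact Or.inr (eq_neg_of_add_eq_zero_left h8)) with h6 | h6
  · refine ⟨⟨P, hP⟩, hPw, ?_⟩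
    show P u = v
    rw [← hc', h6, one_smul]
  · refine ⟨rE q v hv0 * ⟨P, hP⟩, ?_, ?_⟩
    · show q.refl v (P w) = p
      rw [hPw, refl_fix q hv]
    · show q.refl v (P u) = v
      rw [← hc', h6, neg_smul, one_smul, map_neg, q.refl_apply, q.h_self, mul_assoc,
        mul_inv_cancel₀ hv0]
      module

end ThO
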