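import Pool.Agent.ThO.Defs
import Pool.Agent.ThQ.GDefs
import Pool.Agent.ThQ.GLT

/-! # Module ORfl: reflections as elements of the isometry group -/

namespace ThO
open Matrix Module ThQ

section General

variable {K V : Type*} [Field K] [AddCommGroup V] [Module K V] (q : QF K V)

/-- the reflection in `f` as an isometry -/
noncomputable def rE (f : V) (h0 : q.Q f ≠ 0) : IG q :=
  ⟨LinearEquiv.ofInvolutive (q.refl f) (fun x => refl_refl q h0 x),
    fun x => (refl_iso q (U := ⊤) Submodule.mem_top h0).2 x Submodule.mem_top⟩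

theorem rE_apply (f : V) (h0 : q.Q f ≠ 0) (x : V) : (rE q f h0 : V ≃ₗ[K] V) x = q.refl f x := rfl

theorem rE_sq (f : V) (h0 : q.Q f ≠ 0) : rE q f h0 * rE q f h0 = 1 := by
  apply Subtype.ext
  apply LinearEquiv.ext
  intro x
  exact refl_refl q h0 x

/-- `p ∘ refl f ∘ p⁻¹ = refl (p f)` -/
theorem rE_conj (p : IG q) (f : V) (h0 : q.Q f ≠ 0) :
    p * rE q f h0 * p⁻¹ = rE q ((p : V ≃ₗ[K] V) f) (by rw [p.2 f]; exact h0) := by
  apply Subtype.ext
  apply LinearEquiv.ext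
  intro x
  show (p : V ≃ₗ[K] V) (q.refl f (((p⁻¹ : IG q) : V ≃ₗ[K] V) x)) = q.refl ((p : V ≃ₗ[K] V) f) x
  obtain ⟨y, hy⟩ : ∃ y, y = ((p⁻¹ : IG q) : V ≃ₗ[K] V) x := ⟨_, rfl⟩
  have hx : (p : V ≃ₗ[K] V) y = x := by
    rw [hy]
    exact (p : V ≃ₗ[K] V).apply_symm_apply x
  rw [← hy, ← hx]
  have hiso : q.Iso ⊤ ((p : V ≃ₗ[K] V) : V →ₗ[K] V) := ⟨fun _ _ => trivial, fun x _ => p.2 x⟩
  have e1 : q.h ((p : V ≃ₗ[K] V) f) ((p : V ≃ₗ[K] V) y) = q.h f y :=
    hiso.h (x := f) (y := y) trivial trivial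
  have e2 : q.Q ((p : V ≃ₗ[K] V) f) = q.Q f := p.2 f
  rw [q.refl_apply, q.refl_apply, map_sub, map_smul, e1, e2]

theorem rE_congr {f f' : V} (h : ∀ x, q.refl f x = q.refl f' x) (h0 : q.Q f ≠ 0) (h0' : q.Q f' ≠ 0) :
    rE q f h0 = rE q f' h0' := by
  apply Subtype.ext
  apply LinearEquiv.ext
  intro x
  exact h x

/-- `ThQ.refl_smul` -/
theorem rE_smul (f : V) (h0 : q.Q f ≠ 0) {t : K} (ht : t ≠ 0) (h0' : q.Q (t • f) ≠ 0) :
    rE q (t • f) h0' = rE q f h0 :=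
  rE_congr q (fun x => by rw [refl_smul q f ht]) h0' h0

private theorem ORfl_map {f g : V} (hfg : q.Q f = q.Q g) (h : q.Q (f - g) ≠ 0) :
    q.refl (f - g) f = g := by
  have e : q.h (f - g) f = q.Q (f - g) := by
    rw [q.sub_left, q.Q_sub, q.h_self, ← hfg, q.symm f g]
    ring
  rw [q.refl_apply, e, mul_inv_cancel₀ h, one_smul, sub_sub_cancel]

/-- `Q e = Q f ≠ 0`: `Q (e - f) + Q (e + f) = 4 Q f ≠ 0`.  If `Q (e - f) ≠ 0`, the reflection in `e - f` maps `e` to `f`; otherwise the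
reflection in `e + f` maps `e` to `- f`.  So there is `p` with `p e = ± f`. -/
theorem refl_move (h2 : (2 : K) ≠ 0) {e f : V} (he : q.Q e ≠ 0) (h : q.Q e = q.Q f) :
    ∃ p : IG q, (p : V ≃ₗ[K] V) e = f ∨ (p : V ≃ₗ[K] V) e = -f := by
  by_cases h1 : q.Q (e - f) = 0
  · have h3 : q.Q (e - -f) ≠ 0 := by
      rw [q.Q_sub] at h1
      rw [sub_neg_eq_add, q.add, ← h]
      rw [← h] at h1
      have h4 : q.h e f = 2 * q.Q e := by linear_combination -h1
      rw [h4]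
      have h5 : q.Q e + q.Q e + 2 * q.Q e = 2 * 2 * q.Q e := by ring
      rw [h5]
      exact mul_ne_zero (mul_ne_zero h2 h2) he
    exact ⟨rE q (e - -f) h3, Or.inr (ORfl_map q (by rw [q.Q_neg]; exact h) h3)⟩
  · exact ⟨rE q (e - f) h1, Or.inl (ORfl_map q h h1)⟩

/-- `Q e Q f = t * t`: `f1 = (t / Q f) • f` has `Q f1 = Q e` and the same reflection.  `p e = ± f1` (`refl_move`), so
`rE f1 = p * rE e * p⁻¹` and `rE e * rE f1 = rE e * p * (rE e)⁻¹ * p⁻¹` is a commutator. -/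
theorem refl_pair (h2 : (2 : K) ≠ 0) {e f : V} (he : q.Q e ≠ 0) (hf : q.Q f ≠ 0)
    (h : IsSquare (q.Q e * q.Q f)) : rE q e he * rE q f hf ∈ commutator (IG q) := by
  obtain ⟨t, ht⟩ := h
  have ht0 : t ≠ 0 := by
    intro h0
    rw [h0, mul_zero] at ht
    exact mul_ne_zero he hf ht
  have hc0 : t * (q.Q f)⁻¹ ≠ 0 := mul_ne_zero ht0 (inv_ne_zero hf)
  have hQ : q.Q e = q.Q ((t * (q.Q f)⁻¹) • f) := by
    rw [q.smul]
    field_simp
    rw [ht, sq]
  obtain ⟨p, hp⟩ := refl_move q h2 he hQ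
  have hp' : ∃ c : K, c ≠ 0 ∧ (p : V ≃ₗ[K] V) e = c • f := by
    rcases hp with hp | hp
    · exact ⟨_, hc0, hp⟩
    · exact ⟨-(t * (q.Q f)⁻¹), neg_ne_zero.2 hc0, by rw [hp, neg_smul]⟩
  obtain ⟨c, hc, hpc⟩ := hp'
  have h1 : rE q f hf = p * rE q e he * p⁻¹ := by
    rw [rE_conj]
    exact rE_congr q (fun x => by rw [hpc, refl_smul q f hc]) hf _
  have h3 : (rE q e he)⁻¹ = rE q e he := by
    rw [inv_eq_iff_mul_eq_one, rE_sq]
  have h4 : rE q e he * rE q f hf = rE q e he * p * (rE q e he)⁻¹ * p⁻¹ := by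
    rw [h1, h3, mul_assoc, mul_assoc, mul_assoc]
  rw [h4]
  exact Subgroup.commutator_mem_commutator (Subgroup.mem_top _) (Subgroup.mem_top _)

end General

section V0

variable {K D : Type*} [Field K] [AddCommGroup D] [Module K D] {k : ℕ}

/-- the vector `e_i + m e'_i`, `Q = m` -/
def vm (K D : Type*) [Field K] [AddCommGroup D] (i : Fin k) (m : K) : V0 K D k :=
  (Pi.single i 1, 0, Pi.single i m)

theorem vm_Q (qD : QF K D) (i : Fin k) (m : K) : (q0 qD k).Q (vm K D i m) = m := by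
  rw [q0_Q]
  show (Pi.single i 1 : Fin k → K) ⬝ᵥ Pi.single i m + qD.Q 0 = m
  rw [qD.Q_zero, single_one_dotProduct, Pi.single_eq_same, add_zero]

/-- the reflection in a vector of `D` -/
theorem oD_rE (qD : QF K D) (e : D) (h0 : qD.Q e ≠ 0) (h0' : (q0 qD k).Q ((0, e, 0) : V0 K D k) ≠ 0) :
    oD qD k (rE qD e h0) = rE (q0 qD k) ((0, e, 0) : V0 K D k) h0' := by
  apply Subtype.ext
  apply LinearEquiv.ext
  intro x
  have hQe' : (q0 qD k).Q ((0, e, 0) : V0 K D k) = qD.Q e := by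
    rw [q0_Q]
    show (0 : Fin k → K) ⬝ᵥ (0 : Fin k → K) + qD.Q e = qD.Q e
    rw [zero_dotProduct, zero_add]
  have hhe' : (q0 qD k).h ((0, e, 0) : V0 K D k) x = qD.h e x.2.1 := by
    rw [q0_h]
    show (0 : Fin k → K) ⬝ᵥ x.2.2 + (0 : Fin k → K) ⬝ᵥ x.1 + qD.h e x.2.1 = _
    rw [zero_dotProduct, zero_dotProduct, zero_add, zero_add]
  rw [oD_apply, rE_apply, rE_apply, QF.refl_apply, QF.refl_apply, hhe', hQe']
  ext j <;> simp

private theorem ORfl_vm (qD : QF K D) (i : Fin k) {m : K} (hm : m ≠ 0) (v : V0 K D k) :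
    (q0 qD k).refl (vm K D i m) v =
      (Function.update v.1 i (-(m⁻¹ * v.2.2 i)), v.2.1, Function.update v.2.2 i (-(m * v.1 i))) := by
  have e0h : (q0 qD k).h (vm K D i m) v = v.2.2 i + m * v.1 i := by
    rw [q0_h]
    show (Pi.single i 1 : Fin k → K) ⬝ᵥ v.2.2 + (Pi.single i m : Fin k → K) ⬝ᵥ v.1 + qD.h 0 v.2.1 = _
    rw [qD.zero_left, single_one_dotProduct, single_dotProduct, add_zero]
  rw [QF.refl_apply, e0h, vm_Q]
  refine Prod.ext ?_ (Prod.ext ?_ ?_)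
  · funext j
    show v.1 j - ((v.2.2 i + m * v.1 i) * m⁻¹) • (Pi.single i 1 : Fin k → K) j =
      Function.update v.1 i (-(m⁻¹ * v.2.2 i)) j
    by_cases hj : j = i
    · subst hj
      rw [Pi.single_eq_same, Function.update_self, smul_eq_mul]
      field_simp
      ring
    · rw [Pi.single_eq_of_ne hj, Function.update_of_ne hj, smul_zero, sub_zero]
  · show v.2.1 - ((v.2.2 i + m * v.1 i) * m⁻¹) • (0 : D) = v.2.1
    rw [smul_zero, sub_zero]
  · funext j
    show v.2.2 j - ((v.2.2 i + m * v.1 i) * m⁻¹) • (Pi.single i m : Fin k → K) j =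
      Function.update v.2.2 i (-(m * v.1 i)) j
    by_cases hj : j = i
    · subst hj
      rw [Pi.single_eq_same, Function.update_self, smul_eq_mul]
      field_simp
      ring
    · rw [Pi.single_eq_of_ne hj, Function.update_of_ne hj, smul_zero, sub_zero]

private theorem ORfl_dg (qD : QF K D) (i : Fin k) (t : Kˣ) (v : V0 K D k) :
    (mL qD k (dgU i t) : V0 K D k ≃ₗ[K] V0 K D k) v =
      (Function.update v.1 i (t * v.1 i), v.2.1,
        Function.update v.2.2 i (((t⁻¹ : Kˣ) : K) * v.2.2 i)) := by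
  rw [mL_apply]
  have e1 : ((dgU i t : (Matrix (Fin k) (Fin k) K)ˣ) : Matrix (Fin k) (Fin k) K) =
      diagonal (Function.update 1 i (t : K)) := rfl
  have e2 : (((dgU i t)⁻¹ : (Matrix (Fin k) (Fin k) K)ˣ) : Matrix (Fin k) (Fin k) K) =
      diagonal (Function.update 1 i ((t⁻¹ : Kˣ) : K)) := rfl
  rw [e1, e2, diagonal_transpose]
  refine Prod.ext ?_ (Prod.ext rfl ?_)
  · funext j
    show (diagonal (Function.update 1 i (t : K)) *ᵥ v.1) j = _
    rw [mulVec_diagonal]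
    by_cases hj : j = i
    · subst hj
      simp
    · simp [hj]
  · funext j
    show (diagonal (Function.update 1 i ((t⁻¹ : Kˣ) : K)) *ᵥ v.2.2) j = _
    rw [mulVec_diagonal]
    by_cases hj : j = i
    · subst hj
      simp
    · simp [hj]

/-- On the plane of `w = e_i`, `w' = e'_i`: the reflection in `w + m w'` maps `w` to `- m w'` and `w'` to `- w / m`; so the product
for `m1`, `m2` maps `w` to `(m2 / m1) w` and `w'` to `(m1 / m2) w'`. -/
theorem dg_rE (qD : QF K D) (i : Fin k) (t : Kˣ) {m1 m2 : K} (ht : (t : K) * m1 = m2)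
    (h1 : (q0 qD k).Q (vm K D i m1) ≠ 0) (h2 : (q0 qD k).Q (vm K D i m2) ≠ 0) :
    mL qD k (dgU i t) = rE (q0 qD k) (vm K D i m1) h1 * rE (q0 qD k) (vm K D i m2) h2 := by
  have h1' : m1 ≠ 0 := by rw [vm_Q] at h1; exact h1
  have h2' : m2 ≠ 0 := by rw [vm_Q] at h2; exact h2
  apply Subtype.ext
  apply LinearEquiv.ext
  intro v
  show (mL qD k (dgU i t) : V0 K D k ≃ₗ[K] V0 K D k) v =
    (q0 qD k).refl (vm K D i m1) ((q0 qD k).refl (vm K D i m2) v)
  rw [ORfl_dg, ORfl_vm qD i h2', ORfl_vm qD i h1']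
  dsimp only
  rw [Function.update_self, Function.update_self, Function.update_idem, Function.update_idem]
  have e1 : (t : K) = m1⁻¹ * m2 := by
    rw [← ht]
    field_simp
  have e2 : ((t⁻¹ : Kˣ) : K) = m1 * m2⁻¹ := by
    rw [Units.val_inv_eq_inv_val, e1, mul_inv, inv_inv]
  rw [e1, e2, mul_neg, neg_neg, mul_neg, neg_neg, mul_assoc, mul_assoc]

end V0

end ThO
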