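import Pool.Agent.ThO.OBas
import Pool.Agent.ThQ.StepI
import Pool.Agent.ThQ.StepII

/-! # Module OStep: the two steps -/

namespace ThO
open Matrix Module ThQ

variable {K V : Type*} [Field K] [AddCommGroup V] [Module K V] (q : QF K V)
variable {U : Submodule K V} {G : V →ₗ[K] V} {w w' : V}

/-- Let `v`, `v'` be the system of `U1 = perp2 U w (G w)`, `z = h w (G w)`, `D1 = Dp U1 v v'`: `finrank D1 = 3` (`Dp_finrank`,
`perp2_finrank`), nondegenerate (`Dp_ND`, `perp2_ND`), so there is `e ∈ D1` with `Q e = - c / z` (`univ3`).  Put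
`w' = newv q G w e = z⁻¹ G w - Q e w + e` (`ThQ.newv`): `Q w' = 0`, `h w' w = 1`, `h w' (G w) = - Q e z = c`; the `v i`, `v' i` are in
`perp2 U w w'` (orthogonal to `w`, `G w`, `e`); `hyp_cons`.  Block: `h (v' i) (G w) = 0`,
`h (v' i) (G (v j)) = h (v' i) (g1 (v j))` as `G x = g1 x + β • G w`.  (See `ThQ.stepI` for the same computations.) -/
theorem stepB [Finite K] [FiniteDimensional K V] (hU : q.ND U) (hG : q.Iso U G) (hw : w ∈ U)
    (h0 : q.Q w = 0) (hz : q.h w (G w) ≠ 0) {n : ℕ} (hf : finrank K U = 2 * (n + 1) + 3)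
    {l : Fin n → K} (h : TriB q (q.perp2 U w (G w)) (q.g1 G w) n l) {c : K} (hc : c ≠ 0) :
    TriB q U G (n + 1) (Fin.cons c l) := by
  obtain ⟨v, v', hv, ha, hd⟩ := h
  have hGw := hG.1 w hw
  have hQG : q.Q (G w) = 0 := by rw [hG.2 w hw, h0]
  have hU1 := perp2_ND q hU hw hGw h0 hQG hz
  have hf1 := perp2_finrank q hw hGw h0 hQG hz
  have hD := Dp_ND q hU1 hv
  have hD3 : 3 ≤ finrank K (q.Dp (q.perp2 U w (G w)) v v') := by
    have := Dp_finrank q hv
    rw [Fintype.card_fin] at this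
    omega
  obtain ⟨e, he, hQe⟩ := univ3 q hD hD3 (-(c / q.h w (G w)))
  have hem := (q.mem_Dp).1 he
  have hem' := (q.mem_perp2).1 hem.1
  have hww : q.h w w = 0 := q.h_self_zero h0
  have hGG : q.h (G w) (G w) = 0 := q.h_self_zero hQG
  have hGw' : q.h (G w) w = q.h w (G w) := q.symm _ _
  have hew : q.h e w = 0 := by rw [q.symm w e, hem'.2.1]
  have heG : q.h e (G w) = 0 := by rw [q.symm (G w) e, hem'.2.2]
  have m := fun i => (q.mem_perp2).1 (hv.mem i)
  have m' := fun i => (q.mem_perp2).1 (hv.mem' i)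
  have hwU : newv q G w e ∈ U :=
    U.add_mem (U.sub_mem (U.smul_mem _ hGw) (U.smul_mem _ hw)) hem'.1
  have hw1 : q.h (newv q G w e) w = 1 := by
    rw [newv, q.add_left, q.sub_left, q.smul_left, q.smul_left, hww, hGw', hew, inv_mul_cancel₀ hz]
    ring
  have hwQ : q.Q (newv q G w e) = 0 := by
    rw [newv, q.add, q.Q_sub, q.smul, q.smul, hQG, h0, q.sub_left, q.smul_left,
      q.smul_left, q.smul_left, map_smul, hem'.2.1, hem'.2.2, hGw', smul_eq_mul]
    field_simp
    ring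
  have hwc : q.h (newv q G w e) (G w) = c := by
    rw [newv, q.add_left, q.sub_left, q.smul_left, q.smul_left, hGG, heG, hQe]
    field_simp
    ring
  have hh := hyp_cons q hw hwU h0 hwQ hw1 (v := v) (v' := v')
    ⟨fun i => (q.mem_perp2).2 ⟨(m i).1, (m i).2.1, by
      rw [newv, q.add_left, q.sub_left, q.smul_left, q.smul_left, (m i).2.1, (m i).2.2,
        q.symm (v i) e, (hem.2 i).1]
      ring⟩, fun i => (q.mem_perp2).2 ⟨(m' i).1, (m' i).2.1, by
      rw [newv, q.add_left, q.sub_left, q.smul_left, q.smul_left, (m' i).2.1, (m' i).2.2,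
        q.symm (v' i) e, (hem.2 i).2]
      ring⟩, hv.sing, hv.sing', hv.iso, hv.iso', hv.dual⟩
  have hvG : ∀ i, q.h (v' i) (G w) = 0 := fun i => by rw [q.symm (G w), (m' i).2.2]
  have hvg : ∀ i j, q.h (v' i) (G (v j)) = q.h (v' i) (q.g1 G w (v j)) := fun i j => by
    rw [q.g1_apply, map_sub, map_smul, hvG, smul_zero, sub_zero]
  refine ⟨_, _, hh, fun i j hij => ?_, fun i => ?_⟩
  · revert hij
    refine Fin.cases (fun hij => ?_) (fun i => ?_) i
    · exact absurd hij (Fin.not_lt_zero j)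
    · refine Fin.cases (fun _ => ?_) (fun j => ?_) j
      · rw [Fin.cons_succ, Fin.cons_zero]
        exact hvG i
      · intro hij
        rw [Fin.cons_succ, Fin.cons_succ, hvg]
        exact ha i j (Fin.succ_lt_succ_iff.1 hij)
  · refine Fin.cases ?_ (fun i => ?_) i
    · rw [Fin.cons_zero, Fin.cons_zero, Fin.cons_zero]
      exact hwc
    · rw [Fin.cons_succ, Fin.cons_succ, Fin.cons_succ, hvg]
      exact hd i

/-- the system `Fin.cons w v`, `Fin.cons w' v'`; see `ThQ.tri_g2` -/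
theorem stepB2 (hG : q.Iso U G) (hw : w ∈ U) (hw' : w' ∈ U) (h0 : q.Q w = 0) (h0' : q.Q w' = 0)
    (h1 : q.h w' w = 1) {c : K} (hc : c ≠ 0) (he : G w = c • w) {n : ℕ} {l : Fin n → K}
    (h : TriB q (q.perp2 U w w') (q.g2 G w w') n l) : TriB q U G (n + 1) (Fin.cons c l) := by
  obtain ⟨v, v', hv, ha, hd⟩ := h
  have hh := hyp_cons q hw hw' h0 h0' h1 hv
  have m' := fun i => (q.mem_perp2).1 (hv.mem' i)
  have hvw : ∀ i, q.h (v' i) w = 0 := fun i => by rw [q.symm w, (m' i).2.1]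
  have hvg : ∀ i j, q.h (v' i) (G (v j)) = q.h (v' i) (q.g2 G w w' (v j)) := fun i j => by
    rw [q.g2_apply, map_sub, map_smul, hvw, smul_zero, sub_zero]
  refine ⟨_, _, hh, fun i j hij => ?_, fun i => ?_⟩
  · revert hij
    refine Fin.cases (fun hij => ?_) (fun i => ?_) i
    · exact absurd hij (Fin.not_lt_zero j)
    · refine Fin.cases (fun _ => ?_) (fun j => ?_) j
      · rw [Fin.cons_succ, Fin.cons_zero, he, map_smul, hvw, smul_zero]
      · intro hij
        rw [Fin.cons_succ, Fin.cons_succ, hvg]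
        exact ha i j (Fin.succ_lt_succ_iff.1 hij)
  · refine Fin.cases ?_ (fun i => ?_) i
    · rw [Fin.cons_zero, Fin.cons_zero, Fin.cons_zero, he, map_smul, h1, smul_eq_mul, mul_one]
    · rw [Fin.cons_succ, Fin.cons_succ, Fin.cons_succ, hvg]
      exact hd i

end ThO
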